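import Mathlib

set_option autoImplicit false

/-!
Basic definitions for the lower bound on the number of integers whose Collatz trajectory
reaches a given integer (exponent of Krasikov-Lagarias type).

States are the integers `a` with `a % 3 = 2`.  For `e ≥ 1` the move `e` is valid at `a` when
`child e a = (2 ^ e * a - eps e) / 3` is an integer congruent to 2 mod 3 (here `eps e = 1` for `e` odd
and `2` for `e` even); then the Collatz trajectory of `child e a` passes through `a`.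
-/

namespace CollatzExp

/-- The Collatz map on `ℤ`. -/
def C (y : ℤ) : ℤ := if Even y then y / 2 else 3 * y + 1

/-- `1` for odd `e`, `2` for even `e`. -/
def eps (e : ℕ) : ℤ := if e % 2 = 1 then 1 else 2

/-- The move `e` is valid at `a`. -/
def valid (e : ℕ) (a : ℤ) : Prop := (2 ^ e * a - eps e) % 9 = 6

instance (e : ℕ) (a : ℤ) : Decidable (valid e a) := by unfold valid; infer_instance

/-- The child of `a` along the move `e`. -/
def child (e : ℕ) (a : ℤ) : ℤ := (2 ^ e * a - eps e) / 3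

/-- The transfer operator with exponent `γ`, using the moves `1 ≤ e ≤ E`. -/
noncomputable def L (E : ℕ) (γ : ℝ) (w : ℤ → ℝ) (a : ℤ) : ℝ :=
  ∑ e ∈ Finset.Icc 1 E, if valid e a then ((3 : ℝ) / 2 ^ e) ^ γ * w (child e a) else 0

/-- The exponent `γ` is good: there is a potential, bounded below and above by positive constants,
with `w ≤ L w`. -/
def Good (γ : ℝ) : Prop :=
  ∃ (E : ℕ) (B : ℝ) (w : ℤ → ℝ), (∀ a : ℤ, a % 3 = 2 → 1 ≤ w a ∧ w a ≤ B) ∧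
    ∀ a : ℤ, a % 3 = 2 → w a ≤ L E γ w a

/-- A bootstrap certificate at exponent `γ`, with potentials periodic mod `3 ^ k`. -/
structure IsCert (γ θ : ℝ) (s k E : ℕ) (w g : ℤ → ℝ) : Prop where
  hE : 6 ≤ E
  w_pos : ∀ a : ℤ, a % 3 = 2 → 0 < w a
  g_pos : ∀ a : ℤ, a % 3 = 2 → 0 < g a
  w_per : ∀ a : ℤ, w (a + 3 ^ k) = w a
  g_per : ∀ a : ℤ, g (a + 3 ^ k) = g a
  ineq : ∀ (b : ℤ) (a : ℕ → ℤ), b % 3 = 2 →
    (∀ e ∈ Finset.Icc 1 E, (3 : ℤ) ^ (k + 1) ∣ 2 ^ e * a e - (3 * b + eps e)) →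
    ∑ e ∈ Finset.Icc 1 E,
      (2 : ℝ) ^ (-(γ * (e : ℝ))) * (w (a e) / L E γ w (a e)) ^ (s + 1) * g (a e) ≤ θ * g b

/-- The integer inequalities behind a certificate: `N = 3 ^ (k-1)` coarse classes
`3 t + 2 mod 3 ^ k` and `M = 3 ^ k` fine classes `3 t + 2 mod 3 ^ (k+1)`. `S` is the common scale. -/
structure DataOK (k σ S A8 A2 AL B1 B2 Θ : ℕ) (W G Q H : ℕ → ℕ) : Prop where
  W_pos : ∀ t < 3 ^ (k - 1), 0 < W t
  G_pos : ∀ t < 3 ^ (k - 1), 0 < G t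
  Q_pos : ∀ t < 3 ^ k, 0 < Q t
  hQ0 : ∀ u < 3 ^ (k - 1), S * Q (3 * u) ≤ A2 * W ((4 * u) % 3 ^ (k - 1)) + AL * Q ((4 * (3 * u) + 2) % 3 ^ k)
  hQ1 : ∀ u < 3 ^ (k - 1), S * Q (3 * u + 1) ≤ AL * Q ((4 * (3 * u + 1) + 2) % 3 ^ k)
  hQ2 : ∀ u < 3 ^ (k - 1), S * Q (3 * u + 2) ≤ A8 * W ((2 * u + 1) % 3 ^ (k - 1)) + AL * Q ((4 * (3 * u + 2) + 2) % 3 ^ k)
  hH : ∀ t < 3 ^ k, ∀ t4, t4 = (4 * t + 2) % 3 ^ k →
    S * G (t4 % 3 ^ (k - 1)) * W (t4 % 3 ^ (k - 1)) ^ σ + B2 * H t * Q t4 ^ σ ≤ S * H t4 * Q t4 ^ σ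
  hG : ∀ v < 3 ^ (k - 1),
    B1 * H (3 * ((2 * v + (3 ^ (k - 1) - 1) / 2) % 3 ^ (k - 1)) + 2) + B2 * H (3 * v)
      ≤ Θ * G ((4 * v) % 3 ^ (k - 1))

/-- The real function on `ℤ` attached to an array indexed by the classes `3 t + 2 mod 3 ^ k`. -/
noncomputable def arr (k : ℕ) (W : ℕ → ℕ) (a : ℤ) : ℝ := (W (((a - 2) / 3) % 3 ^ (k - 1)).toNat : ℝ)

end CollatzExp
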