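import Pool.Agent.CollatzExp.T2

set_option autoImplicit false

/-!
(T1) From a good exponent to the number of integers whose trajectory reaches a given integer.
-/

namespace CollatzExp

/-! ### The Collatz map along a move -/

lemma C_even {y : ℤ} (h : y % 2 = 0) : C y = y / 2 := by
  unfold C; rw [if_pos (Int.even_iff.2 h)]

lemma C_odd {y : ℤ} (h : y % 2 = 1) : C y = 3 * y + 1 := by
  unfold C; rw [if_neg (by rw [Int.even_iff]; omega)]

lemma C_iter_two_pow (j i : ℕ) (a : ℤ) (h : j ≤ i) : C^[j] (2 ^ i * a) = 2 ^ (i - j) * a := by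
  induction j with
  | zero => simp
  | succ j ih =>
    rw [Function.iterate_succ_apply', ih (by omega)]
    obtain ⟨d, hd⟩ : ∃ d, i - j = d + 1 := ⟨i - j - 1, by omega⟩
    rw [hd, show i - (j + 1) = d by omega]
    have : (2 : ℤ) ^ (d + 1) * a = 2 * (2 ^ d * a) := by ring
    rw [this, C_even (by omega)]
    omega

/-- Position after `j` steps, `j ≥ 2` or `j = 1` and `e` odd, starting from a child. -/
lemma C_iter_child {e : ℕ} {a : ℤ} (he : 1 ≤ e) (h : valid e a) {j : ℕ} (hj1 : 1 ≤ j)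
    (hj : j ≤ e + 1) (hj2 : e % 2 = 1 ∨ 2 ≤ j) : C^[j] (child e a) = 2 ^ (e + 1 - j) * a := by
  have h3 := three_mul_child h
  obtain ⟨f, rfl⟩ : ∃ f, e = f + 1 := ⟨e - 1, by omega⟩
  obtain ⟨i, rfl⟩ : ∃ i, j = i + 1 := ⟨j - 1, by omega⟩
  rcases Nat.mod_two_eq_zero_or_one (f + 1) with hpar | hpar
  · rw [eps_even hpar] at h3
    obtain ⟨i', rfl⟩ : ∃ i', i = i' + 1 := ⟨i - 1, by omega⟩
    have h4 : (2 : ℤ) ^ (f + 1) * a = 2 * (2 ^ f * a) := by ring
    rw [h4] at h3
    have h5 : child (f + 1) a % 2 = 0 := by omega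
    have h6 : C (child (f + 1) a) = child (f + 1) a / 2 := C_even h5
    obtain ⟨g, rfl⟩ : ∃ g, f = g + 1 := ⟨f - 1, by omega⟩
    have h7 : (2 : ℤ) ^ (g + 1) * a = 2 * (2 ^ g * a) := by ring
    have h8 : (child (g + 1 + 1) a / 2) % 2 = 1 := by rw [h7] at h3; omega
    have h9 : C (child (g + 1 + 1) a / 2) = 2 ^ (g + 1) * a := by
      rw [C_odd h8, h7]; rw [h7] at h3; omega
    rw [Function.iterate_succ_apply, Function.iterate_succ_apply, h6, h9,
      C_iter_two_pow _ _ _ (by omega)]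
    congr 2
    omega
  · rw [eps_odd hpar] at h3
    have h4 : (2 : ℤ) ^ (f + 1) * a = 2 * (2 ^ f * a) := by ring
    have h5 : child (f + 1) a % 2 = 1 := by rw [h4] at h3; omega
    rw [Function.iterate_succ_apply, C_odd h5, h3, show (2 : ℤ) ^ (f + 1) * a - 1 + 1 = 2 ^ (f + 1) * a by ring,
      C_iter_two_pow _ _ _ (by omega)]
    congr 2
    omega

lemma C_iter_child_full {e : ℕ} {a : ℤ} (he : 1 ≤ e) (h : valid e a) :
    C^[e + 1] (child e a) = a := by
  rw [C_iter_child he h (by omega) le_rfl (Or.inr (by omega))]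
  simp

/-- The trajectory of a child does not pass through the children of smaller index. -/
lemma child_sep {e f : ℕ} {a : ℤ} (he : 1 ≤ e) (hve : valid e a) (hvf : valid f a) (hlt : e < f) :
    C^[f - e] (child f a) ≠ child e a := by
  intro h
  have he3 := three_mul_child hve
  have hem := valid_child hve
  by_cases hcase : f % 2 = 1 ∨ 2 ≤ f - e
  · rw [C_iter_child (by omega) hvf (by omega) (by omega) hcase, show f + 1 - (f - e) = e + 1 by omega] at h
    rw [← h] at he3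
    have h1 : (2 : ℤ) ^ (e + 1) * a = 2 * (2 ^ e * a) := by ring
    rw [h1] at he3
    have h2 := eps_cases e
    omega
  · push Not at hcase
    have h1 : f - e = 1 := by omega
    have hf0 : f % 2 = 0 := by omega
    rw [h1, Function.iterate_one] at h
    have hf3 := three_mul_child hvf
    have hfm := valid_child hvf
    rw [eps_even hf0] at hf3
    obtain ⟨g, rfl⟩ : ∃ g, f = g + 1 := ⟨f - 1, by omega⟩
    have h4 : (2 : ℤ) ^ (g + 1) * a = 2 * (2 ^ g * a) := by ring
    rw [h4] at hf3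
    rw [C_even (by omega)] at h
    omega

/-! ### Nonperiodic points -/

/-- `a` is not periodic. -/
def Aper (a : ℤ) : Prop := ∀ j : ℕ, 1 ≤ j → C^[j] a ≠ a

lemma hit_unique {a n : ℤ} (ha : Aper a) {i j : ℕ} (hi : C^[i] n = a) (hj : C^[j] n = a) : i = j := by
  by_contra hne
  rcases Nat.lt_or_gt_of_ne hne with h | h
  · apply ha (j - i) (by omega)
    rw [← hi, ← Function.iterate_add_apply, show j - i + i = j by omega, hj, hi]
  · apply ha (i - j) (by omega)
    rw [← hj, ← Function.iterate_add_apply, show i - j + j = i by omega, hi, hj]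

lemma Aper.child {e : ℕ} {a : ℤ} (ha : Aper a) (he : 1 ≤ e) (h : valid e a) : Aper (child e a) := by
  intro j hj hcon
  apply ha j hj
  have h1 := C_iter_child_full he h
  conv_lhs => rw [← h1]
  rw [← Function.iterate_add_apply, add_comm, Function.iterate_add_apply, hcon, h1]

/-- The two sets of ancestors are disjoint. -/
lemma disj_children {e f : ℕ} {a n : ℤ} (ha : Aper a) (he : 1 ≤ e) (hve : valid e a)
    (hvf : valid f a) (hlt : e < f) {i j : ℕ} (hi : C^[i] n = child e a) (hj : C^[j] n = child f a) :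
    False := by
  have h1 : C^[i + (e + 1)] n = a := by
    rw [add_comm, Function.iterate_add_apply, hi, C_iter_child_full he hve]
  have h2 : C^[j + (f + 1)] n = a := by
    rw [add_comm, Function.iterate_add_apply, hj, C_iter_child_full (by omega) hvf]
  have h3 := hit_unique ha h1 h2
  apply child_sep he hve hvf hlt
  rw [← hj, ← Function.iterate_add_apply, show f - e + j = i by omega, hi]

/-- One of two children of any point is not periodic. -/
lemma exists_aper_child {a : ℤ} (ha : a % 3 = 2) :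
    ∃ e, 1 ≤ e ∧ valid e a ∧ Aper (child e a) := by
  obtain ⟨e₁, e₂, h1, -, h2, -, hne, hv1, hv2⟩ := two_valid ha
  have key : ∀ e f : ℕ, 1 ≤ e → valid e a → valid f a → e < f → ¬ Aper (child e a) →
      ¬ Aper (child f a) → False := by
    intro e f he hve hvf hlt hpe hpf
    unfold Aper at hpe hpf
    push Not at hpe hpf
    obtain ⟨p, hp, hpe⟩ := hpe
    obtain ⟨q, hq, hqf⟩ := hpf
    have hpe' : ∀ t : ℕ, C^[t * p] (child e a) = child e a := by
      intro t
      induction t with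
      | zero => simp
      | succ t ih => rw [add_mul, one_mul, Function.iterate_add_apply, hpe, ih]
    have hqf' : ∀ t : ℕ, C^[t * q] (child f a) = child f a := by
      intro t
      induction t with
      | zero => simp
      | succ t ih => rw [add_mul, one_mul, Function.iterate_add_apply, hqf, ih]
    -- both return after `(e + 1) * p * q` steps
    set R := (e + 1) * p * q with hR
    have hRge : e + 1 ≤ R := by
      rw [hR, mul_assoc]
      exact Nat.le_mul_of_pos_right _ (by positivity)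
    have hR1 : C^[R] (child e a) = child e a := by
      rw [hR, show (e + 1) * p * q = ((e + 1) * q) * p by ring]; exact hpe' _
    have hR2 : C^[R] (child f a) = child f a := hqf' _
    apply child_sep he hve hvf hlt
    have h3 : C^[R] (C^[f - e] (child f a)) = C^[f - e] (child f a) := by
      rw [← Function.iterate_add_apply, add_comm, Function.iterate_add_apply, hR2]
    rw [← h3, ← hR1]
    rw [show R = (R - (e + 1)) + (e + 1) by omega, Function.iterate_add_apply, Function.iterate_add_apply C (R - (e + 1)) (e + 1) (child e a),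
      C_iter_child_full he hve]
    congr 1
    rw [← Function.iterate_add_apply, show e + 1 + (f - e) = f + 1 by omega,
      C_iter_child_full (by omega) hvf]
  by_contra hcon
  push Not at hcon
  rcases Nat.lt_or_gt_of_ne hne with h | h
  · exact key e₁ e₂ h1 hv1 hv2 h (hcon e₁ h1 hv1) (hcon e₂ h2 hv2)
  · exact key e₂ e₁ h2 hv2 hv1 h (hcon e₂ h2 hv2) (hcon e₁ h1 hv1)

/-! ### Counting -/

open Classical in
/-- The integers of absolute value at most `X` whose trajectory reaches `a`. -/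
noncomputable def DD (a : ℤ) (X : ℝ) : Finset ℤ :=
  (Finset.Icc (-⌊X⌋) ⌊X⌋).filter (fun n => ∃ k : ℕ, C^[k] n = a)

lemma mem_DD {a n : ℤ} {X : ℝ} : n ∈ DD a X ↔ |(n : ℝ)| ≤ X ∧ ∃ k : ℕ, C^[k] n = a := by
  classical
  simp only [DD, Finset.mem_filter, Finset.mem_Icc]
  refine and_congr_left fun _ => ?_
  rw [abs_le]
  constructor
  · rintro ⟨h1, h2⟩
    constructor
    · have : ((-⌊X⌋ : ℤ) : ℝ) ≤ n := by exact_mod_cast h1
      have h3 := Int.floor_le X
      push_cast at this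
      linarith
    · exact Int.le_floor.1 h2
  · rintro ⟨h1, h2⟩
    refine ⟨?_, Int.le_floor.2 h2⟩
    have : -n ≤ ⌊X⌋ := Int.le_floor.2 (by push_cast; linarith)
    omega

lemma DD_child_sub {a : ℤ} {e : ℕ} (he : 1 ≤ e) (h : valid e a) (X : ℝ) :
    DD (child e a) X ⊆ DD a X := by
  intro n hn
  rw [mem_DD] at hn ⊢
  obtain ⟨h1, k, hk⟩ := hn
  exact ⟨h1, (e + 1) + k, by rw [Function.iterate_add_apply, hk, C_iter_child_full he h]⟩

/-- The sum of the counts of the children is less than the count of the parent. -/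
lemma sum_children_le {a : ℤ} (ha : Aper a) {X : ℝ} (E : ℕ) :
    ∑ e ∈ Finset.Icc 1 E, (if valid e a then (DD (child e a) X).card else 0) ≤ (DD a X).card := by
  classical
  rw [← Finset.sum_filter]
  rw [← Finset.card_biUnion]
  · refine Finset.card_le_card ?_
    intro n hn
    rw [Finset.mem_biUnion] at hn
    obtain ⟨e, he, hn⟩ := hn
    rw [Finset.mem_filter, Finset.mem_Icc] at he
    exact DD_child_sub he.1.1 he.2 X hn
  · intro e he f hf hne
    rw [Finset.mem_coe, Finset.mem_filter, Finset.mem_Icc] at he hf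
    rw [Function.onFun, Finset.disjoint_left]
    intro n hn hn'
    rw [mem_DD] at hn hn'
    obtain ⟨-, i, hi⟩ := hn
    obtain ⟨-, j, hj⟩ := hn'
    rcases Nat.lt_or_gt_of_ne hne with h | h
    · exact disj_children ha he.1.1 he.2 hf.2 h hi hj
    · exact disj_children ha hf.1.1 hf.2 he.2 h hj hi

lemma card_child_lt {a : ℤ} (ha : Aper a) {X : ℝ} (hX : |(a : ℝ)| ≤ X) {e : ℕ} (he : 1 ≤ e)
    (h : valid e a) : (DD (child e a) X).card < (DD a X).card := by
  refine Finset.card_lt_card ⟨DD_child_sub he h X, fun hsub => ?_⟩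
  have h1 : a ∈ DD a X := mem_DD.2 ⟨hX, 0, rfl⟩
  have h2 := hsub h1
  rw [mem_DD] at h2
  obtain ⟨-, k, hk⟩ := h2
  apply ha ((e + 1) + k) (by omega)
  rw [Function.iterate_add_apply, hk, C_iter_child_full he h]

/-! ### The lower bound below a deep node -/

/-- All ancestors in `2 mod 3` are large. -/
def Deep (A₀ : ℝ) (a : ℤ) : Prop :=
  ∀ n : ℤ, n % 3 = 2 → (∃ k : ℕ, C^[k] n = a) → A₀ ≤ |(n : ℝ)|

lemma Deep.child {A₀ : ℝ} {a : ℤ} (hd : Deep A₀ a) {e : ℕ} (he : 1 ≤ e) (h : valid e a) :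
    Deep A₀ (child e a) := by
  intro n hn hk
  obtain ⟨k, hk⟩ := hk
  exact hd n hn ⟨(e + 1) + k, by rw [Function.iterate_add_apply, hk, C_iter_child_full he h]⟩

lemma one_le_abs_of_mod {a : ℤ} (ha : a % 3 = 2) : (1 : ℝ) ≤ |(a : ℝ)| := by
  have h : 1 ≤ |a| := Int.one_le_abs (by omega)
  exact_mod_cast h

lemma abs_child_le {e : ℕ} {a : ℤ} (he : 1 ≤ e) (ha : a % 3 = 2) (h : valid e a) :
    |(child e a : ℝ)| ≤ (2 : ℝ) ^ e / 3 * (|(a : ℝ)| + 1) := by
  have h3 : (3 : ℝ) * child e a = 2 ^ e * a - eps e := by exact_mod_cast three_mul_child h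
  have h4 : (child e a : ℝ) = (2 ^ e * a - eps e) / 3 := by linarith
  rw [h4, abs_div, abs_of_pos (show (0 : ℝ) < 3 by norm_num)]
  have h5 : |(2 : ℝ) ^ e * a - eps e| ≤ 2 ^ e * |(a : ℝ)| + 2 := by
    have h6 : |(eps e : ℝ)| ≤ 2 := by rcases eps_cases e with h | h <;> rw [h] <;> norm_num
    calc |(2 : ℝ) ^ e * a - eps e| ≤ |(2 : ℝ) ^ e * a| + |(eps e : ℝ)| := abs_sub _ _
      _ ≤ 2 ^ e * |(a : ℝ)| + 2 := by
        rw [abs_mul, abs_of_pos (show (0 : ℝ) < 2 ^ e by positivity)]; linarith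
  have h7 : (2 : ℝ) ≤ 2 ^ e := by
    calc (2 : ℝ) = 2 ^ 1 := by norm_num
      _ ≤ 2 ^ e := pow_le_pow_right₀ (by norm_num) he
  have h8 := one_le_abs_of_mod ha
  rw [div_le_iff₀ (by norm_num)]
  calc |(2 : ℝ) ^ e * a - eps e| ≤ 2 ^ e * |(a : ℝ)| + 2 := h5
    _ ≤ _ := by nlinarith

lemma count_deep {E : ℕ} {γ B κ A₀ : ℝ} {w : ℤ → ℝ} (hγ0 : 0 < γ) (hγ1 : γ ≤ 1) (hA₀ : 0 < A₀)
    (hκ : (1 + 1 / A₀) ^ γ ≤ κ) (hw : ∀ a : ℤ, a % 3 = 2 → 1 ≤ w a ∧ w a ≤ B)
    (hL : ∀ a : ℤ, a % 3 = 2 → κ * w a ≤ L E γ w a) (hB : 1 ≤ B) (X : ℝ) (N : ℕ) :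
    ∀ a : ℤ, a % 3 = 2 → Aper a → Deep A₀ a → |(a : ℝ)| ≤ X → (DD a X).card ≤ N →
      1 / (B * 2 ^ E) * (w a * (X / |(a : ℝ)|) ^ γ) ≤ (DD a X).card := by
  induction N with
  | zero =>
    intro a _ _ _ hX hN
    exfalso
    have h1 : a ∈ DD a X := mem_DD.2 ⟨hX, 0, rfl⟩
    have h2 : 0 < (DD a X).card := Finset.card_pos.2 ⟨a, h1⟩
    omega
  | succ N ih =>
    intro a ha hap hd hX hN
    have ha1 := one_le_abs_of_mod ha
    have ha0 : 0 < |(a : ℝ)| := by linarith
    have hX0 : 0 < X := by linarith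
    have hratio : 1 ≤ X / |(a : ℝ)| := by rw [one_le_div ha0]; exact hX
    have hBE : 0 < B * 2 ^ E := by positivity
    by_cases hsmall : X < 2 ^ E * |(a : ℝ)|
    · have h1 : a ∈ DD a X := mem_DD.2 ⟨hX, 0, rfl⟩
      have h2 : 1 ≤ (DD a X).card := Finset.card_pos.2 ⟨a, h1⟩
      have h3 : (1 : ℝ) ≤ (DD a X).card := by exact_mod_cast h2
      refine le_trans ?_ h3
      rw [div_mul_eq_mul_div, one_mul, div_le_one hBE]
      have h4 : (X / |(a : ℝ)|) ^ γ ≤ 2 ^ E := by
        calc (X / |(a : ℝ)|) ^ γ ≤ (X / |(a : ℝ)|) ^ (1 : ℝ) :=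
              Real.rpow_le_rpow_of_exponent_le hratio hγ1
          _ = X / |(a : ℝ)| := Real.rpow_one _
          _ ≤ 2 ^ E := by rw [div_le_iff₀ ha0]; exact hsmall.le
      exact mul_le_mul (hw a ha).2 h4 (by positivity) (by linarith)
    · push Not at hsmall
      have hchild : ∀ e ∈ Finset.Icc 1 E, (if valid e a then ((3 : ℝ) / 2 ^ e) ^ γ * w (child e a) else 0)
          * (1 / (B * 2 ^ E) * ((X / |(a : ℝ)|) ^ γ / κ))
          ≤ ((if valid e a then (DD (child e a) X).card else 0 : ℕ) : ℝ) := by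
        intro e he
        rw [Finset.mem_Icc] at he
        split_ifs with hv
        · have hc3 := valid_child hv
          have hab := abs_child_le he.1 ha hv
          have hc1 := one_le_abs_of_mod hc3
          have hc0 : 0 < |(child e a : ℝ)| := by linarith
          have h2e : (0 : ℝ) < 2 ^ e := by positivity
          have h2e' : (2 : ℝ) ^ e ≤ 2 ^ E := pow_le_pow_right₀ (by norm_num) he.2
          have hcX : |(child e a : ℝ)| ≤ X := by
            refine hab.trans (le_trans ?_ hsmall)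
            calc (2 : ℝ) ^ e / 3 * (|(a : ℝ)| + 1) ≤ 2 ^ e / 3 * (3 * |(a : ℝ)|) :=
                  mul_le_mul_of_nonneg_left (by linarith) (by positivity)
              _ = 2 ^ e * |(a : ℝ)| := by ring
              _ ≤ 2 ^ E * |(a : ℝ)| := mul_le_mul_of_nonneg_right h2e' ha0.le
          have hlt := card_child_lt hap hX he.1 hv
          have hrec := ih (child e a) hc3 (hap.child he.1 hv) (hd.child he.1 hv) hcX (by omega)
          refine le_trans ?_ hrec
          have hAa := hd a ha ⟨0, rfl⟩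
          have h5 : |(a : ℝ)| + 1 ≤ |(a : ℝ)| * (1 + 1 / A₀) := by
            have : 1 ≤ |(a : ℝ)| * (1 / A₀) := by
              rw [mul_one_div, one_le_div hA₀]; exact hAa
            linarith
          have h6 : (3 : ℝ) / 2 ^ e * (X / |(a : ℝ)|) / (1 + 1 / A₀) ≤ X / |(child e a : ℝ)| := by
            rw [div_le_div_iff₀ (by positivity) hc0]
            have h7 : |(child e a : ℝ)| ≤ 2 ^ e / 3 * (|(a : ℝ)| * (1 + 1 / A₀)) :=
              hab.trans (mul_le_mul_of_nonneg_left h5 (by positivity))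
            calc (3 : ℝ) / 2 ^ e * (X / |(a : ℝ)|) * |(child e a : ℝ)|
                ≤ 3 / 2 ^ e * (X / |(a : ℝ)|) * (2 ^ e / 3 * (|(a : ℝ)| * (1 + 1 / A₀))) :=
                  mul_le_mul_of_nonneg_left h7 (by positivity)
              _ = X * (1 + 1 / A₀) := by field_simp
          have h8 : ((3 : ℝ) / 2 ^ e) ^ γ * (X / |(a : ℝ)|) ^ γ / (1 + 1 / A₀) ^ γ
              ≤ (X / |(child e a : ℝ)|) ^ γ := by
            rw [← Real.mul_rpow (by positivity) (by positivity), ← Real.div_rpow (by positivity) (by positivity)]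
            exact Real.rpow_le_rpow (by positivity) h6 hγ0.le
          have h9 : ((3 : ℝ) / 2 ^ e) ^ γ * (X / |(a : ℝ)|) ^ γ / κ
              ≤ ((3 : ℝ) / 2 ^ e) ^ γ * (X / |(a : ℝ)|) ^ γ / (1 + 1 / A₀) ^ γ :=
            div_le_div_of_nonneg_left (by positivity) (by positivity) hκ
          have hwc := (hw _ hc3).1
          calc ((3 : ℝ) / 2 ^ e) ^ γ * w (child e a) * (1 / (B * 2 ^ E) * ((X / |(a : ℝ)|) ^ γ / κ))
              = 1 / (B * 2 ^ E) * (w (child e a) * (((3 : ℝ) / 2 ^ e) ^ γ * (X / |(a : ℝ)|) ^ γ / κ)) := by ring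
            _ ≤ 1 / (B * 2 ^ E) * (w (child e a) * (X / |(child e a : ℝ)|) ^ γ) := by
              refine mul_le_mul_of_nonneg_left ?_ (by positivity)
              exact mul_le_mul_of_nonneg_left (h9.trans h8) (by linarith)
        · simp
      have hκ0 : 0 < κ := lt_of_lt_of_le (by positivity) hκ
      have hsum := Finset.sum_le_sum hchild
      rw [← Finset.sum_mul] at hsum
      have h10 : (∑ e ∈ Finset.Icc 1 E, ((if valid e a then (DD (child e a) X).card else 0 : ℕ) : ℝ))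
          ≤ ((DD a X).card : ℝ) := by
        rw [← Nat.cast_sum]
        exact Nat.cast_le.2 (sum_children_le hap E)
      have h11 := hsum.trans h10
      refine le_trans ?_ h11
      have h12 := hL a ha
      calc 1 / (B * 2 ^ E) * (w a * (X / |(a : ℝ)|) ^ γ)
          = (κ * w a) * (1 / (B * 2 ^ E) * ((X / |(a : ℝ)|) ^ γ / κ)) := by field_simp
        _ ≤ L E γ w a * (1 / (B * 2 ^ E) * ((X / |(a : ℝ)|) ^ γ / κ)) :=
            mul_le_mul_of_nonneg_right h12 (by positivity)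

/-! ### Deep nodes exist -/

lemma exists_far {a : ℤ} (ha : a % 3 = 2) (hap : Aper a) (T : ℕ) :
    ∃ b : ℤ, b % 3 = 2 ∧ Aper b ∧ ∃ k, T ≤ k ∧ C^[k] b = a := by
  induction T with
  | zero => exact ⟨a, ha, hap, 0, le_rfl, rfl⟩
  | succ T ih =>
    obtain ⟨b, hb, hbp, k, hk, hk2⟩ := ih
    obtain ⟨e, -, he, -, -, -, -, hv, -⟩ := two_valid hb
    refine ⟨child e b, valid_child hv, hbp.child he hv, k + (e + 1), by omega, ?_⟩
    rw [Function.iterate_add_apply, C_iter_child_full he hv, hk2]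

lemma exists_deep {a : ℤ} (ha : a % 3 = 2) (hap : Aper a) (A₀ : ℝ) :
    ∃ b : ℤ, b % 3 = 2 ∧ Aper b ∧ Deep A₀ b ∧ ∃ k, C^[k] b = a := by
  classical
  set F := DD a A₀ with hF
  have hex : ∀ n : ℤ, ∃ k : ℕ, n ∈ F → C^[k] n = a := by
    intro n
    by_cases h : n ∈ F
    · obtain ⟨-, k, hk⟩ := mem_DD.1 h
      exact ⟨k, fun _ => hk⟩
    · exact ⟨0, fun h' => absurd h' h⟩
  choose T hT using hex
  obtain ⟨b, hb, hbp, k, hk, hkb⟩ := exists_far ha hap (F.sup T + 1)
  refine ⟨b, hb, hbp, ?_, k, hkb⟩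
  intro n _ hn
  obtain ⟨j, hj⟩ := hn
  by_contra hlt
  push Not at hlt
  have h1 : C^[k + j] n = a := by rw [Function.iterate_add_apply, hj, hkb]
  have h2 : n ∈ F := mem_DD.2 ⟨hlt.le, k + j, h1⟩
  have h3 := hit_unique hap h1 (hT n h2)
  have h4 : T n ≤ F.sup T := Finset.le_sup h2
  omega

/-- (T1) the counting theorem -/
theorem count_of_good {γ γ' : ℝ} (hγ' : 0 < γ') (hlt : γ' < γ) (hγ : γ ≤ 1) (h : Good γ)
    (a : ℤ) (ha : ¬ (3 : ℤ) ∣ a) :
    ∃ c : ℝ, 0 < c ∧ ∀ x : ℝ, |(a : ℝ)| ≤ x →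
      c * x ^ γ' ≤ ({n : ℤ | |(n : ℝ)| ≤ x ∧ ∃ k : ℕ, C^[k] n = a}.ncard : ℝ) := by
  classical
  obtain ⟨E, B, κ, w, hκ, hw, hL⟩ := h.slack hγ' hlt hγ
  have hγ'1 : γ' ≤ 1 := hlt.le.trans hγ
  have hB : 1 ≤ B := by have := hw 2 (by norm_num); linarith
  -- the threshold
  obtain ⟨A₀, hA₀, hA₀κ⟩ : ∃ A₀ : ℝ, 0 < A₀ ∧ (1 + 1 / A₀) ^ γ' ≤ κ := by
    refine ⟨1 / (κ - 1), by have : 0 < κ - 1 := by linarith
                            positivity, ?_⟩
    rw [one_div_one_div, show 1 + (κ - 1) = κ by ring]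
    calc κ ^ γ' ≤ κ ^ (1 : ℝ) := Real.rpow_le_rpow_of_exponent_le hκ.le hγ'1
      _ = κ := Real.rpow_one _
  -- a point `2 mod 3` above `a`
  obtain ⟨y, hy, k₀, hk₀⟩ : ∃ y : ℤ, y % 3 = 2 ∧ ∃ k, C^[k] y = a := by
    have : a % 3 = 1 ∨ a % 3 = 2 := by omega
    rcases this with h1 | h1
    · refine ⟨2 * a, by omega, 1, ?_⟩
      rw [Function.iterate_one, C_even (by omega)]; omega
    · exact ⟨a, h1, 0, rfl⟩
  obtain ⟨e, he, hv, hap⟩ := exists_aper_child hy
  obtain ⟨b, hb, hbp, hbd, k₁, hk₁⟩ := exists_deep (valid_child hv) hap A₀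
  have hreach : ∀ n : ℤ, (∃ k, C^[k] n = b) → ∃ k, C^[k] n = a := by
    rintro n ⟨k, hk⟩
    refine ⟨k₀ + (e + 1) + k₁ + k, ?_⟩
    rw [Function.iterate_add_apply, hk, Function.iterate_add_apply, hk₁, Function.iterate_add_apply,
      C_iter_child_full he hv, hk₀]
  have hb1 := one_le_abs_of_mod hb
  have hb0 : 0 < |(b : ℝ)| := by linarith
  have ha1 : (1 : ℝ) ≤ |(a : ℝ)| := by
    have h : 1 ≤ |a| := Int.one_le_abs (by rintro rfl; exact ha (dvd_zero 3))
    exact_mod_cast h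
  have hcount : ∀ x : ℝ, ({n : ℤ | |(n : ℝ)| ≤ x ∧ ∃ k : ℕ, C^[k] n = a}.ncard : ℝ)
      = ((DD a x).card : ℝ) := by
    intro x
    rw [← Set.ncard_coe_finset]
    congr 2
    ext n
    rw [Finset.mem_coe, mem_DD]
    rfl
  have hBE : 0 < B * 2 ^ E := by positivity
  refine ⟨1 / (B * 2 ^ E) * (1 / |(b : ℝ)| ^ γ'), by positivity, fun x hx => ?_⟩
  rw [hcount]
  have hx0 : 0 < x := by linarith
  have hsplit : 1 / (B * 2 ^ E) * (1 / |(b : ℝ)| ^ γ') * x ^ γ'
      = 1 / (B * 2 ^ E) * (1 * (x / |(b : ℝ)|) ^ γ') := by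
    rw [Real.div_rpow hx0.le hb0.le]; ring
  rw [hsplit]
  by_cases hxb : |(b : ℝ)| ≤ x
  · have h1 := count_deep hγ' hγ'1 hA₀ hA₀κ hw hL hB x (DD b x).card b hb hbp hbd hxb le_rfl
    have h2 : ((DD b x).card : ℝ) ≤ (DD a x).card := by
      refine Nat.cast_le.2 (Finset.card_le_card fun n hn => ?_)
      rw [mem_DD] at hn ⊢
      exact ⟨hn.1, hreach n hn.2⟩
    refine le_trans ?_ (h1.trans h2)
    refine mul_le_mul_of_nonneg_left ?_ (by positivity)
    exact mul_le_mul_of_nonneg_right (hw b hb).1 (by positivity)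
  · push Not at hxb
    have h1 : a ∈ DD a x := mem_DD.2 ⟨hx, 0, rfl⟩
    have h2 : 1 ≤ (DD a x).card := Finset.card_pos.2 ⟨a, h1⟩
    have h3 : (1 : ℝ) ≤ (DD a x).card := by exact_mod_cast h2
    refine le_trans ?_ h3
    have h4 : (x / |(b : ℝ)|) ^ γ' ≤ 1 := by
      refine Real.rpow_le_one (by positivity) ?_ hγ'.le
      rw [div_le_one hb0]; exact hxb.le
    have h5 : 1 / (B * 2 ^ E) ≤ 1 := by
      rw [div_le_one hBE]
      have h6 : (1 : ℝ) ≤ 2 ^ E := one_le_pow₀ (by norm_num)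
      nlinarith
    have h7 : (0 : ℝ) < 1 / (B * 2 ^ E) := by positivity
    calc 1 / (B * 2 ^ E) * (1 * (x / |(b : ℝ)|) ^ γ') ≤ 1 * 1 := by
          rw [one_mul]
          exact mul_le_mul h5 h4 (by positivity) zero_le_one
      _ = 1 := one_mul 1

end CollatzExp
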