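import Pool.Agent.CollatzExp.T3a

set_option autoImplicit false

/-!
(T2) The power trick: a good exponent has a potential with a multiplicative slack at every
smaller exponent.
-/

namespace CollatzExp

theorem Good.slack {γ γ' : ℝ} (hγ' : 0 < γ') (hlt : γ' < γ) (hγ : γ ≤ 1) (h : Good γ) :
    ∃ (E : ℕ) (B κ : ℝ) (w : ℤ → ℝ), 1 < κ ∧ (∀ a : ℤ, a % 3 = 2 → 1 ≤ w a ∧ w a ≤ B) ∧
      ∀ a : ℤ, a % 3 = 2 → κ * w a ≤ L E γ' w a := by
  obtain ⟨E₀, B, w, hw, hL⟩ := h
  have hγ0 : 0 < γ := hγ'.trans hlt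
  set E := max E₀ 6 with hE
  have hE6 : 6 ≤ E := le_max_right _ _
  have hw0 : ∀ a : ℤ, a % 3 = 2 → 0 ≤ w a := fun a ha => zero_le_one.trans (hw a ha).1
  have hL' : ∀ a : ℤ, a % 3 = 2 → w a ≤ L E γ w a := fun a ha =>
    (hL a ha).trans (L_mono_E (le_max_left _ _) hw0 a)
  have hB : 1 ≤ B := by have := hw 2 (by norm_num); linarith
  set θ := γ' / γ with hθ
  have hθ0 : 0 < θ := by positivity
  have hθ1 : θ < 1 := by rw [hθ, div_lt_one hγ0]; exact hlt
  have hγθ : γ * θ = γ' := by rw [hθ]; field_simp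
  set QB : ℝ := ∑ e ∈ Finset.Icc 1 E, ((3 : ℝ) / 2 ^ e) ^ γ * B with hQB
  have hc := c₁_pos γ
  have hQle : ∀ a : ℤ, L E γ w a ≤ QB := by
    intro a
    unfold L
    refine Finset.sum_le_sum fun e _ => ?_
    split_ifs with h
    · exact mul_le_mul_of_nonneg_left (hw _ (valid_child h)).2 (by positivity)
    · positivity
  have hQge : ∀ a : ℤ, a % 3 = 2 → 2 * c₁ γ ≤ L E γ w a := by
    intro a ha
    obtain ⟨e₁, e₂, h1, h2, h3, h4, h5, h6, h7⟩ := two_valid ha
    have h8 := L_ge_two_terms (γ := γ) hw0 h1 (h2.trans hE6) h6 h3 (h4.trans hE6) h7 (Ne.symm h5)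
    have h9 := mul_le_mul (c₁_le hγ0.le h2) (hw _ (valid_child h6)).1 zero_le_one (by positivity)
    have h10 := mul_le_mul (c₁_le hγ0.le h4) (hw _ (valid_child h7)).1 zero_le_one (by positivity)
    linarith
  have hQBc : 2 * c₁ γ ≤ QB := (hQge 2 (by norm_num)).trans (hQle 2)
  have hQB0 : 0 < QB := by linarith
  set κ : ℝ := (1 - c₁ γ / QB) ^ (θ - 1) with hκ
  have hfrac0 : 0 < c₁ γ / QB := by positivity
  have hfrac1 : c₁ γ / QB < 1 := by rw [div_lt_one hQB0]; linarith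
  refine ⟨E, B ^ θ, κ, fun a => w a ^ θ, ?_, ?_, ?_⟩
  · exact Real.one_lt_rpow_of_pos_of_lt_one_of_neg (by linarith) (by linarith) (by linarith)
  · intro a ha
    obtain ⟨h1, h2⟩ := hw a ha
    exact ⟨Real.one_le_rpow h1 hθ0.le, Real.rpow_le_rpow (by linarith) h2 hθ0.le⟩
  · intro a ha
    dsimp only
    set Q := L E γ w a with hQ
    have hQ1 : w a ≤ Q := hL' a ha
    have hQ2 := hQge a ha
    have hQ3 := hQle a
    rw [← hQ] at hQ2 hQ3
    have hQ0 : 0 < Q := by linarith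
    have hQc : 0 < Q - c₁ γ := by linarith
    -- each term is at most `Q - c₁`
    have hterm : ∀ e ∈ Finset.Icc 1 E, (if valid e a then ((3 : ℝ) / 2 ^ e) ^ γ * w (child e a) else 0)
          * (Q - c₁ γ) ^ (θ - 1)
        ≤ if valid e a then ((3 : ℝ) / 2 ^ e) ^ γ' * w (child e a) ^ θ else 0 := by
      intro e he
      rw [Finset.mem_Icc] at he
      split_ifs with h
      · obtain ⟨e', h1', h6', hne, h'⟩ := other_valid ha e
        have h1 := L_ge_two_terms (γ := γ) hw0 he.1 he.2 h h1' (h6'.trans hE6) h' hne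
        have h2 := mul_le_mul (c₁_le hγ0.le h6') (hw _ (valid_child h')).1 zero_le_one (by positivity)
        rw [mul_one] at h2
        set x := ((3 : ℝ) / 2 ^ e) ^ γ * w (child e a) with hx
        have hwc : 0 < w (child e a) := by have := (hw _ (valid_child h)).1; linarith
        have hx0 : 0 < x := by positivity
        have hx1 : x ≤ Q - c₁ γ := by linarith
        have h3 : ((3 : ℝ) / 2 ^ e) ^ γ' * w (child e a) ^ θ = x ^ θ := by
          rw [hx, Real.mul_rpow (by positivity) hwc.le, ← Real.rpow_mul (by positivity), hγθ]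
        rw [h3]
        have h4 : (Q - c₁ γ) ^ (θ - 1) ≤ x ^ (θ - 1) :=
          Real.rpow_le_rpow_of_nonpos hx0 hx1 (by linarith)
        calc x * (Q - c₁ γ) ^ (θ - 1) ≤ x * x ^ (θ - 1) := mul_le_mul_of_nonneg_left h4 hx0.le
          _ = x ^ θ := by
            rw [← Real.rpow_one_add' hx0.le (by linarith)]
            congr 1; ring
      · simp
    have h5 : Q * (Q - c₁ γ) ^ (θ - 1) ≤ L E γ' (fun a => w a ^ θ) a := by
      have h6 := Finset.sum_le_sum hterm
      rw [← Finset.sum_mul] at h6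
      exact h6
    refine le_trans ?_ h5
    have h7 : Q - c₁ γ ≤ Q * (1 - c₁ γ / QB) := by
      have h71 : c₁ γ / QB * Q ≤ c₁ γ := by
        rw [div_mul_eq_mul_div, div_le_iff₀ hQB0]
        exact mul_le_mul_of_nonneg_left hQ3 hc.le
      linarith
    have h8 : (Q * (1 - c₁ γ / QB)) ^ (θ - 1) ≤ (Q - c₁ γ) ^ (θ - 1) :=
      Real.rpow_le_rpow_of_nonpos hQc h7 (by linarith)
    calc κ * w a ^ θ ≤ κ * Q ^ θ := by
          refine mul_le_mul_of_nonneg_left (Real.rpow_le_rpow (hw0 a ha) hQ1 hθ0.le) ?_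
          exact Real.rpow_nonneg (by linarith) _
      _ = Q * (Q * (1 - c₁ γ / QB)) ^ (θ - 1) := by
          rw [Real.mul_rpow hQ0.le (by linarith), ← hκ, ← mul_assoc,
            ← Real.rpow_one_add' hQ0.le (by linarith), show 1 + (θ - 1) = θ by ring, mul_comm]
      _ ≤ Q * (Q - c₁ γ) ^ (θ - 1) := mul_le_mul_of_nonneg_left h8 hQ0.le

end CollatzExp
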