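import Pool.Agent.CollatzExp.T3c

set_option autoImplicit false

/-!
Bootstrap theorem, part d: assembly.
-/

namespace CollatzExp

/-- the statement of (T2) -/
def SlackStmt : Prop := ∀ {γ γ' : ℝ}, 0 < γ' → γ' < γ → γ ≤ 1 → Good γ →
    ∃ (E : ℕ) (B κ : ℝ) (w : ℤ → ℝ), 1 < κ ∧ (∀ a : ℤ, a % 3 = 2 → 1 ≤ w a ∧ w a ≤ B) ∧
      ∀ a : ℤ, a % 3 = 2 → κ * w a ≤ L E γ' w a

open Filter Topology in
theorem good_of_cert_aux (hslack : SlackStmt) {ga gb θ C₀ : ℝ} {s k E : ℕ} {w g : ℤ → ℝ} (h0 : 0 < ga)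
    (hb : gb ≤ 1) (hθ0 : 0 < θ) (hθ : θ < 1) (hk : 1 ≤ k)
    (hc : ∀ γ ∈ Set.Icc ga gb, IsCert γ θ s k E w g)
    (hfew : ∀ γ ∈ Set.Icc ga gb, FewBad γ θ s k E w C₀) (hab : ga ≤ gb) (hg : Good ga) : Good gb := by
  -- choice of `A`
  obtain ⟨A, hA2, hA⟩ : ∃ A : ℝ, A ^ s * θ < 1 ∧ 1 < A := by
    have h1 : Tendsto (fun A : ℝ => A ^ s * θ) (𝓝[>] 1) (𝓝 (1 ^ s * θ)) :=
      (Continuous.tendsto (by fun_prop) 1).mono_left nhdsWithin_le_nhds
    rw [one_pow, one_mul] at h1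
    exact ((h1.eventually (gt_mem_nhds hθ)).and self_mem_nhdsWithin).exists
  have hA0 : 0 < A := by linarith
  obtain ⟨δ, ⟨⟨hδ1, hδ2⟩, hδ3⟩, hδ0⟩ : ∃ δ : ℝ, (((3 : ℝ) ^ (2 * δ) < A ∧ (3 : ℝ) ^ (2 * δ) * (A ^ s * θ) < 1) ∧
      δ < ga) ∧ 0 < δ := by
    have h1 : Tendsto (fun δ : ℝ => (3 : ℝ) ^ (2 * δ)) (𝓝[>] 0) (𝓝 ((3 : ℝ) ^ ((2 : ℝ) * 0))) := by
      refine (Continuous.tendsto ?_ 0).mono_left nhdsWithin_le_nhds
      exact Continuous.rpow continuous_const (by fun_prop) (fun _ => Or.inl (by norm_num))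
    rw [mul_zero, Real.rpow_zero] at h1
    have h2 := h1.mul_const (A ^ s * θ)
    rw [one_mul] at h2
    have h3 : Tendsto (fun δ : ℝ => δ) (𝓝[>] 0) (𝓝 0) := nhdsWithin_le_nhds
    exact ((((h1.eventually (gt_mem_nhds hA)).and (h2.eventually (gt_mem_nhds hA2))).and
      (h3.eventually (gt_mem_nhds h0))).and self_mem_nhdsWithin).exists
  have hstep : ∀ γ γ₂ : ℝ, ga ≤ γ → γ ≤ γ₂ → γ₂ ≤ gb → γ₂ ≤ γ + δ → Good γ → Good γ₂ := by
    intro γ γ₂ h1 h2 h3 h4 hgood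
    have hle : (3 : ℝ) ^ (γ₂ - (γ - δ)) ≤ (3 : ℝ) ^ (2 * δ) :=
      Real.rpow_le_rpow_of_exponent_le (by norm_num) (by linarith)
    have hcert := hc γ₂ ⟨h1.trans h2, h3⟩
    have hAs : 0 < A ^ s * θ := by positivity
    refine step_aux (A := A) (γ₀ := γ - δ) (γ := γ₂) (θ := θ) (s := s) (w := w) (C₀ := C₀)
      hcert.hE hk (by linarith) (by linarith)
      (h3.trans hb) hθ0 hA (lt_of_le_of_lt hle hδ1) ?_ hcert.w_per hcert.w_pos
      (hfew γ₂ ⟨h1.trans h2, h3⟩) (hslack (by linarith) (by linarith) (by linarith) hgood)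
    calc (3 : ℝ) ^ (γ₂ - (γ - δ)) * (A ^ s * θ) ≤ (3 : ℝ) ^ (2 * δ) * (A ^ s * θ) :=
          mul_le_mul_of_nonneg_right hle hAs.le
      _ < 1 := hδ2
  have hind : ∀ n : ℕ, ∀ γ : ℝ, ga ≤ γ → γ ≤ gb → γ ≤ ga + n * δ → Good γ := by
    intro n
    induction n with
    | zero =>
      intro γ h1 _ h3
      have : γ = ga := by
        rw [Nat.cast_zero, zero_mul, add_zero] at h3
        linarith
      rw [this]; exact hg
    | succ n ih =>
      intro γ h1 h2 h3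
      have h4 : Good (max ga (γ - δ)) := by
        refine ih _ (le_max_left _ _) (max_le hab (by linarith)) (max_le ?_ ?_)
        · have : (0 : ℝ) ≤ n * δ := by positivity
          linarith
        · push_cast at h3; linarith
      refine hstep _ γ (le_max_left _ _) (max_le h1 (by linarith)) h2 ?_ h4
      have := le_max_right ga (γ - δ)
      linarith
  obtain ⟨n, hn⟩ := exists_nat_ge ((gb - ga) / δ)
  rw [div_le_iff₀ hδ0] at hn
  exact hind n gb hab le_rfl (by linarith)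

end CollatzExp
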