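import Pool.Agent.CollatzExp.T3b
import Pool.Agent.CollatzExp.T3d

set_option autoImplicit false

/-!
Bootstrap theorem, part e: the bootstrap theorem, relative to (T2).
-/

namespace CollatzExp

theorem good_of_cert_of_slack (hslack : SlackStmt) {ga gb θ : ℝ} {s k E : ℕ} {w g : ℤ → ℝ}
    (h0 : 0 < ga) (hab : ga ≤ gb) (hb : gb ≤ 1) (hθ0 : 0 < θ) (hθ : θ < 1) (hk : 1 ≤ k)
    (hc : ∀ γ ∈ Set.Icc ga gb, IsCert γ θ s k E w g) (hg : Good ga) : Good gb := by
  have hcert := hc ga ⟨le_rfl, hab⟩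
  obtain ⟨c, c', hc0, hcb⟩ := exists_bounds hk (w := fun a => w a * g a)
    (fun a => by simp only [hcert.w_per, hcert.g_per])
    (fun a ha => mul_pos (hcert.w_pos a ha) (hcert.g_pos a ha))
  exact good_of_cert_aux hslack h0 hb hθ0 hθ hk hc
    (fun γ hγ => few_bad hk hθ0.le (hc γ hγ) hc0 (fun a ha => (hcb a ha).1)) hab hg

end CollatzExp
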