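import Pool.Agent.CollatzExp.T2
import Pool.Agent.CollatzExp.T3e

set_option autoImplicit false

/-!
(T3) The bootstrap theorem.
-/

namespace CollatzExp

theorem good_of_cert {ga gb θ : ℝ} {s k E : ℕ} {w g : ℤ → ℝ} (h0 : 0 < ga) (hab : ga ≤ gb)
    (hb : gb ≤ 1) (hθ0 : 0 < θ) (hθ : θ < 1) (_hs : 1 ≤ s) (hk : 1 ≤ k)
    (hc : ∀ γ ∈ Set.Icc ga gb, IsCert γ θ s k E w g) (hg : Good ga) : Good gb :=
  good_of_cert_of_slack (fun h1 h2 h3 h4 => Good.slack h1 h2 h3 h4) h0 hab hb hθ0 hθ hk hc hg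

end CollatzExp
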