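import Pool.Agent.CollatzExp.Defs

set_option autoImplicit false

/-!
Bootstrap theorem, part a: basic facts on moves, monotonicity of the transfer operator,
the adversarial root, the finite set of descendants of a root and its properties.
-/

namespace CollatzExp

/-! ### Moves -/

lemma eps_odd {e : ℕ} (h : e % 2 = 1) : eps e = 1 := by simp [eps, h]

lemma eps_even {e : ℕ} (h : e % 2 = 0) : eps e = 2 := by simp [eps, h]

lemma eps_cases (e : ℕ) : eps e = 1 ∨ eps e = 2 := by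
  unfold eps; split <;> simp

lemma eps_pos (e : ℕ) : 0 < eps e := by rcases eps_cases e with h | h <;> omega

lemma three_mul_child {e : ℕ} {a : ℤ} (h : valid e a) : 3 * child e a = 2 ^ e * a - eps e := by
  unfold valid at h; unfold child; omega

lemma valid_child {e : ℕ} {a : ℤ} (h : valid e a) : child e a % 3 = 2 := by
  unfold valid at h; unfold child; omega

lemma two_valid {a : ℤ} (ha : a % 3 = 2) :
    ∃ e₁ e₂ : ℕ, 1 ≤ e₁ ∧ e₁ ≤ 6 ∧ 1 ≤ e₂ ∧ e₂ ≤ 6 ∧ e₁ ≠ e₂ ∧ valid e₁ a ∧ valid e₂ a := by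
  have h9 : a % 9 = 2 ∨ a % 9 = 5 ∨ a % 9 = 8 := by omega
  rcases h9 with h | h | h
  · refine ⟨2, 3, by norm_num, by norm_num, by norm_num, by norm_num, by norm_num, ?_, ?_⟩ <;>
      · simp only [valid, eps]; norm_num; omega
  · refine ⟨4, 5, by norm_num, by norm_num, by norm_num, by norm_num, by norm_num, ?_, ?_⟩ <;>
      · simp only [valid, eps]; norm_num; omega
  · refine ⟨1, 6, by norm_num, by norm_num, by norm_num, by norm_num, by norm_num, ?_, ?_⟩ <;>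
      · simp only [valid, eps]; norm_num; omega

lemma other_valid {a : ℤ} (ha : a % 3 = 2) (e : ℕ) :
    ∃ e' : ℕ, 1 ≤ e' ∧ e' ≤ 6 ∧ e' ≠ e ∧ valid e' a := by
  obtain ⟨e₁, e₂, h1, h2, h3, h4, h5, h6, h7⟩ := two_valid ha
  by_cases h : e₁ = e
  · exact ⟨e₂, h3, h4, fun h' => h5 (h.trans h'.symm), h7⟩
  · exact ⟨e₁, h1, h2, h, h6⟩

/-! ### The operator -/

lemma L_nonneg {E : ℕ} {γ : ℝ} {w : ℤ → ℝ} (hw : ∀ a : ℤ, a % 3 = 2 → 0 ≤ w a) (a : ℤ) :
    0 ≤ L E γ w a := by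
  unfold L
  refine Finset.sum_nonneg fun e _ => ?_
  split_ifs with h
  · exact mul_nonneg (by positivity) (hw _ (valid_child h))
  · exact le_rfl

lemma L_mono {E : ℕ} {γ : ℝ} {w w' : ℤ → ℝ} (hw : ∀ a : ℤ, a % 3 = 2 → w a ≤ w' a) (a : ℤ) :
    L E γ w a ≤ L E γ w' a := by
  unfold L
  refine Finset.sum_le_sum fun e _ => ?_
  split_ifs with h
  · exact mul_le_mul_of_nonneg_left (hw _ (valid_child h)) (by positivity)
  · exact le_rfl

lemma L_mono_E {E E' : ℕ} (hE : E ≤ E') {γ : ℝ} {w : ℤ → ℝ} (hw : ∀ a : ℤ, a % 3 = 2 → 0 ≤ w a)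
    (a : ℤ) : L E γ w a ≤ L E' γ w a := by
  unfold L
  refine Finset.sum_le_sum_of_subset_of_nonneg (Finset.Icc_subset_Icc le_rfl hE) fun e _ _ => ?_
  split_ifs with h
  · exact mul_nonneg (by positivity) (hw _ (valid_child h))
  · exact le_rfl

lemma L_smul {E : ℕ} {γ : ℝ} (c : ℝ) (w : ℤ → ℝ) (a : ℤ) :
    L E γ (fun b => c * w b) a = c * L E γ w a := by
  unfold L
  rw [Finset.mul_sum]
  refine Finset.sum_congr rfl fun e _ => ?_
  split_ifs <;> ring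

lemma L_ge_term {E : ℕ} {γ : ℝ} {w : ℤ → ℝ} (hw : ∀ a : ℤ, a % 3 = 2 → 0 ≤ w a) {a : ℤ}
    {e : ℕ} (h1 : 1 ≤ e) (h2 : e ≤ E) (h : valid e a) :
    ((3 : ℝ) / 2 ^ e) ^ γ * w (child e a) ≤ L E γ w a := by
  unfold L
  have := Finset.single_le_sum (f := fun e => if valid e a then ((3 : ℝ) / 2 ^ e) ^ γ * w (child e a) else 0)
    (s := Finset.Icc 1 E) (fun e _ => by
      split_ifs with h
      · exact mul_nonneg (by positivity) (hw _ (valid_child h))
      · exact le_rfl) (Finset.mem_Icc.2 ⟨h1, h2⟩)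
  simpa [h] using this

lemma L_ge_two_terms {E : ℕ} {γ : ℝ} {w : ℤ → ℝ} (hw : ∀ a : ℤ, a % 3 = 2 → 0 ≤ w a) {a : ℤ}
    {e e' : ℕ} (h1 : 1 ≤ e) (h2 : e ≤ E) (h : valid e a) (h1' : 1 ≤ e') (h2' : e' ≤ E)
    (h' : valid e' a) (hne : e' ≠ e) :
    ((3 : ℝ) / 2 ^ e) ^ γ * w (child e a) + ((3 : ℝ) / 2 ^ e') ^ γ * w (child e' a) ≤ L E γ w a := by
  unfold L
  have hsub : ({e, e'} : Finset ℕ) ⊆ Finset.Icc 1 E := by
    intro x hx
    simp only [Finset.mem_insert, Finset.mem_singleton] at hx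
    rcases hx with rfl | rfl
    · exact Finset.mem_Icc.2 ⟨h1, h2⟩
    · exact Finset.mem_Icc.2 ⟨h1', h2'⟩
  have := Finset.sum_le_sum_of_subset_of_nonneg
    (f := fun e => if valid e a then ((3 : ℝ) / 2 ^ e) ^ γ * w (child e a) else 0) hsub
    (fun e _ _ => by
      split_ifs with h
      · exact mul_nonneg (by positivity) (hw _ (valid_child h))
      · exact le_rfl)
  rw [Finset.sum_pair (Ne.symm hne)] at this
  simpa [h, h'] using this

lemma iter_mono {E : ℕ} {γ : ℝ} (n : ℕ) {w w' : ℤ → ℝ} (hw : ∀ a : ℤ, a % 3 = 2 → w a ≤ w' a) :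
    ∀ a : ℤ, a % 3 = 2 → (L E γ)^[n] w a ≤ (L E γ)^[n] w' a := by
  induction n generalizing w w' with
  | zero => exact hw
  | succ n ih =>
    simp only [Function.iterate_succ_apply]
    exact ih fun a _ => L_mono hw a

lemma iter_nonneg {E : ℕ} {γ : ℝ} (n : ℕ) {w : ℤ → ℝ} (hw : ∀ a : ℤ, a % 3 = 2 → 0 ≤ w a) :
    ∀ a : ℤ, a % 3 = 2 → 0 ≤ (L E γ)^[n] w a := by
  induction n generalizing w with
  | zero => exact hw
  | succ n ih =>
    simp only [Function.iterate_succ_apply]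
    exact ih fun a _ => L_nonneg hw a

lemma iter_mono_E {E E' : ℕ} (hE : E ≤ E') {γ : ℝ} (n : ℕ) {w : ℤ → ℝ}
    (hw : ∀ a : ℤ, a % 3 = 2 → 0 ≤ w a) :
    ∀ a : ℤ, a % 3 = 2 → (L E γ)^[n] w a ≤ (L E' γ)^[n] w a := by
  induction n generalizing w with
  | zero => exact fun a _ => le_rfl
  | succ n ih =>
    intro a ha
    simp only [Function.iterate_succ_apply]
    calc (L E γ)^[n] (L E γ w) a ≤ (L E' γ)^[n] (L E γ w) a := ih (fun a _ => L_nonneg hw a) a ha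
      _ ≤ (L E' γ)^[n] (L E' γ w) a := iter_mono n (fun a _ => L_mono_E hE hw a) a ha

lemma iter_smul {E : ℕ} {γ : ℝ} (c : ℝ) (n : ℕ) (w : ℤ → ℝ) (a : ℤ) :
    (L E γ)^[n] (fun b => c * w b) a = c * (L E γ)^[n] w a := by
  induction n generalizing w with
  | zero => rfl
  | succ n ih =>
    simp only [Function.iterate_succ_apply]
    have : L E γ (fun b => c * w b) = fun b => c * L E γ w b := by
      funext b; exact L_smul c w b
    rw [this]
    exact ih _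

/-! ### The truncated value functions and the adversarial root -/

/-- `vv 0 = 1`, `vv (M+1) = max 1 (L (vv M))`. -/
noncomputable def vv (E : ℕ) (γ : ℝ) : ℕ → ℤ → ℝ
  | 0 => fun _ => 1
  | M + 1 => fun a => max 1 (L E γ (vv E γ M) a)

lemma one_le_vv (E : ℕ) (γ : ℝ) (M : ℕ) (a : ℤ) : 1 ≤ vv E γ M a := by
  cases M with
  | zero => exact le_rfl
  | succ M => exact le_max_left _ _

lemma L_vv_le (E : ℕ) (γ : ℝ) (M : ℕ) (a : ℤ) : L E γ (vv E γ M) a ≤ vv E γ (M + 1) a :=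
  le_max_right _ _

lemma vv_mono (E : ℕ) (γ : ℝ) (M : ℕ) : ∀ a : ℤ, vv E γ M a ≤ vv E γ (M + 1) a := by
  induction M with
  | zero => exact fun a => le_max_left _ _
  | succ M ih =>
    intro a
    show max 1 (L E γ (vv E γ M) a) ≤ max 1 (L E γ (vv E γ (M + 1)) a)
    exact max_le_max le_rfl (L_mono (fun a _ => ih a) a)

lemma vv_bdd (E : ℕ) (γ : ℝ) (M : ℕ) : ∃ B : ℝ, ∀ a : ℤ, vv E γ M a ≤ B := by
  induction M with
  | zero => exact ⟨1, fun a => le_rfl⟩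
  | succ M ih =>
    obtain ⟨B, hB⟩ := ih
    have hB0 : 0 ≤ B := le_trans (le_trans zero_le_one (one_le_vv E γ M 0)) (hB 0)
    refine ⟨max 1 (∑ e ∈ Finset.Icc 1 E, ((3 : ℝ) / 2 ^ e) ^ γ * B), fun a => ?_⟩
    show max 1 (L E γ (vv E γ M) a) ≤ _
    refine max_le_max le_rfl ?_
    unfold L
    refine Finset.sum_le_sum fun e _ => ?_
    split_ifs with h
    · exact mul_le_mul_of_nonneg_left (hB _) (by positivity)
    · positivity

/-- If `γ` is not good, there are roots with bounded truncated value. -/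
lemma exists_root {γ : ℝ} (hγ : ¬ Good γ) (E M : ℕ) :
    ∃ a : ℤ, a % 3 = 2 ∧ vv E γ (M + 1) a ≤ 1 := by
  by_contra hcon
  push Not at hcon
  apply hγ
  obtain ⟨B, hB⟩ := vv_bdd E γ (M + 1)
  refine ⟨E, B, vv E γ (M + 1), fun a _ => ⟨one_le_vv _ _ _ _, hB a⟩, fun a ha => ?_⟩
  have h1 := hcon a ha
  have h2 : vv E γ (M + 1) a = max 1 (L E γ (vv E γ M) a) := rfl
  rw [h2] at h1 ⊢
  have h3 : 1 < L E γ (vv E γ M) a := by
    rcases lt_max_iff.1 h1 with h | h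
    · exact absurd h (lt_irrefl _)
    · exact h
  rw [max_eq_right h3.le]
  exact L_mono (fun a _ => vv_mono E γ M a) a

lemma iter_le_vv {E : ℕ} {γ : ℝ} (m M : ℕ) : ∀ a : ℤ, a % 3 = 2 →
    (L E γ)^[m] (vv E γ M) a ≤ vv E γ (M + m) a := by
  induction m generalizing M with
  | zero => exact fun a _ => le_rfl
  | succ m ih =>
    intro a ha
    rw [Function.iterate_succ_apply]
    calc (L E γ)^[m] (L E γ (vv E γ M)) a ≤ (L E γ)^[m] (vv E γ (M + 1)) a :=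
          iter_mono m (fun b _ => L_vv_le E γ M b) a ha
      _ ≤ vv E γ (M + 1 + m) a := ih (M + 1) a ha
      _ = vv E γ (M + (m + 1)) a := by rw [show M + 1 + m = M + (m + 1) by ring]

/-! ### Descendants -/

/-- The pairs `(J, b)` such that `b` is reached from the root `a` by `m` valid moves of total
exponent `J`. -/
def nodes (E : ℕ) (a : ℤ) : ℕ → Finset (ℕ × ℤ)
  | 0 => {(0, a)}
  | m + 1 => ((nodes E a m ×ˢ Finset.Icc 1 E).filter (fun p => valid p.2 p.1.2)).image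
      (fun p => (p.1.1 + p.2, child p.2 p.1.2))

lemma mem_nodes_succ {E : ℕ} {a : ℤ} {m : ℕ} {q : ℕ × ℤ} :
    q ∈ nodes E a (m + 1) ↔ ∃ p ∈ nodes E a m, ∃ e, 1 ≤ e ∧ e ≤ E ∧ valid e p.2 ∧
      q = (p.1 + e, child e p.2) := by
  simp only [nodes, Finset.mem_image, Finset.mem_filter, Finset.mem_product, Finset.mem_Icc]
  constructor
  · rintro ⟨⟨p, e⟩, ⟨⟨h1, h2, h3⟩, h4⟩, rfl⟩
    exact ⟨p, h1, e, h2, h3, h4, rfl⟩
  · rintro ⟨p, h1, e, h2, h3, h4, rfl⟩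
    exact ⟨(p, e), ⟨⟨h1, h2, h3⟩, h4⟩, rfl⟩

lemma nodes_mod {E : ℕ} {a : ℤ} (ha : a % 3 = 2) (m : ℕ) : ∀ p ∈ nodes E a m, p.2 % 3 = 2 := by
  cases m with
  | zero =>
    intro p hp
    simp only [nodes, Finset.mem_singleton] at hp
    rw [hp]; exact ha
  | succ m =>
    intro p hp
    obtain ⟨q, -, e, -, -, h, rfl⟩ := mem_nodes_succ.1 hp
    exact valid_child h

lemma nodes_le {E : ℕ} {a : ℤ} (m : ℕ) : ∀ p ∈ nodes E a m, p.1 ≤ E * m := by
  induction m with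
  | zero =>
    intro p hp
    simp only [nodes, Finset.mem_singleton] at hp
    rw [hp]; simp
  | succ m ih =>
    intro p hp
    obtain ⟨q, hq, e, -, h, -, rfl⟩ := mem_nodes_succ.1 hp
    have := ih q hq
    dsimp only
    rw [mul_add, mul_one]
    exact add_le_add this h

/-- The remainder `r = 2 ^ J * a - 3 ^ m * b`. -/
def rem (a : ℤ) (m : ℕ) (p : ℕ × ℤ) : ℤ := 2 ^ p.1 * a - 3 ^ m * p.2

lemma rem_succ {a : ℤ} {m : ℕ} {p : ℕ × ℤ} {e : ℕ} (h : valid e p.2) :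
    rem a (m + 1) (p.1 + e, child e p.2) = 2 ^ e * rem a m p + 3 ^ m * eps e := by
  unfold rem
  dsimp only
  have h3 := three_mul_child h
  rw [pow_succ, pow_add]
  linear_combination (-(3 : ℤ) ^ m) * h3

lemma rem_nonneg {E : ℕ} {a : ℤ} (m : ℕ) : ∀ p ∈ nodes E a m, 0 ≤ rem a m p := by
  induction m with
  | zero =>
    intro p hp
    simp only [nodes, Finset.mem_singleton] at hp
    rw [hp]; simp [rem]
  | succ m ih =>
    intro p hp
    obtain ⟨q, hq, e, -, -, h, rfl⟩ := mem_nodes_succ.1 hp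
    rw [rem_succ h]
    have := ih q hq
    have := eps_pos e
    positivity

lemma three_pow_mod_two (m : ℕ) : (3 : ℤ) ^ m % 2 = 1 := by
  induction m with
  | zero => rfl
  | succ m ih => rw [pow_succ]; omega

lemma rem_mod_four {E : ℕ} {a : ℤ} (m : ℕ) : ∀ p ∈ nodes E a (m + 1), rem a (m + 1) p % 4 ≠ 0 := by
  intro p hp
  obtain ⟨q, hq, e, h1, -, h, rfl⟩ := mem_nodes_succ.1 hp
  rw [rem_succ h]
  have h3 := three_pow_mod_two m
  rcases Nat.mod_two_eq_zero_or_one e with he | he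
  · rw [eps_even he]
    obtain ⟨f, rfl⟩ : ∃ f, e = f + 2 := ⟨e - 2, by omega⟩
    have : (2 : ℤ) ^ (f + 2) * rem a m q = 4 * (2 ^ f * rem a m q) := by ring
    rw [this]
    omega
  · rw [eps_odd he]
    obtain ⟨f, rfl⟩ : ∃ f, e = f + 1 := ⟨e - 1, by omega⟩
    have : (2 : ℤ) ^ (f + 1) * rem a m q = 2 * (2 ^ f * rem a m q) := by ring
    rw [this]
    omega

lemma nodes_inj_aux {E : ℕ} {a : ℤ} {m : ℕ} {p q : ℕ × ℤ} {e f : ℕ} (hp : p ∈ nodes E a m)
    (hq : q ∈ nodes E a m) (he1 : 1 ≤ e) (he : valid e p.2) (hf : valid f q.2)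
    (h : (p.1 + e, child e p.2) = (q.1 + f, child f q.2)) : ¬ e < f := by
  intro hlt
  cases m with
  | zero =>
    simp only [nodes, Finset.mem_singleton] at hp hq
    rw [hp, hq] at h
    simp only [Prod.mk.injEq] at h
    omega
  | succ m =>
    have hr : rem a (m + 2) (p.1 + e, child e p.2) = rem a (m + 2) (q.1 + f, child f q.2) := by rw [h]
    rw [rem_succ he, rem_succ hf] at hr
    have h4 := rem_mod_four m p hp
    have h3 := three_pow_mod_two (m + 1)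
    obtain ⟨e', rfl⟩ : ∃ g, e = g + 1 := ⟨e - 1, by omega⟩
    obtain ⟨f', rfl⟩ : ∃ g, f = g + 1 := ⟨f - 1, by omega⟩
    have h5 : (2 : ℤ) ^ (e' + 1) * rem a (m + 1) p = 2 * (2 ^ e' * rem a (m + 1) p) := by ring
    have h6 : (2 : ℤ) ^ (f' + 1) * rem a (m + 1) q = 2 * (2 ^ f' * rem a (m + 1) q) := by ring
    have heps : eps (e' + 1) = eps (f' + 1) := by
      rcases eps_cases (e' + 1) with h7 | h7 <;> rcases eps_cases (f' + 1) with h8 | h8 <;>
        rw [h7, h8] at hr ⊢ <;> rw [h5, h6] at hr <;> omega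
    have hpar : (e' + 1) % 2 = (f' + 1) % 2 := by
      unfold eps at heps
      split_ifs at heps with h7 h8 h8 <;> omega
    rw [heps] at hr
    have h7 : (2 : ℤ) ^ (e' + 1) * rem a (m + 1) p = 2 ^ (f' + 1) * rem a (m + 1) q := by linarith
    obtain ⟨d, rfl⟩ : ∃ d, f' = e' + 2 + d := ⟨f' - e' - 2, by omega⟩
    have h8 : (2 : ℤ) ^ (e' + 1) * rem a (m + 1) p
        = 2 ^ (e' + 1) * (4 * (2 ^ d * rem a (m + 1) q)) := by rw [h7]; ring
    have h9 := mul_left_cancel₀ (by positivity) h8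
    apply h4
    rw [h9]
    omega

lemma nodes_inj {E : ℕ} {a : ℤ} {m : ℕ} {p q : ℕ × ℤ} {e f : ℕ} (hp : p ∈ nodes E a m)
    (hq : q ∈ nodes E a m) (he1 : 1 ≤ e) (hf1 : 1 ≤ f) (he : valid e p.2) (hf : valid f q.2)
    (h : (p.1 + e, child e p.2) = (q.1 + f, child f q.2)) : e = f ∧ p = q := by
  have h1 := nodes_inj_aux hp hq he1 he hf h
  have h2 := nodes_inj_aux hq hp hf1 hf he h.symm
  have hef : e = f := by omega
  subst hef
  refine ⟨rfl, ?_⟩
  simp only [Prod.mk.injEq, Nat.add_right_cancel_iff] at h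
  have h3 := three_mul_child he
  have h4 := three_mul_child hf
  rw [h.2] at h3
  have h5 : (2 : ℤ) ^ e * p.2 = 2 ^ e * q.2 := by linarith
  exact Prod.ext h.1 (mul_left_cancel₀ (by positivity) h5)

lemma sum_nodes_succ {E : ℕ} {a : ℤ} (m : ℕ) (F : ℕ × ℤ → ℝ) :
    ∑ q ∈ nodes E a (m + 1), F q = ∑ p ∈ nodes E a m, ∑ e ∈ Finset.Icc 1 E,
      if valid e p.2 then F (p.1 + e, child e p.2) else 0 := by
  rw [← Finset.sum_product', ← Finset.sum_filter (s := nodes E a m ×ˢ Finset.Icc 1 E)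
    (p := fun x : (ℕ × ℤ) × ℕ => valid x.2 x.1.2)
    (f := fun x : (ℕ × ℤ) × ℕ => F (x.1.1 + x.2, child x.2 x.1.2))]
  rw [nodes, Finset.sum_image]
  intro x hx y hy hxy
  simp only [Finset.coe_filter, Finset.mem_product, Finset.mem_Icc, Set.mem_ofPred_eq] at hx hy
  obtain ⟨h1, h2⟩ := nodes_inj hx.1.1 hy.1.1 hx.1.2.1 hy.1.2.1 hx.2 hy.2 hxy
  exact Prod.ext h2 h1

/-- The height of a node. -/
noncomputable def ht (m : ℕ) (p : ℕ × ℤ) : ℝ := 2 ^ p.1 / 3 ^ m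

lemma ht_pos (m : ℕ) (p : ℕ × ℤ) : 0 < ht m p := by unfold ht; positivity

lemma ht_succ (m : ℕ) (p : ℕ × ℤ) (e : ℕ) (b : ℤ) :
    ht (m + 1) (p.1 + e, b) = ht m p * (2 ^ e / 3) := by
  unfold ht; dsimp only; rw [pow_add, pow_succ]; field_simp

lemma weight_succ (γ : ℝ) (m : ℕ) (p : ℕ × ℤ) (e : ℕ) (b : ℤ) :
    ht (m + 1) (p.1 + e, b) ^ (-γ) = ht m p ^ (-γ) * ((3 : ℝ) / 2 ^ e) ^ γ := by
  rw [ht_succ, Real.mul_rpow (ht_pos m p).le (by positivity)]
  congr 1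
  rw [Real.rpow_neg (by positivity), ← Real.inv_rpow (by positivity), inv_div]

/-- Expansion of the iterates of the operator. -/
lemma iter_eq_sum {E : ℕ} {γ : ℝ} (a : ℤ) (m : ℕ) (φ : ℤ → ℝ) :
    (L E γ)^[m] φ a = ∑ p ∈ nodes E a m, ht m p ^ (-γ) * φ p.2 := by
  induction m generalizing φ with
  | zero => simp [nodes, ht]
  | succ m ih =>
    rw [Function.iterate_succ_apply, ih, sum_nodes_succ]
    refine Finset.sum_congr rfl fun p _ => ?_
    unfold L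
    rw [Finset.mul_sum]
    refine Finset.sum_congr rfl fun e _ => ?_
    split_ifs with h
    · rw [weight_succ]; ring
    · simp

/-! ### The root bound -/

/-- `z = a - b / h`, the displacement of a node. -/
noncomputable def disp (a : ℤ) (m : ℕ) (p : ℕ × ℤ) : ℝ := (rem a m p : ℝ) / 2 ^ p.1

lemma disp_nonneg {E : ℕ} {a : ℤ} (m : ℕ) (p : ℕ × ℤ) (hp : p ∈ nodes E a m) : 0 ≤ disp a m p :=
  div_nonneg (by exact_mod_cast rem_nonneg m p hp) (by positivity)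

lemma disp_succ {a : ℤ} {m : ℕ} {p : ℕ × ℤ} {e : ℕ} (he : 1 ≤ e) (h : valid e p.2) :
    disp a (m + 1) (p.1 + e, child e p.2) ≤ disp a m p + 1 / (2 * ht m p) := by
  unfold disp
  rw [rem_succ h]
  push_cast
  have h1 : ((2 : ℝ) ^ e * (rem a m p : ℝ) + 3 ^ m * (eps e : ℝ)) / 2 ^ (p.1 + e)
      = (rem a m p : ℝ) / 2 ^ p.1 + (eps e : ℝ) / (2 ^ e * ht m p) := by
    unfold ht; rw [pow_add]; field_simp
  rw [h1]
  have h2 : (eps e : ℝ) / (2 ^ e * ht m p) ≤ 1 / (2 * ht m p) := by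
    rw [div_le_div_iff₀ (mul_pos (by positivity) (ht_pos m p)) (mul_pos (by positivity) (ht_pos m p))]
    have h3 : (eps e : ℝ) * 2 ≤ 2 ^ e := by
      rcases Nat.mod_two_eq_zero_or_one e with he' | he'
      · rw [eps_even he']
        obtain ⟨f, rfl⟩ : ∃ f, e = f + 2 := ⟨e - 2, by omega⟩
        have : (1 : ℝ) ≤ 2 ^ f := one_le_pow₀ (by norm_num)
        rw [pow_add]; push_cast; linarith
      · rw [eps_odd he']
        obtain ⟨f, rfl⟩ : ∃ f, e = f + 1 := ⟨e - 1, by omega⟩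
        have : (1 : ℝ) ≤ 2 ^ f := one_le_pow₀ (by norm_num)
        rw [pow_add]; push_cast; linarith
    nlinarith [ht_pos m p]
  linarith

/-- The lower bound for the weights of the moves `≤ 6`. -/
noncomputable def c₁ (γ : ℝ) : ℝ := ((3 : ℝ) / 64) ^ γ

lemma c₁_pos (γ : ℝ) : 0 < c₁ γ := by unfold c₁; positivity

lemma c₁_le {γ : ℝ} (hγ : 0 ≤ γ) {e : ℕ} (he : e ≤ 6) : c₁ γ ≤ ((3 : ℝ) / 2 ^ e) ^ γ := by
  unfold c₁
  refine Real.rpow_le_rpow (by norm_num) ?_ hγ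
  rw [div_le_div_iff₀ (by norm_num) (by positivity)]
  have : (2 : ℝ) ^ e ≤ 2 ^ 6 := pow_le_pow_right₀ (by norm_num) he
  linarith

lemma root_bound {E : ℕ} {γ : ℝ} (hE : 6 ≤ E) (hγ0 : 0 < γ) (hγ1 : γ ≤ 1) {a : ℤ}
    (ha : a % 3 = 2) {M : ℕ} (hroot : vv E γ M a ≤ 1) (m : ℕ) (hm : m ≤ M) :
    ∀ p ∈ nodes E a m, ht m p ^ (-γ) * vv E γ (M - m) p.2 + 2 * c₁ γ * disp a m p ≤ 1 ∧
      1 ≤ ht m p := by
  induction m with
  | zero =>
    intro p hp
    simp only [nodes, Finset.mem_singleton] at hp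
    subst hp
    simp [ht, disp, rem, hroot]
  | succ m ih =>
    intro p hp
    obtain ⟨q, hq, e, he1, he2, h, rfl⟩ := mem_nodes_succ.1 hp
    obtain ⟨ih1, ih2⟩ := ih (by omega) q hq
    obtain ⟨e', h1', h6', hne, h'⟩ := other_valid (nodes_mod ha m q hq) e
    have hvv : ∀ b : ℤ, b % 3 = 2 → 0 ≤ vv E γ (M - (m + 1)) b :=
      fun b _ => zero_le_one.trans (one_le_vv _ _ _ _)
    have h1 : L E γ (vv E γ (M - (m + 1))) q.2 ≤ vv E γ (M - m) q.2 := by
      have := L_vv_le E γ (M - (m + 1)) q.2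
      rwa [show M - (m + 1) + 1 = M - m by omega] at this
    have h2 := L_ge_two_terms (γ := γ) hvv he1 he2 h h1' (h6'.trans hE) h' hne
    have h3 : c₁ γ ≤ ((3 : ℝ) / 2 ^ e') ^ γ * vv E γ (M - (m + 1)) (child e' q.2) := by
      have h31 := c₁_le hγ0.le h6'
      have h32 := one_le_vv E γ (M - (m + 1)) (child e' q.2)
      have h33 := c₁_pos γ
      calc c₁ γ ≤ ((3 : ℝ) / 2 ^ e') ^ γ * 1 := by rw [mul_one]; exact h31
        _ ≤ _ := mul_le_mul_of_nonneg_left h32 (by positivity)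
    have hw : 0 < ht m q ^ (-γ) := Real.rpow_pos_of_pos (ht_pos m q) _
    have h4 : ht (m + 1) (q.1 + e, child e q.2) ^ (-γ) * vv E γ (M - (m + 1)) (child e q.2)
        ≤ ht m q ^ (-γ) * (vv E γ (M - m) q.2 - c₁ γ) := by
      rw [weight_succ, mul_assoc]
      exact mul_le_mul_of_nonneg_left (by linarith) hw.le
    have h5 := disp_succ (a := a) (m := m) he1 h
    have h6 : 1 / (2 * ht m q) ≤ ht m q ^ (-γ) / 2 := by
      rw [Real.rpow_neg (ht_pos m q).le]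
      have h61 : ht m q ^ γ ≤ ht m q := by
        calc ht m q ^ γ ≤ ht m q ^ (1 : ℝ) := Real.rpow_le_rpow_of_exponent_le ih2 hγ1
          _ = ht m q := Real.rpow_one _
      have h62 : 0 < ht m q ^ γ := Real.rpow_pos_of_pos (ht_pos m q) _
      rw [inv_eq_one_div, div_div, div_le_div_iff₀ (by linarith [ht_pos m q]) (by linarith)]
      linarith
    have hc := c₁_pos γ
    have h7 : ht (m + 1) (q.1 + e, child e q.2) ^ (-γ) * vv E γ (M - (m + 1)) (child e q.2)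
        + 2 * c₁ γ * disp a (m + 1) (q.1 + e, child e q.2) ≤ 1 := by
      have h71 : 2 * c₁ γ * disp a (m + 1) (q.1 + e, child e q.2)
          ≤ 2 * c₁ γ * (disp a m q + ht m q ^ (-γ) / 2) :=
        mul_le_mul_of_nonneg_left (by linarith) (by linarith)
      nlinarith
    refine ⟨h7, ?_⟩
    have h8 := disp_nonneg (m + 1) _ hp
    have h9 := one_le_vv E γ (M - (m + 1)) (child e q.2)
    have h10 := ht_pos (m + 1) (q.1 + e, child e q.2)
    have h11 : ht (m + 1) (q.1 + e, child e q.2) ^ (-γ) ≤ 1 := by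
      have h12 : 0 < ht (m + 1) (q.1 + e, child e q.2) ^ (-γ) := Real.rpow_pos_of_pos h10 _
      have h13 : 0 ≤ 2 * c₁ γ * disp a (m + 1) (q.1 + e, child e q.2) :=
        mul_nonneg (by linarith) h8
      nlinarith
    by_contra hcon
    push Not at hcon
    have h14 := Real.one_lt_rpow_of_pos_of_lt_one_of_neg h10 hcon (neg_neg_of_pos hγ0)
    linarith

/-- Two different nodes with the same `J` are incongruent modulo `3 ^ N` when `3 ^ N > K h`. -/
lemma nodes_sep {E : ℕ} {γ : ℝ} (hE : 6 ≤ E) (hγ0 : 0 < γ) (hγ1 : γ ≤ 1) {a : ℤ}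
    (ha : a % 3 = 2) {M : ℕ} (hroot : vv E γ M a ≤ 1) {m : ℕ} (hm : m ≤ M) {J : ℕ} {b b' : ℤ}
    (hb : (J, b) ∈ nodes E a m) (hb' : (J, b') ∈ nodes E a m) {N : ℕ}
    (hN : (2 : ℝ) ^ J / 3 ^ m / (2 * c₁ γ) < 3 ^ N) (hbb : (3 : ℤ) ^ N ∣ b - b') : b = b' := by
  obtain ⟨h1, -⟩ := root_bound hE hγ0 hγ1 ha hroot m hm _ hb
  obtain ⟨h1', -⟩ := root_bound hE hγ0 hγ1 ha hroot m hm _ hb'
  have hc := c₁_pos γ
  have key : ∀ b : ℤ, ht m (J, b) ^ (-γ) * vv E γ (M - m) b + 2 * c₁ γ * disp a m (J, b) ≤ 1 →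
      disp a m (J, b) ≤ 1 / (2 * c₁ γ) := by
    intro b h
    have h2 : 0 < ht m (J, b) ^ (-γ) := Real.rpow_pos_of_pos (ht_pos m _) _
    have h3 := one_le_vv E γ (M - m) b
    rw [le_div_iff₀ (by linarith)]
    nlinarith
  have h2 := key b h1
  have h2' := key b' h1'
  have h3 := disp_nonneg m _ hb
  have h3' := disp_nonneg m _ hb'
  have h4 : ((b : ℝ) - b') = (2 : ℝ) ^ J / 3 ^ m * (disp a m (J, b') - disp a m (J, b)) := by
    unfold disp rem; push_cast; field_simp; ring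
  have hH : (0 : ℝ) < 2 ^ J / 3 ^ m := by positivity
  have h5 : |((b : ℝ) - b')| ≤ (2 : ℝ) ^ J / 3 ^ m * (1 / (2 * c₁ γ)) := by
    rw [h4, abs_mul, abs_of_pos hH]
    refine mul_le_mul_of_nonneg_left ?_ hH.le
    rw [abs_le]; constructor <;> linarith
  have h6 : |((b : ℝ) - b')| < 3 ^ N := by
    refine lt_of_le_of_lt h5 ?_
    rwa [mul_one_div]
  have h7 : |b - b'| < 3 ^ N := by exact_mod_cast h6
  have h8 := Int.eq_zero_of_abs_lt_dvd hbb h7
  omega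

/-! ### Counting nodes -/

/-- The nodes with a given total exponent. -/
def lev (E : ℕ) (a : ℤ) (m J : ℕ) : Finset (ℕ × ℤ) := (nodes E a m).filter (fun p => p.1 = J)

lemma many_nodes {E : ℕ} {γ : ℝ} {a : ℤ} {m : ℕ} {Y : ℝ}
    (h : Y ≤ (L E γ)^[m] (fun _ => 1) a) :
    ∃ J ≤ E * m, Y / (E * m + 1) ≤ ((lev E a m J).card : ℝ) * ((2 : ℝ) ^ J / 3 ^ m) ^ (-γ) := by
  rw [iter_eq_sum] at h
  simp only [mul_one] at h
  have hmaps : ∀ p ∈ nodes E a m, p.1 ∈ Finset.range (E * m + 1) := by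
    intro p hp
    rw [Finset.mem_range]
    have := nodes_le m p hp
    omega
  have hpos : (0 : ℝ) < E * m + 1 := by positivity
  obtain ⟨J, hJ, hJ2⟩ := Finset.exists_le_sum_fiber_of_maps_to_of_nsmul_le_sum
    (s := nodes E a m) (t := Finset.range (E * m + 1)) (f := fun p => p.1)
    (w := fun p => ht m p ^ (-γ)) (b := Y / (E * m + 1)) hmaps ⟨0, by simp⟩ (by
      rw [Finset.card_range, nsmul_eq_mul]
      push_cast
      rw [mul_div_cancel₀ _ hpos.ne']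
      exact h)
  refine ⟨J, by rw [Finset.mem_range] at hJ; omega, hJ2.trans (le_of_eq ?_)⟩
  have : ∑ x ∈ nodes E a m with x.1 = J, ht m x ^ (-γ)
      = ∑ x ∈ nodes E a m with x.1 = J, ((2 : ℝ) ^ J / 3 ^ m) ^ (-γ) := by
    refine Finset.sum_congr rfl fun p hp => ?_
    rw [Finset.mem_filter] at hp
    unfold ht
    rw [hp.2]
  rw [this, Finset.sum_const, nsmul_eq_mul]
  rfl

lemma lev_sum_le {E : ℕ} {γ : ℝ} {a : ℤ} {m J : ℕ} {φ : ℤ → ℝ} (hφ : ∀ p ∈ nodes E a m, 0 ≤ φ p.2) :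
    ((2 : ℝ) ^ J / 3 ^ m) ^ (-γ) * ∑ p ∈ lev E a m J, φ p.2 ≤ (L E γ)^[m] φ a := by
  rw [iter_eq_sum, Finset.mul_sum]
  have : ∑ p ∈ lev E a m J, ((2 : ℝ) ^ J / 3 ^ m) ^ (-γ) * φ p.2
      = ∑ p ∈ lev E a m J, ht m p ^ (-γ) * φ p.2 := by
    refine Finset.sum_congr rfl fun p hp => ?_
    unfold lev at hp
    rw [Finset.mem_filter] at hp
    unfold ht
    rw [hp.2]
  rw [this]
  refine Finset.sum_le_sum_of_subset_of_nonneg (Finset.filter_subset _ _) fun p hp _ => ?_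
  exact mul_nonneg (Real.rpow_nonneg (ht_pos m p).le _) (hφ p hp)

lemma vv_mono' {E : ℕ} {γ : ℝ} {M M' : ℕ} (h : M ≤ M') (a : ℤ) : vv E γ M a ≤ vv E γ M' a := by
  induction h with
  | refl => exact le_rfl
  | step _ ih => exact ih.trans (vv_mono _ _ _ _)

/-- `L ^ m 1 (a) ≤ 1` at an adversarial root. -/
lemma iter_one_le {E : ℕ} {γ : ℝ} {a : ℤ} (ha : a % 3 = 2) {M : ℕ} (hroot : vv E γ M a ≤ 1) {m : ℕ}
    (hm : m ≤ M) : (L E γ)^[m] (fun _ => 1) a ≤ 1 := by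
  have h1 := iter_le_vv (E := E) (γ := γ) m 0 a ha
  rw [zero_add] at h1
  exact h1.trans ((vv_mono' hm a).trans hroot)

end CollatzExp
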