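import Pool.Agent.CollatzExp.T3c

set_option autoImplicit false

/-!
Bootstrap theorem, part b: few bad classes (negative moments of the iterates).
-/

namespace CollatzExp

lemma jensen_inv {ι : Type*} (T : Finset ι) (p y : ι → ℝ) (hp : ∀ i ∈ T, 0 ≤ p i)
    (hsum : ∑ i ∈ T, p i = 1) (hy : ∀ i ∈ T, 0 < y i) (s : ℕ) :
    ((∑ i ∈ T, p i * y i)⁻¹) ^ s ≤ ∑ i ∈ T, p i * ((y i)⁻¹) ^ s := by
  have h := (convexOn_zpow (𝕜 := ℝ) (-(s : ℤ))).map_sum_le (t := T) (w := p) (p := y) hp hsum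
    (fun i hi => hy i hi)
  simp only [smul_eq_mul, zpow_neg, zpow_natCast] at h
  simpa only [inv_pow] using h

lemma L_pos {E : ℕ} {γ : ℝ} (hE : 6 ≤ E) {w : ℤ → ℝ} (hw : ∀ a : ℤ, a % 3 = 2 → 0 < w a) {a : ℤ}
    (ha : a % 3 = 2) : 0 < L E γ w a := by
  obtain ⟨e, -, h1, h6, -, -, -, h, -⟩ := two_valid ha
  have h2 := L_ge_term (γ := γ) (fun b hb => (hw b hb).le) h1 (h6.trans hE) h
  have h3 : 0 < ((3 : ℝ) / 2 ^ e) ^ γ * w (child e a) := mul_pos (by positivity) (hw _ (valid_child h))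
  linarith

lemma iter_pos {E : ℕ} {γ : ℝ} (hE : 6 ≤ E) {w : ℤ → ℝ} (hw : ∀ a : ℤ, a % 3 = 2 → 0 < w a) (n : ℕ) :
    ∀ a : ℤ, a % 3 = 2 → 0 < (L E γ)^[n] w a := by
  induction n with
  | zero => exact hw
  | succ n ih =>
    intro a ha
    rw [Function.iterate_succ_apply']
    exact L_pos hE ih ha

lemma pointwise {E : ℕ} {γ : ℝ} (hE : 6 ≤ E) {w u : ℤ → ℝ} (hw : ∀ a : ℤ, a % 3 = 2 → 0 < w a)
    (hu : ∀ a : ℤ, a % 3 = 2 → 0 < u a) (s : ℕ) {a : ℤ} (ha : a % 3 = 2) :
    (L E γ w a / L E γ u a) ^ s ≤ ∑ e ∈ Finset.Icc 1 E, if valid e a then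
      ((3 : ℝ) / 2 ^ e) ^ γ * w (child e a) / L E γ w a * (w (child e a) / u (child e a)) ^ s else 0 := by
  have hLw := L_pos (γ := γ) hE hw ha
  have hLu := L_pos (γ := γ) hE hu ha
  set T := (Finset.Icc 1 E).filter (fun e => valid e a) with hT
  have h := jensen_inv T (fun e => ((3 : ℝ) / 2 ^ e) ^ γ * w (child e a) / L E γ w a)
    (fun e => u (child e a) / w (child e a)) (fun e he => by
      have h1 := hw _ (valid_child (Finset.mem_filter.1 he).2)
      positivity) (by
      rw [← Finset.sum_div, div_eq_one_iff_eq hLw.ne', hT, Finset.sum_filter]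
      rfl) (fun e he => by
      have h1 := valid_child (Finset.mem_filter.1 he).2
      exact div_pos (hu _ h1) (hw _ h1)) s
  have h2 : ∑ e ∈ T, ((3 : ℝ) / 2 ^ e) ^ γ * w (child e a) / L E γ w a * (u (child e a) / w (child e a))
      = L E γ u a / L E γ w a := by
    rw [eq_div_iff hLw.ne', Finset.sum_mul]
    have : L E γ u a = ∑ e ∈ T, ((3 : ℝ) / 2 ^ e) ^ γ * u (child e a) := by
      rw [hT, Finset.sum_filter]; rfl
    rw [this]
    refine Finset.sum_congr rfl fun e he => ?_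
    have h1 := hw _ (valid_child (Finset.mem_filter.1 he).2)
    field_simp
  rw [h2, inv_div] at h
  refine h.trans (le_of_eq ?_)
  rw [hT, Finset.sum_filter]
  refine Finset.sum_congr rfl fun e _ => ?_
  split_ifs with h3
  · rw [inv_div]
  · rfl

/-- The classes `2 mod 3` modulo `3 ^ N`. -/
def cls (N : ℕ) : Finset ℕ := (Finset.range (3 ^ N)).filter (fun b : ℕ => b % 3 = 2)

lemma mem_cls {N b : ℕ} : b ∈ cls N ↔ b < 3 ^ N ∧ b % 3 = 2 := by
  unfold cls; rw [Finset.mem_filter, Finset.mem_range]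

lemma toNat_mem_cls {N : ℕ} (hN : 1 ≤ N) {a : ℤ} (ha : a % 3 = 2) : (a % 3 ^ N).toNat ∈ cls N := by
  have h0 : (0 : ℤ) < 3 ^ N := by positivity
  have h1 : 0 ≤ a % 3 ^ N := Int.emod_nonneg _ h0.ne'
  have h2 : a % 3 ^ N < 3 ^ N := Int.emod_lt_of_pos _ h0
  have h3 : (3 : ℤ) ∣ 3 ^ N := dvd_pow_self 3 (by omega)
  have h4 : a % 3 ^ N % 3 = a % 3 := Int.emod_emod_of_dvd _ h3
  rw [mem_cls]
  refine ⟨?_, by omega⟩
  zify
  rw [Int.toNat_of_nonneg h1]
  exact h2

/-- The class `a` with `2 ^ e * a ≡ 3 * b + eps e` modulo `3 ^ (N + 1)`. -/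
def par (N e : ℕ) (b : ℤ) : ℤ := (3 * b + eps e) * ((3 ^ (N + 1) + 1) / 2) ^ e

lemma par_spec (N e : ℕ) (b : ℤ) : (3 : ℤ) ^ (N + 1) ∣ 2 ^ e * par N e b - (3 * b + eps e) := by
  have h1 : (2 : ℤ) * ((3 ^ (N + 1) + 1) / 2) = 3 ^ (N + 1) + 1 := by
    have := three_pow_mod_two (N + 1)
    omega
  have h2 : (2 : ℤ) ^ e * par N e b - (3 * b + eps e)
      = (3 * b + eps e) * ((2 * ((3 ^ (N + 1) + 1) / 2)) ^ e - 1) := by
    unfold par; rw [mul_pow]; ring
  rw [h2, h1]
  refine Dvd.dvd.mul_left ?_ _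
  have h3 := sub_dvd_pow_sub_pow ((3 : ℤ) ^ (N + 1) + 1) 1 e
  rw [one_pow, add_sub_cancel_right] at h3
  exact h3

lemma dvd_of_two_pow {N e : ℕ} {x : ℤ} (h : (3 : ℤ) ^ N ∣ 2 ^ e * x) : (3 : ℤ) ^ N ∣ x := by
  have hc : IsCoprime ((3 : ℤ) ^ N) (2 ^ e) := IsCoprime.pow (by norm_num)
  exact hc.dvd_of_dvd_mul_left h

lemma per_of_dvd {f : ℤ → ℝ} {P : ℤ} (h : ∀ a : ℤ, f (a + P) = f a) {a b : ℤ} (hab : P ∣ a - b) :
    f a = f b := by
  obtain ⟨c, hc⟩ := hab
  have : a = b + c * P := by linarith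
  rw [this]
  exact per_mul h b c

/-- Reindexing of the sum over the fine classes by the child class. -/
lemma reindex {N e : ℕ} (hN : 1 ≤ N) {F G : ℤ → ℝ} (hF : ∀ a : ℤ, F (a + 3 ^ (N + 1)) = F a)
    (hG : ∀ a : ℤ, G (a + 3 ^ N) = G a)
    (hF0 : ∀ a : ℤ, a % 3 = 2 → 0 ≤ F a) (hG0 : ∀ a : ℤ, a % 3 = 2 → 0 ≤ G a) :
    ∑ a ∈ cls (N + 1), (if valid e (a : ℤ) then F a * G (child e a) else 0)
      ≤ ∑ b ∈ cls N, F (par N e b) * G b := by
  classical
  have h3N : (3 : ℤ) ^ (N + 1) = 3 * 3 ^ N := by ring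
  have h0 : (0 : ℤ) < 3 ^ N := by positivity
  rw [← Finset.sum_filter]
  have key : ∀ a : ℤ, valid e a →
      (3 : ℤ) ^ (N + 1) ∣ par N e (((child e a % 3 ^ N).toNat : ℕ) : ℤ) - a := by
    intro a ha
    have h1 : 0 ≤ child e a % 3 ^ N := Int.emod_nonneg _ h0.ne'
    rw [Int.toNat_of_nonneg h1]
    apply dvd_of_two_pow (e := e)
    have h2 := par_spec N e (child e a % 3 ^ N)
    have h3 := three_mul_child ha
    have h4 := Int.emod_add_mul_ediv (child e a) (3 ^ N)
    have h5 : (2 : ℤ) ^ e * (par N e (child e a % 3 ^ N) - a)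
        = (2 ^ e * par N e (child e a % 3 ^ N) - (3 * (child e a % 3 ^ N) + eps e))
          - 3 ^ (N + 1) * (child e a / 3 ^ N) := by
      rw [h3N]
      linear_combination 3 * h4 + h3
    rw [h5]
    exact dvd_sub h2 (Dvd.intro _ rfl)
  calc ∑ a ∈ (cls (N + 1)).filter (fun a : ℕ => valid e (a : ℤ)), F a * G (child e a)
      = ∑ a ∈ (cls (N + 1)).filter (fun a : ℕ => valid e (a : ℤ)),
          (fun b : ℕ => F (par N e b) * G b) ((child e (a : ℤ) % 3 ^ N).toNat) := by
        refine Finset.sum_congr rfl fun a ha => ?_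
        rw [Finset.mem_filter] at ha
        dsimp only
        rw [per_of_mod hG, per_of_dvd hF (key a ha.2)]
    _ = ∑ b ∈ ((cls (N + 1)).filter (fun a : ℕ => valid e (a : ℤ))).image
          (fun a : ℕ => (child e (a : ℤ) % 3 ^ N).toNat), F (par N e b) * G b := by
        rw [Finset.sum_image]
        intro a ha a' ha' haa
        rw [Finset.mem_coe, Finset.mem_filter, mem_cls] at ha ha'
        dsimp only at haa
        have h1 := key a ha.2
        have h2 := key a' ha'.2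
        rw [haa] at h1
        have h3 : (3 : ℤ) ^ (N + 1) ∣ (a : ℤ) - a' := by
          have := dvd_sub h2 h1
          rwa [show par N e (((child e (a' : ℤ) % 3 ^ N).toNat : ℕ) : ℤ) - (a' : ℤ)
            - (par N e (((child e (a' : ℤ) % 3 ^ N).toNat : ℕ) : ℤ) - a) = (a : ℤ) - a' by ring] at this
        have h4 : |(a : ℤ) - a'| < 3 ^ (N + 1) := by
          have h5 : (a : ℤ) < 3 ^ (N + 1) := by exact_mod_cast ha.1.1
          have h6 : (a' : ℤ) < 3 ^ (N + 1) := by exact_mod_cast ha'.1.1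
          rw [abs_lt]; constructor <;> omega
        have h7 := Int.eq_zero_of_abs_lt_dvd h3 h4
        omega
    _ ≤ ∑ b ∈ cls N, F (par N e b) * G b := by
        refine Finset.sum_le_sum_of_subset_of_nonneg ?_ ?_
        · intro b hb
          rw [Finset.mem_image] at hb
          obtain ⟨a, ha, rfl⟩ := hb
          rw [Finset.mem_filter] at ha
          exact toNat_mem_cls hN (valid_child ha.2)
        · intro b hb _
          rw [mem_cls] at hb
          have hb2 : (b : ℤ) % 3 = 2 := by omega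
          refine mul_nonneg (hF0 _ ?_) (hG0 _ hb2)
          -- `par N e b % 3 = 2`
          have h1 := par_spec N e b
          have h2 : (3 : ℤ) ∣ 2 ^ e * par N e b - (3 * b + eps e) :=
            (Dvd.intro _ rfl : (3 : ℤ) ∣ 3 * 3 ^ N).trans (h3N ▸ h1)
          have h3 : (3 : ℤ) ∣ 2 ^ e * (par N e b - 2) := by
            have h4 : (3 : ℤ) ∣ eps e - 2 ^ e * 2 := by
              have h5 : ∀ j : ℕ, (2 : ℤ) ^ (2 * j) % 3 = 1 := by
                intro j
                induction j with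
                | zero => rfl
                | succ j ih => rw [show 2 * (j + 1) = 2 * j + 2 by ring, pow_add]; omega
              rcases Nat.mod_two_eq_zero_or_one e with he | he
              · rw [eps_even he]
                have h6 := h5 (e / 2)
                rw [show 2 * (e / 2) = e by omega] at h6
                omega
              · rw [eps_odd he]
                have h6 := h5 (e / 2)
                have h7 : (2 : ℤ) ^ e = 2 ^ (2 * (e / 2)) * 2 := by
                  rw [← pow_succ]; congr 1; omega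
                rw [h7]
                omega
            have h8 : (2 : ℤ) ^ e * (par N e b - 2)
                = (2 ^ e * par N e b - (3 * b + eps e)) + 3 * b + (eps e - 2 ^ e * 2) := by ring
            rw [h8]
            exact dvd_add (dvd_add h2 (Dvd.intro _ rfl)) h4
          have h9 : (3 : ℤ) ∣ par N e b - 2 := by
            have := dvd_of_two_pow (N := 1) (e := e) (x := par N e b - 2) (by rwa [pow_one])
            rwa [pow_one] at this
          omega

/-- The negative moment of order `s` of `u / w`. -/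
noncomputable def Theta (s N : ℕ) (w g u : ℤ → ℝ) : ℝ :=
  ∑ a ∈ cls N, w a * g a * (w a / u a) ^ s

lemma Theta_step {γ θ : ℝ} {s k E : ℕ} {w g : ℤ → ℝ} (hk : 1 ≤ k) (hc : IsCert γ θ s k E w g)
    {N : ℕ} (hN : k ≤ N) {u : ℤ → ℝ} (hu : ∀ a : ℤ, a % 3 = 2 → 0 < u a)
    (hper : ∀ a : ℤ, u (a + 3 ^ N) = u a) :
    Theta s (N + 1) w g (L E γ u) ≤ (3 : ℝ) ^ γ * θ * Theta s N w g u := by
  have hw := hc.w_pos
  have hg := hc.g_pos
  set F : ℤ → ℝ := fun a => (w a / L E γ w a) ^ (s + 1) * g a with hF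
  set G : ℤ → ℝ := fun b => w b * (w b / u b) ^ s with hG
  have hmod : ∀ a : ℕ, ∀ N : ℕ, a ∈ cls N → (a : ℤ) % 3 = 2 := fun a N ha => by
    have := (mem_cls.1 ha).2; omega
  have hwN : ∀ a : ℤ, w (a + 3 ^ N) = w a := by
    intro a
    obtain ⟨j, rfl⟩ := Nat.exists_eq_add_of_le hN
    rw [pow_add, mul_comm]
    exact per_mul hc.w_per a _
  have hGper : ∀ a : ℤ, G (a + 3 ^ N) = G a := by
    intro a; simp only [hG, hwN, hper]
  have hFper : ∀ a : ℤ, F (a + 3 ^ (N + 1)) = F a := by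
    intro a
    obtain ⟨j, rfl⟩ := Nat.exists_eq_add_of_le hN
    have h1 : (3 : ℤ) ^ (k + j + 1) = (3 * 3 ^ j) * 3 ^ k := by ring
    have h2 : (3 : ℤ) ^ (k + j + 1) = 3 ^ j * 3 ^ (k + 1) := by ring
    have h3 : w (a + 3 ^ (k + j + 1)) = w a := by rw [h1]; exact per_mul hc.w_per a _
    have h4 : g (a + 3 ^ (k + j + 1)) = g a := by rw [h1]; exact per_mul hc.g_per a _
    have h5 : L E γ w (a + 3 ^ (k + j + 1)) = L E γ w a := by
      rw [h2]; exact per_mul (L_per hk hc.w_per) a _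
    simp only [hF, h3, h4, h5]
  have hF0 : ∀ a : ℤ, a % 3 = 2 → 0 ≤ F a := fun a ha => by
    have := hw a ha
    have := hg a ha
    have := L_pos (γ := γ) hc.hE hw ha
    simp only [hF]; positivity
  have hG0 : ∀ a : ℤ, a % 3 = 2 → 0 ≤ G a := fun a ha => by
    have := hw a ha
    have := hu a ha
    simp only [hG]; positivity
  -- pointwise estimate
  have hpt : ∀ a ∈ cls (N + 1), w a * g a * (w a / L E γ u a) ^ s
      ≤ ∑ e ∈ Finset.Icc 1 E, ((3 : ℝ) / 2 ^ e) ^ γ *
        (if valid e (a : ℤ) then F a * G (child e a) else 0) := by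
    intro a ha
    have ha3 := hmod a _ ha
    have hwa := hw _ ha3
    have hga := hg _ ha3
    have hLw := L_pos (γ := γ) hc.hE hw ha3
    have hLu := L_pos (γ := γ) hc.hE hu ha3
    have h1 := pointwise (γ := γ) hc.hE hw hu s ha3
    have h2 : w a * g a * (w a / L E γ u a) ^ s
        = w a * g a * (w a / L E γ w a) ^ s * (L E γ w a / L E γ u a) ^ s := by
      rw [mul_assoc (w (a : ℤ) * g a), ← mul_pow]
      congr 2
      field_simp
    rw [h2]
    refine (mul_le_mul_of_nonneg_left h1 (by positivity)).trans (le_of_eq ?_)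
    rw [Finset.mul_sum]
    refine Finset.sum_congr rfl fun e _ => ?_
    split_ifs with h
    · simp only [hF, hG]
      rw [pow_succ (w (a : ℤ) / L E γ w a) s]
      field_simp
    · simp
  calc Theta s (N + 1) w g (L E γ u)
      ≤ ∑ a ∈ cls (N + 1), ∑ e ∈ Finset.Icc 1 E, ((3 : ℝ) / 2 ^ e) ^ γ *
        (if valid e (a : ℤ) then F a * G (child e a) else 0) := Finset.sum_le_sum hpt
    _ = ∑ e ∈ Finset.Icc 1 E, ((3 : ℝ) / 2 ^ e) ^ γ *
        ∑ a ∈ cls (N + 1), (if valid e (a : ℤ) then F a * G (child e a) else 0) := by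
        rw [Finset.sum_comm]
        refine Finset.sum_congr rfl fun e _ => ?_
        rw [Finset.mul_sum]
    _ ≤ ∑ e ∈ Finset.Icc 1 E, ((3 : ℝ) / 2 ^ e) ^ γ * ∑ b ∈ cls N, F (par N e b) * G b := by
        refine Finset.sum_le_sum fun e _ => ?_
        exact mul_le_mul_of_nonneg_left (reindex (hk.trans hN) hFper hGper hF0 hG0) (by positivity)
    _ = ∑ b ∈ cls N, (3 : ℝ) ^ γ * G b *
        ∑ e ∈ Finset.Icc 1 E, (2 : ℝ) ^ (-(γ * (e : ℝ))) * F (par N e b) := by
        simp only [Finset.mul_sum]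
        rw [Finset.sum_comm]
        refine Finset.sum_congr rfl fun b _ => Finset.sum_congr rfl fun e _ => ?_
        have h1 : ((3 : ℝ) / 2 ^ e) ^ γ = (3 : ℝ) ^ γ * (2 : ℝ) ^ (-(γ * (e : ℝ))) := by
          rw [Real.div_rpow (by norm_num) (by positivity), Real.rpow_neg (by norm_num),
            ← Real.rpow_natCast, ← Real.rpow_mul (by norm_num), mul_comm γ, div_eq_mul_inv]
        rw [h1]
        ring
    _ ≤ ∑ b ∈ cls N, (3 : ℝ) ^ γ * G b * (θ * g b) := by
        refine Finset.sum_le_sum fun b hb => ?_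
        have hb3 := hmod b _ hb
        have h1 := hc.ineq b (fun e => par N e b) hb3 (fun e _ =>
          (pow_dvd_pow 3 (by omega)).trans (par_spec N e b))
        refine mul_le_mul_of_nonneg_left ?_ (mul_nonneg (by positivity) (hG0 _ hb3))
        refine le_trans (le_of_eq ?_) h1
        refine Finset.sum_congr rfl fun e _ => ?_
        simp only [hF]; ring
    _ = (3 : ℝ) ^ γ * θ * Theta s N w g u := by
        unfold Theta
        rw [Finset.mul_sum]
        refine Finset.sum_congr rfl fun b _ => ?_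
        simp only [hG]; ring

lemma Theta_iter {γ θ : ℝ} {s k E : ℕ} {w g : ℤ → ℝ} (hk : 1 ≤ k) (hθ : 0 ≤ θ)
    (hc : IsCert γ θ s k E w g) (n : ℕ) :
    Theta s (n + k) w g ((L E γ)^[n] w) ≤ ((3 : ℝ) ^ γ * θ) ^ n * ∑ a ∈ cls k, w a * g a := by
  induction n with
  | zero =>
    rw [zero_add, pow_zero, one_mul]
    unfold Theta
    refine le_of_eq (Finset.sum_congr rfl fun a ha => ?_)
    have h1 : (a : ℤ) % 3 = 2 := by have := (mem_cls.1 ha).2; omega
    have h2 := hc.w_pos _ h1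
    rw [Function.iterate_zero, id, div_self h2.ne', one_pow, mul_one]
  | succ n ih =>
    have h1 := Theta_step hk hc (N := n + k) (by omega) (iter_pos (γ := γ) hc.hE hc.w_pos n)
      (iter_per hk hc.w_per n)
    rw [Function.iterate_succ', show n + 1 + k = n + k + 1 by ring, Function.comp_apply]
    refine h1.trans ?_
    calc (3 : ℝ) ^ γ * θ * Theta s (n + k) w g ((L E γ)^[n] w)
        ≤ (3 : ℝ) ^ γ * θ * (((3 : ℝ) ^ γ * θ) ^ n * ∑ a ∈ cls k, w a * g a) :=
          mul_le_mul_of_nonneg_left ih (by positivity)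
      _ = _ := by rw [pow_succ]; ring

theorem few_bad {γ θ : ℝ} {s k E : ℕ} {w g : ℤ → ℝ} (hk : 1 ≤ k) (hθ : 0 ≤ θ)
    (hc : IsCert γ θ s k E w g) {c : ℝ} (hc0 : 0 < c) (hcmin : ∀ a : ℤ, a % 3 = 2 → c ≤ w a * g a) :
    FewBad γ θ s k E w ((∑ a ∈ cls k, w a * g a) / c) := by
  intro n t ht
  have h1 := Theta_iter hk hθ hc n
  set bad := (Finset.range (3 ^ (n + k))).filter (fun b : ℕ => b % 3 = 2 ∧
      (L E γ)^[n] w (b : ℤ) ≤ t * w (b : ℤ)) with hbad
  have hsub : bad ⊆ cls (n + k) := by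
    intro b hb
    rw [hbad, Finset.mem_filter] at hb
    exact Finset.mem_filter.2 ⟨hb.1, hb.2.1⟩
  have hpos := iter_pos (γ := γ) hc.hE hc.w_pos n
  have h2 : (bad.card : ℝ) * (c * (1 / t) ^ s) ≤ Theta s (n + k) w g ((L E γ)^[n] w) := by
    calc (bad.card : ℝ) * (c * (1 / t) ^ s) = ∑ b ∈ bad, c * (1 / t) ^ s := by
          rw [Finset.sum_const, nsmul_eq_mul]
      _ ≤ ∑ b ∈ bad, w b * g b * (w b / (L E γ)^[n] w b) ^ s := by
          refine Finset.sum_le_sum fun b hb => ?_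
          rw [hbad, Finset.mem_filter] at hb
          have hb3 : (b : ℤ) % 3 = 2 := by have := hb.2.1; omega
          have h3 := hpos _ hb3
          have h4 := hc.w_pos _ hb3
          have h5 : 1 / t ≤ w b / (L E γ)^[n] w b := by
            rw [div_le_div_iff₀ ht h3, one_mul, mul_comm]
            exact hb.2.2
          have h6 := hcmin _ hb3
          exact mul_le_mul h6 (pow_le_pow_left₀ (by positivity) h5 s) (by positivity)
            (by linarith)
      _ ≤ _ := by
          refine Finset.sum_le_sum_of_subset_of_nonneg hsub fun b hb _ => ?_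
          have hb3 : (b : ℤ) % 3 = 2 := by have := (mem_cls.1 hb).2; omega
          have h3 := hpos _ hb3
          have h4 := hc.w_pos _ hb3
          have h5 := hc.g_pos _ hb3
          positivity
  have h7 := h2.trans h1
  have hts : 0 < t ^ s := by positivity
  rw [one_div, inv_pow, ← div_eq_mul_inv, mul_div_assoc', div_le_iff₀ hts] at h7
  rw [div_mul_eq_mul_div, le_div_iff₀ hc0]
  calc (bad.card : ℝ) * c ≤ ((3 : ℝ) ^ γ * θ) ^ n * (∑ a ∈ cls k, w a * g a) * t ^ s := h7
    _ = _ := by ring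

end CollatzExp
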