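import Pool.Agent.CollatzExp.T3a

set_option autoImplicit false

/-!
Bootstrap theorem, part c: the combinatorial core (step (6)) and the asymptotic argument.
-/

namespace CollatzExp

/-! ### Periodicity -/

lemma L_per {E : ℕ} {γ : ℝ} {w : ℤ → ℝ} {N : ℕ} (hN : 1 ≤ N)
    (hw : ∀ a : ℤ, w (a + 3 ^ N) = w a) (a : ℤ) : L E γ w (a + 3 ^ (N + 1)) = L E γ w a := by
  have hmul : ∀ (j : ℕ) (a : ℤ), w (a + (j : ℤ) * 3 ^ N) = w a := by
    intro j
    induction j with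
    | zero => intro a; simp
    | succ j ih =>
      intro a
      rw [show a + ((j + 1 : ℕ) : ℤ) * 3 ^ N = (a + (j : ℤ) * 3 ^ N) + 3 ^ N by push_cast; ring, hw, ih]
  obtain ⟨N', rfl⟩ : ∃ N', N = N' + 1 := ⟨N - 1, by omega⟩
  unfold L
  refine Finset.sum_congr rfl fun e _ => ?_
  have h1 : (2 : ℤ) ^ e * (a + 3 ^ (N' + 1 + 1)) - eps e
      = (2 ^ e * a - eps e) + 9 * (2 ^ e * 3 ^ N') := by ring
  have h2 : valid e (a + 3 ^ (N' + 1 + 1)) ↔ valid e a := by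
    unfold valid; rw [h1]; omega
  have h3 : child e (a + 3 ^ (N' + 1 + 1)) = child e a + ((2 ^ e : ℕ) : ℤ) * 3 ^ (N' + 1) := by
    unfold child
    rw [show (2 : ℤ) ^ e * (a + 3 ^ (N' + 1 + 1)) - eps e
      = (2 ^ e * a - eps e) + (((2 ^ e : ℕ) : ℤ) * 3 ^ (N' + 1)) * 3 by push_cast; ring]
    rw [Int.add_mul_ediv_right _ _ (by norm_num)]
  simp only [h2, h3, hmul]

lemma iter_per {E k : ℕ} {γ : ℝ} {w : ℤ → ℝ} (hk : 1 ≤ k)
    (hw : ∀ a : ℤ, w (a + 3 ^ k) = w a) (n : ℕ) :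
    ∀ a : ℤ, (L E γ)^[n] w (a + 3 ^ (n + k)) = (L E γ)^[n] w a := by
  induction n with
  | zero => intro a; rw [zero_add]; exact hw a
  | succ n ih =>
    intro a
    rw [Function.iterate_succ_apply', show n + 1 + k = (n + k) + 1 by ring]
    exact L_per (by omega) ih a

lemma per_mul {f : ℤ → ℝ} {P : ℤ} (h : ∀ a : ℤ, f (a + P) = f a) (a c : ℤ) :
    f (a + c * P) = f a := by
  have hp : Function.Periodic f P := h
  have := hp.int_mul c a
  simpa using this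

lemma per_of_mod {f : ℤ → ℝ} {N : ℕ} (h : ∀ a : ℤ, f (a + 3 ^ N) = f a) (a : ℤ) :
    f (((a % 3 ^ N).toNat : ℕ) : ℤ) = f a := by
  have h0 : (0 : ℤ) < 3 ^ N := by positivity
  have h1 : (((a % 3 ^ N).toNat : ℕ) : ℤ) = a % 3 ^ N := Int.toNat_of_nonneg (Int.emod_nonneg _ h0.ne')
  rw [h1]
  have h2 := Int.emod_add_mul_ediv a (3 ^ N)
  conv_rhs => rw [← h2]
  rw [mul_comm, per_mul h]

/-! ### The core inequality -/

lemma core {E Ec k n m M J : ℕ} {γ t wmin wmax : ℝ} {w : ℤ → ℝ} (hE : 6 ≤ E) (hEc : Ec ≤ E)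
    (hk : 1 ≤ k) (hγ0 : 0 < γ) (hγ1 : γ ≤ 1) {a : ℤ} (ha : a % 3 = 2) (hroot : vv E γ M a ≤ 1)
    (hmn : m + n ≤ M) (hper : ∀ a : ℤ, w (a + 3 ^ k) = w a) (hwmin0 : 0 < wmin)
    (hwmin : ∀ a : ℤ, a % 3 = 2 → wmin ≤ w a) (hwmax : ∀ a : ℤ, a % 3 = 2 → w a ≤ wmax)
    (ht : 0 < t) (hN : (2 : ℝ) ^ J / 3 ^ m / (2 * c₁ γ) < 3 ^ (n + k))
    (hbad : 2 * (((Finset.range (3 ^ (n + k))).filter (fun b : ℕ => b % 3 = 2 ∧
      (L Ec γ)^[n] w (b : ℤ) ≤ t * w (b : ℤ))).card : ℝ) ≤ ((lev E a m J).card : ℝ)) :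
    ((lev E a m J).card : ℝ) / 2 * ((2 : ℝ) ^ J / 3 ^ m) ^ (-γ) * (t * wmin) ≤ wmax := by
  classical
  set bad := (lev E a m J).filter (fun p => (L Ec γ)^[n] w p.2 ≤ t * w p.2) with hbaddef
  set good := (lev E a m J).filter (fun p => ¬ (L Ec γ)^[n] w p.2 ≤ t * w p.2) with hgooddef
  have hcard : bad.card + good.card = (lev E a m J).card :=
    Finset.card_filter_add_card_filter_not _
  have hiter := iter_per (E := Ec) (γ := γ) hk hper n
  have hper' : ∀ a : ℤ, w (a + 3 ^ (n + k)) = w a := by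
    intro a
    rw [show (3 : ℤ) ^ (n + k) = 3 ^ n * 3 ^ k by rw [pow_add]]
    exact per_mul hper a _
  have hmodS : ∀ p ∈ lev E a m J, p.2 % 3 = 2 := fun p hp =>
    nodes_mod ha m p (Finset.mem_filter.1 hp).1
  -- the number of bad nodes
  have hbadcard : bad.card ≤ ((Finset.range (3 ^ (n + k))).filter (fun b : ℕ => b % 3 = 2 ∧
      (L Ec γ)^[n] w (b : ℤ) ≤ t * w (b : ℤ))).card := by
    refine Finset.card_le_card_of_injOn (fun p => (p.2 % 3 ^ (n + k)).toNat) ?_ ?_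
    · intro p hp
      rw [hbaddef, Finset.mem_coe, Finset.mem_filter] at hp
      obtain ⟨hp1, hp2⟩ := hp
      have h0 : (0 : ℤ) < 3 ^ (n + k) := by positivity
      have h1 : 0 ≤ p.2 % 3 ^ (n + k) := Int.emod_nonneg _ h0.ne'
      have h2 : p.2 % 3 ^ (n + k) < 3 ^ (n + k) := Int.emod_lt_of_pos _ h0
      simp only [Finset.coe_filter, Finset.mem_range, Set.mem_ofPred_eq]
      refine ⟨?_, ?_, ?_⟩
      · zify
        rw [Int.toNat_of_nonneg h1]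
        exact h2
      · have h3 : (3 : ℤ) ∣ 3 ^ (n + k) := dvd_pow_self 3 (by omega)
        have h4 : p.2 % 3 ^ (n + k) % 3 = p.2 % 3 := Int.emod_emod_of_dvd _ h3
        rw [hmodS p hp1] at h4
        omega
      · rw [per_of_mod hiter, per_of_mod hper']
        exact hp2
    · intro p hp q hq hpq
      rw [hbaddef, Finset.mem_coe, Finset.mem_filter] at hp hq
      obtain ⟨hp1, -⟩ := hp
      obtain ⟨hq1, -⟩ := hq
      have hp3 := Finset.mem_filter.1 hp1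
      have hq3 := Finset.mem_filter.1 hq1
      have h0 : (0 : ℤ) < 3 ^ (n + k) := by positivity
      have h1 : 0 ≤ p.2 % 3 ^ (n + k) := Int.emod_nonneg _ h0.ne'
      have h1' : 0 ≤ q.2 % 3 ^ (n + k) := Int.emod_nonneg _ h0.ne'
      have h2 : p.2 % 3 ^ (n + k) = q.2 % 3 ^ (n + k) := by
        have := hpq
        dsimp only at this
        omega
      have h5 : (J, p.2) ∈ nodes E a m := by
        have := hp3.1; rwa [← hp3.2, Prod.mk.eta]
      have h6 : (J, q.2) ∈ nodes E a m := by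
        have := hq3.1; rwa [← hq3.2, Prod.mk.eta]
      have h7 := nodes_sep hE hγ0 hγ1 ha hroot (by omega) h5 h6 hN
        (Int.ModEq.dvd (show q.2 ≡ p.2 [ZMOD 3 ^ (n + k)] from h2.symm))
      exact Prod.ext (hp3.2.trans hq3.2.symm) h7
  have hgoodcard : ((lev E a m J).card : ℝ) / 2 ≤ (good.card : ℝ) := by
    have h1 : (bad.card : ℝ) + good.card = (lev E a m J).card := by exact_mod_cast hcard
    have h2 : (bad.card : ℝ) ≤ _ := Nat.cast_le.2 hbadcard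
    linarith
  -- lower bound for the sum
  have hw0 : ∀ a : ℤ, a % 3 = 2 → 0 ≤ w a := fun a h => hwmin0.le.trans (hwmin a h)
  have hφ : ∀ p ∈ nodes E a m, 0 ≤ (L Ec γ)^[n] w p.2 := fun p hp =>
    iter_nonneg n hw0 _ (nodes_mod ha m p hp)
  have hH : (0 : ℝ) ≤ ((2 : ℝ) ^ J / 3 ^ m) ^ (-γ) := by positivity
  have h1 : (good.card : ℝ) * (t * wmin) ≤ ∑ p ∈ lev E a m J, (L Ec γ)^[n] w p.2 := by
    calc (good.card : ℝ) * (t * wmin) = ∑ p ∈ good, t * wmin := by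
          rw [Finset.sum_const, nsmul_eq_mul]
      _ ≤ ∑ p ∈ good, (L Ec γ)^[n] w p.2 := by
          refine Finset.sum_le_sum fun p hp => ?_
          rw [hgooddef, Finset.mem_filter] at hp
          have h2 := hwmin p.2 (hmodS p hp.1)
          have h3 := hp.2
          push Not at h3
          calc t * wmin ≤ t * w p.2 := mul_le_mul_of_nonneg_left h2 ht.le
            _ ≤ _ := h3.le
      _ ≤ _ := Finset.sum_le_sum_of_subset_of_nonneg (Finset.filter_subset _ _)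
          fun p hp _ => hφ p (Finset.mem_filter.1 hp).1
  have h2 := lev_sum_le (E := E) (γ := γ) (a := a) (m := m) (J := J) hφ
  -- upper bound for the sum
  have hwmax0 : 0 ≤ wmax := (hw0 a ha).trans (hwmax a ha)
  have h3 : (L E γ)^[m] ((L Ec γ)^[n] w) a ≤ wmax := by
    calc (L E γ)^[m] ((L Ec γ)^[n] w) a ≤ (L E γ)^[m] ((L E γ)^[n] w) a :=
          iter_mono m (fun b hb => iter_mono_E hEc n hw0 b hb) a ha
      _ = (L E γ)^[m + n] w a := by rw [Function.iterate_add_apply]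
      _ ≤ (L E γ)^[m + n] (fun _ => wmax * 1) a :=
          iter_mono (m + n) (fun b hb => by rw [mul_one]; exact hwmax b hb) a ha
      _ = wmax * (L E γ)^[m + n] (fun _ => 1) a := iter_smul _ _ _ _
      _ ≤ wmax * 1 := mul_le_mul_of_nonneg_left (iter_one_le ha hroot hmn) hwmax0
      _ = wmax := mul_one _
  have htw : 0 ≤ t * wmin := by positivity
  calc ((lev E a m J).card : ℝ) / 2 * ((2 : ℝ) ^ J / 3 ^ m) ^ (-γ) * (t * wmin)
      ≤ (good.card : ℝ) * ((2 : ℝ) ^ J / 3 ^ m) ^ (-γ) * (t * wmin) :=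
        mul_le_mul_of_nonneg_right (mul_le_mul_of_nonneg_right hgoodcard hH) htw
    _ = ((2 : ℝ) ^ J / 3 ^ m) ^ (-γ) * ((good.card : ℝ) * (t * wmin)) := by ring
    _ ≤ ((2 : ℝ) ^ J / 3 ^ m) ^ (-γ) * ∑ p ∈ lev E a m J, (L Ec γ)^[n] w p.2 :=
        mul_le_mul_of_nonneg_left h1 hH
    _ ≤ wmax := h2.trans h3

/-! ### Bounds for periodic functions -/

lemma exists_bounds {k : ℕ} (hk : 1 ≤ k) {w : ℤ → ℝ} (hper : ∀ a : ℤ, w (a + 3 ^ k) = w a)
    (hpos : ∀ a : ℤ, a % 3 = 2 → 0 < w a) :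
    ∃ m M : ℝ, 0 < m ∧ ∀ a : ℤ, a % 3 = 2 → m ≤ w a ∧ w a ≤ M := by
  classical
  set F := (Finset.range (3 ^ k)).filter (fun b : ℕ => b % 3 = 2) with hF
  have h3k : 3 ≤ 3 ^ k := by
    calc 3 = 3 ^ 1 := by norm_num
      _ ≤ 3 ^ k := Nat.pow_le_pow_right (by norm_num) hk
  have hne : F.Nonempty := ⟨2, Finset.mem_filter.2 ⟨Finset.mem_range.2 (by omega), rfl⟩⟩
  obtain ⟨x, hx, hx2⟩ := F.exists_min_image (fun b => w (b : ℤ)) hne
  obtain ⟨y, hy, hy2⟩ := F.exists_max_image (fun b => w (b : ℤ)) hne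
  have hmem : ∀ a : ℤ, a % 3 = 2 → (a % 3 ^ k).toNat ∈ F := by
    intro a ha
    have h0 : (0 : ℤ) < 3 ^ k := by positivity
    have h1 : 0 ≤ a % 3 ^ k := Int.emod_nonneg _ h0.ne'
    have h2 : a % 3 ^ k < 3 ^ k := Int.emod_lt_of_pos _ h0
    have h3 : (3 : ℤ) ∣ 3 ^ k := dvd_pow_self 3 (by omega)
    have h4 : a % 3 ^ k % 3 = a % 3 := Int.emod_emod_of_dvd _ h3
    simp only [hF, Finset.mem_filter, Finset.mem_range]
    refine ⟨?_, by omega⟩
    zify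
    rw [Int.toNat_of_nonneg h1]
    exact h2
  refine ⟨w x, w y, hpos _ ?_, fun a ha => ?_⟩
  · have := (Finset.mem_filter.1 hx).2
    omega
  · have h1 := hx2 _ (hmem a ha)
    have h2 := hy2 _ (hmem a ha)
    rw [per_of_mod hper] at h1 h2
    exact ⟨h1, h2⟩

/-! ### The asymptotic argument -/

open Filter Topology in
lemma exists_large {κ B C : ℝ} (hκ : 1 < κ) (hB : 0 < B) (E : ℕ) :
    ∃ m : ℕ, C ≤ κ ^ m / B / (E * m + 1) := by
  have h1 : Tendsto (fun m : ℕ => (m : ℝ) ^ 1 / κ ^ m) atTop (𝓝 0) :=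
    tendsto_pow_const_div_const_pow_of_one_lt 1 hκ
  have h2 : Tendsto (fun m : ℕ => (m : ℝ) ^ 0 / κ ^ m) atTop (𝓝 0) :=
    tendsto_pow_const_div_const_pow_of_one_lt 0 hκ
  have h3 : Tendsto (fun m : ℕ => |C| * B * E * ((m : ℝ) ^ 1 / κ ^ m) + |C| * B * ((m : ℝ) ^ 0 / κ ^ m))
      atTop (𝓝 (|C| * B * E * 0 + |C| * B * 0)) := (h1.const_mul _).add (h2.const_mul _)
  rw [mul_zero, mul_zero, add_zero] at h3
  obtain ⟨m, hm⟩ := (h3.eventually (gt_mem_nhds (zero_lt_one))).exists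
  refine ⟨m, ?_⟩
  have hκm : 0 < κ ^ m := by positivity
  have hEm : (0 : ℝ) < E * m + 1 := by positivity
  have h4 : |C| * B * E * ((m : ℝ) ^ 1 / κ ^ m) + |C| * B * ((m : ℝ) ^ 0 / κ ^ m)
      = |C| * B * (E * m + 1) / κ ^ m := by field_simp
  rw [h4, div_lt_one hκm] at hm
  rw [div_div, le_div_iff₀ (by positivity)]
  calc C * (B * (E * m + 1)) ≤ |C| * (B * (E * m + 1)) :=
        mul_le_mul_of_nonneg_right (le_abs_self C) (by positivity)
    _ = |C| * B * (E * m + 1) := by ring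
    _ ≤ κ ^ m := hm.le

/-- Step (5) as a hypothesis: few bad classes. -/
def FewBad (γ θ : ℝ) (s k E : ℕ) (w : ℤ → ℝ) (C₀ : ℝ) : Prop :=
  ∀ (n : ℕ) (t : ℝ), 0 < t →
    (((Finset.range (3 ^ (n + k))).filter (fun b : ℕ => b % 3 = 2 ∧
      (L E γ)^[n] w (b : ℤ) ≤ t * w (b : ℤ))).card : ℝ) ≤ C₀ * (t ^ s * ((3 : ℝ) ^ γ * θ) ^ n)

open Filter Topology in
lemma step_aux {γ₀ γ θ A : ℝ} {s k Ec : ℕ} {w : ℤ → ℝ} {C₀ : ℝ} (hEc : 6 ≤ Ec) (hk : 1 ≤ k)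
    (hγ₀ : 0 < γ₀) (hlt : γ₀ < γ) (hγ1 : γ ≤ 1) (hθ : 0 < θ) (hA : 1 < A)
    (h1 : (3 : ℝ) ^ (γ - γ₀) < A) (h2 : (3 : ℝ) ^ (γ - γ₀) * (A ^ s * θ) < 1)
    (hper : ∀ a : ℤ, w (a + 3 ^ k) = w a) (hpos : ∀ a : ℤ, a % 3 = 2 → 0 < w a)
    (hfew : FewBad γ θ s k Ec w C₀)
    (hslack : ∃ (E : ℕ) (B κ : ℝ) (w : ℤ → ℝ), 1 < κ ∧ (∀ a : ℤ, a % 3 = 2 → 1 ≤ w a ∧ w a ≤ B) ∧
      ∀ a : ℤ, a % 3 = 2 → κ * w a ≤ L E γ₀ w a) : Good γ := by
  by_contra hng
  obtain ⟨E₁, B, κ, w₁, hκ, hw₁, hLw₁⟩ := hslack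
  obtain ⟨wmin, wmax, hwmin0, hw⟩ := exists_bounds hk hper hpos
  have hγ0 : 0 < γ := hγ₀.trans hlt
  have hB : 0 < B := by
    have := hw₁ 2 (by norm_num)
    linarith
  have hκ0 : 0 < κ := by linarith
  set E := max Ec E₁ with hE
  have hE6 : 6 ≤ E := hEc.trans (le_max_left _ _)
  set K : ℝ := 1 / (2 * c₁ γ) with hK
  have hc1 := c₁_pos γ
  have hK0 : 0 < K := by positivity
  set D := γ - γ₀ with hD
  have hD0 : 0 < D := by rw [hD]; linarith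
  have h3D : 0 < (3 : ℝ) ^ D := by positivity
  -- choice of `n₀`
  have hq1 : Tendsto (fun n : ℕ => 2 * C₀ * (3 * K) ^ γ₀ * ((3 : ℝ) ^ D * (A ^ s * θ)) ^ n) atTop (𝓝 0) := by
    have := (tendsto_pow_atTop_nhds_zero_of_lt_one (by positivity) h2).const_mul (2 * C₀ * (3 * K) ^ γ₀)
    rwa [mul_zero] at this
  have hq2 : Tendsto (fun n : ℕ => (1 / 2 * wmin * ((3 : ℝ) ^ k / K) ^ (-D)) * (A / (3 : ℝ) ^ D) ^ n) atTop atTop := by
    have h3 : 1 < A / (3 : ℝ) ^ D := by rw [one_lt_div h3D]; exact h1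
    exact (tendsto_pow_atTop_atTop_of_one_lt h3).const_mul_atTop (by positivity)
  obtain ⟨n₀, hn₀⟩ := ((hq1.eventually (gt_mem_nhds (zero_lt_one))).and
    (hq2.eventually_gt_atTop wmax)).exists_forall_of_atTop
  -- choice of `m`
  obtain ⟨m, hm⟩ := exists_large (κ := κ) (B := B) (C := max 1 (((3 : ℝ) ^ (k + n₀) / K) ^ D)) hκ hB E
  set X : ℝ := κ ^ m / B / (E * m + 1) with hX
  have hX1 : 1 ≤ X := (le_max_left _ _).trans hm
  have hX2 : ((3 : ℝ) ^ (k + n₀) / K) ^ D ≤ X := (le_max_right _ _).trans hm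
  -- choice of `M`
  obtain ⟨N₁, hN₁⟩ := pow_unbounded_of_one_lt (3 * K * 2 ^ (E * m)) (show (1 : ℝ) < 3 by norm_num)
  obtain ⟨a, ha, hroot⟩ := exists_root hng E (m + N₁)
  -- many nodes
  have hw₁0 : ∀ a : ℤ, a % 3 = 2 → 0 ≤ w₁ a := fun a h => zero_le_one.trans (hw₁ a h).1
  have hmany : κ ^ m / B ≤ (L E γ₀)^[m] (fun _ => 1) a := by
    have h3 : ∀ n : ℕ, ∀ a : ℤ, a % 3 = 2 → κ ^ n * w₁ a ≤ (L E γ₀)^[n] w₁ a := by
      intro n
      induction n with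
      | zero => intro a _; simp
      | succ n ih =>
        intro a ha
        rw [Function.iterate_succ_apply]
        calc κ ^ (n + 1) * w₁ a = κ * (κ ^ n * w₁ a) := by ring
          _ ≤ κ * (L E γ₀)^[n] w₁ a := mul_le_mul_of_nonneg_left (ih a ha) hκ0.le
          _ = (L E γ₀)^[n] (fun b => κ * w₁ b) a := (iter_smul _ _ _ _).symm
          _ ≤ (L E γ₀)^[n] (L E γ₀ w₁) a := iter_mono n (fun b hb =>
              (hLw₁ b hb).trans (L_mono_E (le_max_right _ _) hw₁0 b)) a ha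
    have h4 := h3 m a ha
    have h5 : (L E γ₀)^[m] w₁ a ≤ B * (L E γ₀)^[m] (fun _ => 1) a := by
      rw [← iter_smul]
      exact iter_mono m (fun b hb => by rw [mul_one]; exact (hw₁ b hb).2) a ha
    rw [div_le_iff₀ hB, mul_comm _ B]
    have h6 : κ ^ m * 1 ≤ κ ^ m * w₁ a := mul_le_mul_of_nonneg_left (hw₁ a ha).1 (by positivity)
    linarith
  obtain ⟨J, hJ, hJ2⟩ := many_nodes hmany
  set H : ℝ := (2 : ℝ) ^ J / 3 ^ m with hH
  have hH0 : 0 < H := by positivity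
  set nJ : ℝ := ((lev E a m J).card : ℝ) with hnJ
  have hnJ1 : X * H ^ γ₀ ≤ nJ := by
    rw [Real.rpow_neg hH0.le, ← div_eq_mul_inv, le_div_iff₀ (by positivity)] at hJ2
    exact hJ2
  have hnJ2 : nJ ≤ H ^ γ := by
    have h3 := lev_sum_le (E := E) (γ := γ) (a := a) (m := m) (J := J) (φ := fun _ => 1)
      (fun _ _ => zero_le_one)
    rw [Finset.sum_const, nsmul_eq_mul, mul_one] at h3
    have h4 := h3.trans (iter_one_le ha hroot (show m ≤ m + N₁ + 1 by omega))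
    rw [Real.rpow_neg hH0.le, inv_mul_le_iff₀ (by positivity), mul_one] at h4
    exact h4
  have hHD : X ≤ H ^ D := by
    rw [hD, Real.rpow_sub hH0, le_div_iff₀ (by positivity)]
    exact hnJ1.trans hnJ2
  have hHbig : (3 : ℝ) ^ (k + n₀) / K ≤ H := by
    have h3 := hX2.trans hHD
    by_contra hcon
    push Not at hcon
    exact absurd h3 (not_le.2 (Real.rpow_lt_rpow hH0.le hcon hD0))
  have hKH : (3 : ℝ) ^ (k + n₀) ≤ K * H := by
    rw [div_le_iff₀ hK0] at hHbig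
    linarith
  have hKH1 : 1 ≤ K * H := (one_le_pow₀ (by norm_num)).trans hKH
  obtain ⟨N', hN', hN''⟩ := exists_nat_pow_near hKH1 (show (1 : ℝ) < 3 by norm_num)
  have hN3 : k + n₀ < N' + 1 := by
    have h3 : (3 : ℝ) ^ (k + n₀) < 3 ^ (N' + 1) := lt_of_le_of_lt hKH hN''
    exact (pow_lt_pow_iff_right₀ (by norm_num)).1 h3
  obtain ⟨n, hn⟩ : ∃ n, n + k = N' + 1 := ⟨N' + 1 - k, by omega⟩
  have hnn₀ : n₀ ≤ n := by omega
  have h3nk : (3 : ℝ) ^ (n + k) ≤ 3 * (K * H) := by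
    rw [hn, pow_succ]; linarith
  have hlt3 : K * H < (3 : ℝ) ^ (n + k) := by rw [hn]; exact hN''
  have h3n : (3 : ℝ) ^ n ≤ 3 * K * H := by
    have : (3 : ℝ) ^ n ≤ 3 ^ (n + k) := pow_le_pow_right₀ (by norm_num) (by omega)
    linarith
  have hnN₁ : n < N₁ := by
    have h4 : H ≤ 2 ^ (E * m) := by
      rw [hH]
      calc (2 : ℝ) ^ J / 3 ^ m ≤ 2 ^ J := div_le_self (by positivity) (one_le_pow₀ (by norm_num))
        _ ≤ 2 ^ (E * m) := pow_le_pow_right₀ (by norm_num) hJ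
    have h5 : (3 : ℝ) ^ n < 3 ^ N₁ := by
      calc (3 : ℝ) ^ n ≤ 3 * K * H := h3n
        _ ≤ 3 * K * 2 ^ (E * m) := mul_le_mul_of_nonneg_left h4 (by positivity)
        _ < _ := hN₁
    exact (pow_lt_pow_iff_right₀ (by norm_num)).1 h5
  obtain ⟨hn1, hn2⟩ := hn₀ n hnn₀
  have hHγ₀ : H ^ γ₀ ≤ nJ := by
    have : 1 * H ^ γ₀ ≤ X * H ^ γ₀ := mul_le_mul_of_nonneg_right hX1 (by positivity)
    linarith
  -- few bad nodes
  have hbad := hfew n (A ^ n) (by positivity)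
  have hbad2 : 2 * (((Finset.range (3 ^ (n + k))).filter (fun b : ℕ => b % 3 = 2 ∧
      (L Ec γ)^[n] w (b : ℤ) ≤ A ^ n * w (b : ℤ))).card : ℝ) ≤ nJ := by
    have h4 : ((3 : ℝ) ^ n / (3 * K)) ^ γ₀ ≤ H ^ γ₀ := by
      refine Real.rpow_le_rpow (by positivity) ?_ hγ₀.le
      rw [div_le_iff₀ (by positivity)]
      linarith
    have h5 : ((3 : ℝ) ^ n / (3 * K)) ^ γ₀ = ((3 : ℝ) ^ γ₀) ^ n / (3 * K) ^ γ₀ := by
      rw [Real.div_rpow (by positivity) (by positivity), ← Real.rpow_natCast, ← Real.rpow_mul (by norm_num),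
        ← Real.rpow_natCast, ← Real.rpow_mul (by norm_num), mul_comm]
    have h6 : (3 : ℝ) ^ γ = (3 : ℝ) ^ γ₀ * (3 : ℝ) ^ D := by
      rw [← Real.rpow_add (by norm_num)]; congr 1; rw [hD]; ring
    have h7 : 2 * (C₀ * ((A ^ n) ^ s * ((3 : ℝ) ^ γ * θ) ^ n))
        = (2 * C₀ * (3 * K) ^ γ₀ * ((3 : ℝ) ^ D * (A ^ s * θ)) ^ n) * (((3 : ℝ) ^ γ₀) ^ n / (3 * K) ^ γ₀) := by
      rw [h6]
      have : (3 * K) ^ γ₀ ≠ 0 := by positivity
      rw [← pow_mul, mul_comm n s, pow_mul]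
      field_simp
      simp only [mul_pow]
      ring
    have h8 : 0 < ((3 : ℝ) ^ γ₀) ^ n / (3 * K) ^ γ₀ := by positivity
    calc _ ≤ 2 * (C₀ * ((A ^ n) ^ s * ((3 : ℝ) ^ γ * θ) ^ n)) := by linarith
      _ = _ := h7
      _ ≤ 1 * (((3 : ℝ) ^ γ₀) ^ n / (3 * K) ^ γ₀) := mul_le_mul_of_nonneg_right hn1.le h8.le
      _ ≤ nJ := by rw [one_mul, ← h5]; exact h4.trans hHγ₀
  have hNN : (2 : ℝ) ^ J / 3 ^ m / (2 * c₁ γ) < 3 ^ (n + k) := by
    rw [← hH, div_eq_mul_one_div, ← hK, mul_comm]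
    exact hlt3
  have hcore := core (t := A ^ n) (M := m + N₁ + 1) hE6 (le_max_left _ _) hk hγ0 hγ1 ha hroot
    (by omega) hper hwmin0 (fun a h => (hw a h).1) (fun a h => (hw a h).2) (by positivity) hNN hbad2
  -- the contradiction
  rw [← hH] at hcore
  have h9 : ((3 : ℝ) ^ k / K) ^ (-D) * (1 / (3 : ℝ) ^ D) ^ n ≤ nJ * H ^ (-γ) := by
    have h10 : H ^ (-D) ≤ nJ * H ^ (-γ) := by
      have : H ^ (-D) = H ^ γ₀ * H ^ (-γ) := by
        rw [← Real.rpow_add hH0]; congr 1; rw [hD]; ring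
      rw [this]
      exact mul_le_mul_of_nonneg_right hHγ₀ (by positivity)
    have h11 : ((3 : ℝ) ^ (n + k) / K) ^ (-D) ≤ H ^ (-D) := by
      refine Real.rpow_le_rpow_of_nonpos hH0 ?_ (by linarith)
      rw [le_div_iff₀ hK0]; linarith
    have h12 : ((3 : ℝ) ^ (n + k) / K) ^ (-D) = ((3 : ℝ) ^ k / K) ^ (-D) * (1 / (3 : ℝ) ^ D) ^ n := by
      rw [pow_add, mul_div_assoc, Real.mul_rpow (by positivity) (by positivity), mul_comm]
      congr 1
      rw [one_div, ← Real.rpow_neg (by norm_num), ← Real.rpow_natCast, ← Real.rpow_mul (by norm_num),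
        ← Real.rpow_natCast, ← Real.rpow_mul (by norm_num), mul_comm]
    rw [← h12]
    exact h11.trans h10
  have h13 : (1 / 2 * wmin * ((3 : ℝ) ^ k / K) ^ (-D)) * (A / (3 : ℝ) ^ D) ^ n
      ≤ nJ / 2 * H ^ (-γ) * (A ^ n * wmin) := by
    have h14 : (A / (3 : ℝ) ^ D) ^ n = A ^ n * (1 / (3 : ℝ) ^ D) ^ n := by
      rw [← mul_pow]; congr 1; ring
    rw [h14]
    have h15 : 0 ≤ A ^ n * wmin / 2 := by positivity
    nlinarith [mul_le_mul_of_nonneg_left h9 h15]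
  linarith

end CollatzExp
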