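import Pool.Agent.CollatzExp.Defs

set_option autoImplicit false

/-!
(T4) From the integer arrays to the real certificate.
-/

namespace CollatzExp

namespace T4

/-- fine index -/
noncomputable def fi (k : ℕ) (x : ℤ) : ℕ := (((x - 2) / 3) % 3 ^ k).toNat

/-- coarse index -/
noncomputable def ci (k : ℕ) (x : ℤ) : ℕ := (((x - 2) / 3) % 3 ^ (k - 1)).toNat

lemma arr_eq (k : ℕ) (W : ℕ → ℕ) (x : ℤ) : arr k W x = (W (ci k x) : ℝ) := rfl

lemma fi_cast (k : ℕ) (x : ℤ) : ((fi k x : ℕ) : ℤ) = ((x - 2) / 3) % 3 ^ k := by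
  unfold fi
  exact Int.toNat_of_nonneg (Int.emod_nonneg _ (by positivity))

lemma ci_cast (k : ℕ) (x : ℤ) : ((ci k x : ℕ) : ℤ) = ((x - 2) / 3) % 3 ^ (k - 1) := by
  unfold ci
  exact Int.toNat_of_nonneg (Int.emod_nonneg _ (by positivity))

lemma fi_lt (k : ℕ) (x : ℤ) : fi k x < 3 ^ k := by
  have h := Int.emod_lt_of_pos ((x - 2) / 3) (show (0 : ℤ) < 3 ^ k by positivity)
  rw [← fi_cast] at h
  exact_mod_cast h

lemma ci_lt (k : ℕ) (x : ℤ) : ci k x < 3 ^ (k - 1) := by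
  have h := Int.emod_lt_of_pos ((x - 2) / 3) (show (0 : ℤ) < 3 ^ (k - 1) by positivity)
  rw [← ci_cast] at h
  exact_mod_cast h

/-- Congruent integers have the same fine index. -/
lemma fi_congr {k : ℕ} {x y : ℤ} (h : (3 : ℤ) ^ (k + 1) ∣ x - y) : fi k x = fi k y := by
  obtain ⟨c, hc⟩ := h
  have hx : (x - 2) / 3 = (y - 2) / 3 + 3 ^ k * c := by
    have : x - 2 = (y - 2) + 3 * (3 ^ k * c) := by
      have : x = y + 3 ^ (k + 1) * c := by linarith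
      rw [this, pow_succ]; ring
    rw [this, Int.add_mul_ediv_left _ _ (by norm_num)]
  unfold fi
  rw [hx, Int.add_mul_emod_self_left]

lemma ci_congr {k : ℕ} (hk : 1 ≤ k) {x y : ℤ} (h : (3 : ℤ) ^ k ∣ x - y) : ci k x = ci k y := by
  obtain ⟨j, rfl⟩ : ∃ j, k = j + 1 := ⟨k - 1, by omega⟩
  have := fi_congr (k := j) h
  exact this

lemma ci_eq_fi_mod {k : ℕ} (hk : 1 ≤ k) (x : ℤ) : ci k x = fi k x % 3 ^ (k - 1) := by
  have h : ((ci k x : ℕ) : ℤ) = ((fi k x % 3 ^ (k - 1) : ℕ) : ℤ) := by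
    push_cast
    rw [ci_cast, fi_cast]
    rw [Int.emod_emod_of_dvd]
    exact pow_dvd_pow _ (by omega)
  exact_mod_cast h

lemma fi_four {k : ℕ} {x : ℤ} (hx : x % 3 = 2) : fi k (4 * x) = (4 * fi k x + 2) % 3 ^ k := by
  have h : ((fi k (4 * x) : ℕ) : ℤ) = (((4 * fi k x + 2) % 3 ^ k : ℕ) : ℤ) := by
    push_cast
    rw [fi_cast, fi_cast]
    have e : (4 * x - 2) / 3 = 4 * ((x - 2) / 3) + 2 := by omega
    rw [e, Int.add_emod, Int.mul_emod]
    conv_rhs => rw [Int.add_emod, Int.mul_emod]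
    simp
  exact_mod_cast h

/-- For `x = 9 u + 2`. -/
lemma fi_two {k : ℕ} (hk : 1 ≤ k) {x : ℤ} (hx : x % 9 = 2) :
    ∃ u, u < 3 ^ (k - 1) ∧ fi k x = 3 * u ∧ ci k (child 2 x) = (4 * u) % 3 ^ (k - 1) := by
  obtain ⟨j, rfl⟩ : ∃ j, k = j + 1 := ⟨k - 1, by omega⟩
  simp only [Nat.add_sub_cancel]
  refine ⟨(((x - 2) / 9) % 3 ^ j).toNat, ?_, ?_, ?_⟩
  · have h := Int.emod_lt_of_pos ((x - 2) / 9) (show (0 : ℤ) < 3 ^ j by positivity)
    have h' := Int.emod_nonneg ((x - 2) / 9) (show (3 : ℤ) ^ j ≠ 0 by positivity)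
    zify
    rw [Int.toNat_of_nonneg h']
    exact_mod_cast h
  · zify
    rw [fi_cast, Int.toNat_of_nonneg (Int.emod_nonneg _ (by positivity))]
    have e : (x - 2) / 3 = 3 * ((x - 2) / 9) := by omega
    rw [e, pow_succ', Int.mul_emod_mul_of_pos _ _ (by norm_num)]
  · zify
    rw [ci_cast, Int.toNat_of_nonneg (Int.emod_nonneg _ (by positivity))]
    have e : (child 2 x - 2) / 3 = 4 * ((x - 2) / 9) := by
      unfold child eps; norm_num; omega
    rw [e]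
    simp only [Nat.add_sub_cancel]
    rw [Int.mul_emod]
    conv_rhs => rw [Int.mul_emod]
    simp

/-- For `x = 9 u + 5`. -/
lemma fi_five {k : ℕ} (hk : 1 ≤ k) {x : ℤ} (hx : x % 9 = 5) :
    ∃ u, u < 3 ^ (k - 1) ∧ fi k x = 3 * u + 1 := by
  obtain ⟨j, rfl⟩ : ∃ j, k = j + 1 := ⟨k - 1, by omega⟩
  simp only [Nat.add_sub_cancel]
  have h1 : (fi (j + 1) x : ℤ) % 3 = 1 := by
    rw [fi_cast, Int.emod_emod_of_dvd _ (dvd_pow_self 3 (by omega))]
    omega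
  have h2 : fi (j + 1) x < 3 ^ j * 3 := by
    have := fi_lt (j + 1) x
    rwa [pow_succ] at this
  refine ⟨fi (j + 1) x / 3, by omega, by omega⟩

/-- For `x = 9 u + 8`. -/
lemma fi_eight {k : ℕ} (hk : 1 ≤ k) {x : ℤ} (hx : x % 9 = 8) :
    ∃ u, u < 3 ^ (k - 1) ∧ fi k x = 3 * u + 2 ∧
      ci k (child 1 x) = (2 * u + 1) % 3 ^ (k - 1) := by
  obtain ⟨j, rfl⟩ : ∃ j, k = j + 1 := ⟨k - 1, by omega⟩
  simp only [Nat.add_sub_cancel]
  refine ⟨(((x - 8) / 9) % 3 ^ j).toNat, ?_, ?_, ?_⟩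
  · have h := Int.emod_lt_of_pos ((x - 8) / 9) (show (0 : ℤ) < 3 ^ j by positivity)
    have h' := Int.emod_nonneg ((x - 8) / 9) (show (3 : ℤ) ^ j ≠ 0 by positivity)
    zify
    rw [Int.toNat_of_nonneg h']
    exact_mod_cast h
  · zify
    rw [fi_cast, Int.toNat_of_nonneg (Int.emod_nonneg _ (by positivity))]
    have e : (x - 2) / 3 = 3 * ((x - 8) / 9) + 2 := by omega
    have hpos : (0 : ℤ) < 3 ^ j := by positivity
    rw [e]
    generalize (x - 8) / 9 = v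
    have hv := Int.emod_add_mul_ediv v (3 ^ j)
    have h0 := Int.emod_nonneg v (show (3 : ℤ) ^ j ≠ 0 by positivity)
    have h1 := Int.emod_lt_of_pos v hpos
    have e2 : 3 * v + 2 = (3 * (v % 3 ^ j) + 2) + 3 ^ (j + 1) * (v / 3 ^ j) := by
      rw [pow_succ]; nlinarith [hv]
    rw [e2, Int.add_mul_emod_self_left]
    apply Int.emod_eq_of_lt
    · omega
    · rw [pow_succ]; omega
  · zify
    rw [ci_cast, Int.toNat_of_nonneg (Int.emod_nonneg _ (by positivity))]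
    have e : (child 1 x - 2) / 3 = 2 * ((x - 8) / 9) + 1 := by
      unfold child eps; norm_num; omega
    rw [e]
    simp only [Nat.add_sub_cancel]
    rw [Int.add_emod, Int.mul_emod]
    conv_rhs => rw [Int.add_emod, Int.mul_emod]
    simp

/-! ### Moves with exponents `2 n + 1` and `2 n + 2` -/

lemma valid_odd (n : ℕ) (x : ℤ) : valid (2 * n + 1) x ↔ valid 1 (4 ^ n * x) := by
  unfold valid eps
  have h1 : (2 * n + 1) % 2 = 1 := by omega
  rw [if_pos h1, if_pos (by norm_num)]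
  have : (2 : ℤ) ^ (2 * n + 1) * x = 2 ^ 1 * (4 ^ n * x) := by
    rw [pow_succ, pow_mul]; ring
  rw [this]

lemma child_odd (n : ℕ) (x : ℤ) : child (2 * n + 1) x = child 1 (4 ^ n * x) := by
  unfold child eps
  have h1 : (2 * n + 1) % 2 = 1 := by omega
  rw [if_pos h1, if_pos (by norm_num)]
  have : (2 : ℤ) ^ (2 * n + 1) * x = 2 ^ 1 * (4 ^ n * x) := by
    rw [pow_succ, pow_mul]; ring
  rw [this]

lemma valid_even (n : ℕ) (x : ℤ) : valid (2 * n + 2) x ↔ valid 2 (4 ^ n * x) := by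
  unfold valid eps
  have h1 : ¬ (2 * n + 2) % 2 = 1 := by omega
  rw [if_neg h1, if_neg (by norm_num)]
  have : (2 : ℤ) ^ (2 * n + 2) * x = 2 ^ 2 * (4 ^ n * x) := by
    rw [pow_add, pow_mul]; ring
  rw [this]

lemma child_even (n : ℕ) (x : ℤ) : child (2 * n + 2) x = child 2 (4 ^ n * x) := by
  unfold child eps
  have h1 : ¬ (2 * n + 2) % 2 = 1 := by omega
  rw [if_neg h1, if_neg (by norm_num)]
  have : (2 : ℤ) ^ (2 * n + 2) * x = 2 ^ 2 * (4 ^ n * x) := by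
    rw [pow_add, pow_mul]; ring
  rw [this]

lemma four_pow_mul_mod {x : ℤ} (hx : x % 3 = 2) (n : ℕ) : (4 ^ n * x) % 3 = 2 := by
  induction n with
  | zero => simpa using hx
  | succ n ih =>
    have e : (4 : ℤ) ^ (n + 1) * x = 4 * (4 ^ n * x) := by rw [pow_succ]; ring
    rw [e]; omega

lemma four_pow_mul_mod' (x : ℤ) (n : ℕ) : (4 ^ n * x) % 3 = x % 3 := by
  induction n with
  | zero => simp
  | succ n ih =>
    have e : (4 : ℤ) ^ (n + 1) * x = 4 * (4 ^ n * x) := by rw [pow_succ]; ring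
    rw [e]; omega

/-- the local gain at `x` -/
noncomputable def cc (a8 a2 : ℝ) (w : ℤ → ℝ) (x : ℤ) : ℝ :=
  (if valid 1 x then a8 * w (child 1 x) else 0) + (if valid 2 x then a2 * w (child 2 x) else 0)

lemma L_two_mul_succ (n : ℕ) (γ : ℝ) (w : ℤ → ℝ) (x : ℤ) :
    L (2 * (n + 1)) γ w x = L (2 * n) γ w x
      + (if valid 1 (4 ^ n * x) then ((3 : ℝ) / 2 ^ (2 * n + 1)) ^ γ * w (child 1 (4 ^ n * x)) else 0)
      + (if valid 2 (4 ^ n * x) then ((3 : ℝ) / 2 ^ (2 * n + 2)) ^ γ * w (child 2 (4 ^ n * x)) else 0)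
      := by
  unfold L
  have e1 : 2 * (n + 1) = (2 * n + 1) + 1 := by ring
  rw [e1, Finset.sum_Icc_succ_top (by omega), Finset.sum_Icc_succ_top (by omega)]
  simp only [← valid_odd, ← child_odd, ← valid_even, ← child_even]

lemma weight_odd {γ ga gb a8 al : ℝ} (hga : ga ≤ γ) (hgb : γ ≤ gb) (hal0 : 0 ≤ al) (h8 : 0 ≤ a8)
    (hA8 : a8 ≤ (3 / 2 : ℝ) ^ ga) (hAL : al ≤ (4 : ℝ) ^ (-gb)) (n : ℕ) :
    al ^ n * a8 ≤ ((3 : ℝ) / 2 ^ (2 * n + 1)) ^ γ := by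
  have e : ((3 : ℝ) / 2 ^ (2 * n + 1)) ^ γ = ((4 : ℝ) ^ (-γ)) ^ n * (3 / 2 : ℝ) ^ γ := by
    have : (3 : ℝ) / 2 ^ (2 * n + 1) = (4 : ℝ)⁻¹ ^ n * (3 / 2) := by
      rw [pow_succ, pow_mul, inv_pow]; norm_num; field_simp
    rw [this, Real.mul_rpow (by positivity) (by norm_num), ← Real.rpow_natCast, ← Real.rpow_mul
      (by norm_num), mul_comm (n : ℝ) γ, Real.rpow_mul (by norm_num), Real.rpow_natCast,
      Real.inv_rpow (by norm_num), Real.rpow_neg (by norm_num)]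
  rw [e]
  apply mul_le_mul _ _ h8 (by positivity)
  · apply pow_le_pow_left₀ hal0
    exact hAL.trans (Real.rpow_le_rpow_of_exponent_le (by norm_num) (by linarith))
  · exact hA8.trans (Real.rpow_le_rpow_of_exponent_le (by norm_num) hga)

lemma weight_even {γ gb a2 al : ℝ} (hgb : γ ≤ gb) (hal0 : 0 ≤ al) (h2 : 0 ≤ a2)
    (hA2 : a2 ≤ (3 / 4 : ℝ) ^ gb) (hAL : al ≤ (4 : ℝ) ^ (-gb)) (n : ℕ) :
    al ^ n * a2 ≤ ((3 : ℝ) / 2 ^ (2 * n + 2)) ^ γ := by
  have e : ((3 : ℝ) / 2 ^ (2 * n + 2)) ^ γ = ((4 : ℝ) ^ (-γ)) ^ n * (3 / 4 : ℝ) ^ γ := by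
    have : (3 : ℝ) / 2 ^ (2 * n + 2) = (4 : ℝ)⁻¹ ^ n * (3 / 4) := by
      rw [pow_add, pow_mul, inv_pow]; norm_num; field_simp
    rw [this, Real.mul_rpow (by positivity) (by norm_num), ← Real.rpow_natCast, ← Real.rpow_mul
      (by norm_num), mul_comm (n : ℝ) γ, Real.rpow_mul (by norm_num), Real.rpow_natCast,
      Real.inv_rpow (by norm_num), Real.rpow_neg (by norm_num)]
  rw [e]
  apply mul_le_mul _ _ h2 (by positivity)
  · apply pow_le_pow_left₀ hal0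
    exact hAL.trans (Real.rpow_le_rpow_of_exponent_le (by norm_num) (by linarith))
  · exact hA2.trans (Real.rpow_le_rpow_of_exponent_ge (by norm_num) (by norm_num) hgb)

lemma sum_cc_le_L {γ ga gb a8 a2 al : ℝ} (hga : ga ≤ γ) (hgb : γ ≤ gb) (hal0 : 0 ≤ al)
    (h8 : 0 ≤ a8) (h2 : 0 ≤ a2)
    (hA8 : a8 ≤ (3 / 2 : ℝ) ^ ga) (hA2 : a2 ≤ (3 / 4 : ℝ) ^ gb) (hAL : al ≤ (4 : ℝ) ^ (-gb))
    {w : ℤ → ℝ} (hw : ∀ x, 0 ≤ w x) (x : ℤ) (n : ℕ) :
    ∑ i ∈ Finset.range n, al ^ i * cc a8 a2 w (4 ^ i * x) ≤ L (2 * n) γ w x := by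
  induction n with
  | zero => simp [L]
  | succ n ih =>
    rw [Finset.sum_range_succ, L_two_mul_succ, add_assoc]
    refine add_le_add ih ?_
    unfold cc
    rw [mul_add]
    apply add_le_add
    · split_ifs
      · rw [← mul_assoc]
        exact mul_le_mul_of_nonneg_right (weight_odd hga hgb hal0 h8 hA8 hAL n) (hw _)
      · simp
    · split_ifs
      · rw [← mul_assoc]
        exact mul_le_mul_of_nonneg_right (weight_even hgb hal0 h2 hA2 hAL n) (hw _)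
      · simp

/-- One step of the lower bound. -/
lemma Q_step {k σ S A8 A2 AL B1 B2 Θ : ℕ} {W G Q H : ℕ → ℕ} (hk : 1 ≤ k) (hS : 0 < S)
    (h : DataOK k σ S A8 A2 AL B1 B2 Θ W G Q H) {x : ℤ} (hx : x % 3 = 2) :
    (Q (fi k x) : ℝ) ≤ cc ((A8 : ℝ) / S) ((A2 : ℝ) / S) (arr k W) x
      + (AL : ℝ) / S * (Q (fi k (4 * x)) : ℝ) := by
  have hS' : (0 : ℝ) < S := by exact_mod_cast hS
  have h9 : x % 9 = 2 ∨ x % 9 = 5 ∨ x % 9 = 8 := by omega
  rw [fi_four hx]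
  unfold cc
  rcases h9 with h9 | h9 | h9
  · obtain ⟨u, hu, hf, hc⟩ := fi_two hk h9
    have v1 : ¬ valid 1 x := by unfold valid eps; norm_num; omega
    have v2 : valid 2 x := by unfold valid eps; norm_num; omega
    rw [if_neg v1, if_pos v2, arr_eq, hc, hf, zero_add]
    have := h.hQ0 u hu
    have h' : (S : ℝ) * Q (3 * u) ≤ A2 * W ((4 * u) % 3 ^ (k - 1))
      + AL * Q ((4 * (3 * u) + 2) % 3 ^ k) := by exact_mod_cast this
    rw [div_mul_eq_mul_div, div_mul_eq_mul_div, ← add_div, le_div_iff₀ hS']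
    linarith
  · obtain ⟨u, hu, hf⟩ := fi_five hk h9
    have v1 : ¬ valid 1 x := by unfold valid eps; norm_num; omega
    have v2 : ¬ valid 2 x := by unfold valid eps; norm_num; omega
    rw [if_neg v1, if_neg v2, hf, zero_add, zero_add]
    have := h.hQ1 u hu
    have h' : (S : ℝ) * Q (3 * u + 1) ≤ AL * Q ((4 * (3 * u + 1) + 2) % 3 ^ k) := by
      exact_mod_cast this
    rw [div_mul_eq_mul_div, le_div_iff₀ hS']
    linarith
  · obtain ⟨u, hu, hf, hc⟩ := fi_eight hk h9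
    have v1 : valid 1 x := by unfold valid eps; norm_num; omega
    have v2 : ¬ valid 2 x := by unfold valid eps; norm_num; omega
    rw [if_pos v1, if_neg v2, arr_eq, hc, hf, add_zero]
    have := h.hQ2 u hu
    have h' : (S : ℝ) * Q (3 * u + 2) ≤ A8 * W ((2 * u + 1) % 3 ^ (k - 1))
      + AL * Q ((4 * (3 * u + 2) + 2) % 3 ^ k) := by exact_mod_cast this
    rw [div_mul_eq_mul_div, div_mul_eq_mul_div, ← add_div, le_div_iff₀ hS']
    linarith

lemma Q_iter {k σ S A8 A2 AL B1 B2 Θ : ℕ} {W G Q H : ℕ → ℕ} (hk : 1 ≤ k) (hS : 0 < S)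
    (h : DataOK k σ S A8 A2 AL B1 B2 Θ W G Q H) {x : ℤ} (hx : x % 3 = 2) (n : ℕ) :
    (Q (fi k x) : ℝ) ≤ ∑ i ∈ Finset.range n, ((AL : ℝ) / S) ^ i *
        cc ((A8 : ℝ) / S) ((A2 : ℝ) / S) (arr k W) (4 ^ i * x)
      + ((AL : ℝ) / S) ^ n * (Q (fi k (4 ^ n * x)) : ℝ) := by
  induction n with
  | zero => simp
  | succ n ih =>
    rw [Finset.sum_range_succ]
    have h1 := Q_step hk hS h (four_pow_mul_mod hx n)
    have h2 := mul_le_mul_of_nonneg_left h1 (show (0 : ℝ) ≤ ((AL : ℝ) / S) ^ n by positivity)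
    have e : (4 : ℤ) * (4 ^ n * x) = 4 ^ (n + 1) * x := by rw [pow_succ]; ring
    rw [e] at h2
    rw [pow_succ ((AL : ℝ) / S) n]
    nlinarith [h2, ih]

/-- One step of the upper bound. -/
lemma H_step {k σ S A8 A2 AL B1 B2 Θ : ℕ} {W G Q H : ℕ → ℕ} (hk : 1 ≤ k) (hS : 0 < S)
    (h : DataOK k σ S A8 A2 AL B1 B2 Θ W G Q H) {x : ℤ} (hx : x % 3 = 2) :
    arr k G (4 * x) * (arr k W (4 * x) / (Q (fi k (4 * x)) : ℝ)) ^ σ
      + (B2 : ℝ) / S * (H (fi k x) : ℝ) ≤ H (fi k (4 * x)) := by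
  have hS' : (0 : ℝ) < S := by exact_mod_cast hS
  have hQ : (0 : ℝ) < Q (fi k (4 * x)) := by exact_mod_cast h.Q_pos _ (fi_lt k _)
  have h1 := h.hH (fi k x) (fi_lt k x) _ (fi_four (k := k) hx)
  rw [← ci_eq_fi_mod hk] at h1
  have h' : (S : ℝ) * G (ci k (4 * x)) * W (ci k (4 * x)) ^ σ
      + B2 * H (fi k x) * Q (fi k (4 * x)) ^ σ ≤ S * H (fi k (4 * x)) * Q (fi k (4 * x)) ^ σ := by
    exact_mod_cast h1
  rw [arr_eq, arr_eq, div_pow]
  have hQσ : (0 : ℝ) < (Q (fi k (4 * x)) : ℝ) ^ σ := by positivity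
  have e : (G (ci k (4 * x)) : ℝ) * ((W (ci k (4 * x)) : ℝ) ^ σ / (Q (fi k (4 * x)) : ℝ) ^ σ)
      + (B2 : ℝ) / S * (H (fi k x) : ℝ)
      = ((S : ℝ) * G (ci k (4 * x)) * W (ci k (4 * x)) ^ σ
      + B2 * H (fi k x) * Q (fi k (4 * x)) ^ σ) / (S * (Q (fi k (4 * x)) : ℝ) ^ σ) := by
    field_simp
  rw [e, div_le_iff₀ (by positivity)]
  linarith

/-! ### Inverses modulo powers of 3 -/

lemma cop4 (k : ℕ) : IsCoprime ((3 : ℤ) ^ k) 4 := by
  apply IsCoprime.pow_left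
  exact ⟨-1, 1, by norm_num⟩

lemma cop2 (k : ℕ) : IsCoprime ((3 : ℤ) ^ k) 2 := by
  apply IsCoprime.pow_left
  exact ⟨1, -1, by norm_num⟩

lemma exists_inv4 (k : ℕ) (y : ℤ) : ∃ z : ℤ, (3 : ℤ) ^ k ∣ 4 * z - y := by
  obtain ⟨u, v, h⟩ := cop4 k
  refine ⟨v * y, -(u * y), ?_⟩
  linear_combination y * h

lemma exists_inv2 (k : ℕ) (y : ℤ) : ∃ z : ℤ, (3 : ℤ) ^ k ∣ 2 * z - y := by
  obtain ⟨u, v, h⟩ := cop2 k
  refine ⟨v * y, -(u * y), ?_⟩
  linear_combination y * h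

lemma mod3_of_dvd {k : ℕ} {x y : ℤ} (h : (3 : ℤ) ^ (k + 1) ∣ x - y) : x % 3 = y % 3 := by
  have : (3 : ℤ) ∣ x - y := (dvd_pow_self 3 (by omega)).trans h
  omega

lemma mod9_of_dvd {k : ℕ} (hk : 1 ≤ k) {x y : ℤ} (h : (3 : ℤ) ^ (k + 1) ∣ x - y) :
    x % 9 = y % 9 := by
  have h2 : (3 : ℤ) ^ 2 ∣ x - y := (pow_dvd_pow 3 (by omega)).trans h
  norm_num at h2
  omega

/-- `u = g (w / Q) ^ σ` -/
noncomputable def uu (k σ : ℕ) (W G Q : ℕ → ℕ) (x : ℤ) : ℝ :=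
  arr k G x * (arr k W x / (Q (fi k x) : ℝ)) ^ σ

lemma uu_congr {k σ : ℕ} (hk : 1 ≤ k) {W G Q : ℕ → ℕ} {x y : ℤ}
    (h : (3 : ℤ) ^ (k + 1) ∣ x - y) : uu k σ W G Q x = uu k σ W G Q y := by
  unfold uu
  rw [arr_eq, arr_eq, arr_eq, arr_eq, fi_congr h,
    ci_congr hk ((pow_dvd_pow 3 (Nat.le_succ k)).trans h)]

lemma uu_nonneg {k σ : ℕ} {W G Q : ℕ → ℕ} (x : ℤ) : 0 ≤ uu k σ W G Q x := by
  unfold uu
  rw [arr_eq, arr_eq]
  positivity

lemma H_iter {k σ S A8 A2 AL B1 B2 Θ : ℕ} {W G Q H : ℕ → ℕ} (hk : 1 ≤ k) (hS : 0 < S)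
    (h : DataOK k σ S A8 A2 AL B1 B2 Θ W G Q H) (n : ℕ) :
    ∀ (y : ℤ) (b : ℕ → ℤ), y % 3 = 2 → (∀ i < n, (3 : ℤ) ^ (k + 1) ∣ 4 ^ i * b i - y) →
    ∑ i ∈ Finset.range n, ((B2 : ℝ) / S) ^ i * uu k σ W G Q (b i) ≤ H (fi k y) := by
  induction n with
  | zero => intro y b _ _; simp
  | succ n ih =>
    intro y b hy hb
    obtain ⟨y', hy'⟩ := exists_inv4 (k + 1) y
    have hy3 : y' % 3 = 2 := by
      have := mod3_of_dvd hy'
      omega
    have h1 := ih y' (fun i => b (i + 1)) hy3 (by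
      intro i hi
      have h2 := hb (i + 1) (by omega)
      have h3 : (3 : ℤ) ^ (k + 1) ∣ 4 * (4 ^ i * b (i + 1) - y') := by
        have := dvd_sub h2 hy'
        have e : 4 ^ (i + 1) * b (i + 1) - y - (4 * y' - y) = 4 * (4 ^ i * b (i + 1) - y') := by
          rw [pow_succ]; ring
        rwa [e] at this
      exact (cop4 (k + 1)).dvd_of_dvd_mul_left h3)
    rw [Finset.sum_range_succ']
    have h0 := hb 0 (by omega)
    have hst := H_step hk hS h hy3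
    have e1 : uu k σ W G Q (b 0) = uu k σ W G Q (4 * y') := by
      apply uu_congr hk
      have := dvd_sub h0 hy'
      have e : 4 ^ 0 * b 0 - y - (4 * y' - y) = b 0 - 4 * y' := by ring
      rwa [e] at this
    have e2 : fi k (4 * y') = fi k y := fi_congr hy'
    have e3 : ∑ i ∈ Finset.range n, ((B2 : ℝ) / S) ^ (i + 1) * uu k σ W G Q (b (i + 1))
        = (B2 : ℝ) / S * ∑ i ∈ Finset.range n, ((B2 : ℝ) / S) ^ i * uu k σ W G Q (b (i + 1)) := by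
      rw [Finset.mul_sum]
      refine Finset.sum_congr rfl fun i _ => ?_
      rw [pow_succ]; ring
    rw [e3, pow_zero, one_mul, e1]
    have h4 := mul_le_mul_of_nonneg_left h1 (show (0 : ℝ) ≤ (B2 : ℝ) / S by positivity)
    rw [← e2]
    have hst' : uu k σ W G Q (4 * y') + (B2 : ℝ) / S * (H (fi k y') : ℝ)
        ≤ H (fi k (4 * y')) := hst
    linarith

/-- The two parents' indices. -/
lemma parents {k : ℕ} (hk : 1 ≤ k) {b x8 x2 : ℤ} (hb : b % 3 = 2)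
    (h8 : (3 : ℤ) ^ (k + 1) ∣ 2 * x8 - (3 * b + 1)) (h2 : (3 : ℤ) ^ (k + 1) ∣ 4 * x2 - (3 * b + 2)) :
    x8 % 3 = 2 ∧ x2 % 3 = 2 ∧ ∃ v, v < 3 ^ (k - 1) ∧ fi k x2 = 3 * v ∧
      fi k x8 = 3 * ((2 * v + (3 ^ (k - 1) - 1) / 2) % 3 ^ (k - 1)) + 2 ∧
      ci k b = (4 * v) % 3 ^ (k - 1) := by
  have m8 : x8 % 9 = 8 := by
    have := mod9_of_dvd hk h8
    omega
  have m2 : x2 % 9 = 2 := by
    have := mod9_of_dvd hk h2
    omega
  refine ⟨by omega, by omega, ?_⟩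
  obtain ⟨v, hv, hv1, hv2⟩ := fi_two hk m2
  obtain ⟨u, hu, hu1, hu2⟩ := fi_eight hk m8
  have c2 : ci k (child 2 x2) = ci k b := by
    apply ci_congr hk
    have e : 3 * (child 2 x2 - b) = 4 * x2 - (3 * b + 2) := by
      unfold child eps; norm_num; omega
    rw [← e, pow_succ, mul_comm] at h2
    exact (mul_dvd_mul_iff_left (by norm_num)).1 h2
  have c8 : ci k (child 1 x8) = ci k b := by
    apply ci_congr hk
    have e : 3 * (child 1 x8 - b) = 2 * x8 - (3 * b + 1) := by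
      unfold child eps; norm_num; omega
    rw [← e, pow_succ, mul_comm] at h8
    exact (mul_dvd_mul_iff_left (by norm_num)).1 h8
  refine ⟨v, hv, hv1, ?_, by rw [← c2, hv2]⟩
  rw [hu1]
  congr 2
  have hN : (3 ^ (k - 1)) % 2 = 1 := by
    rw [Nat.pow_mod]; norm_num
  have hmod : (2 * u + 1) ≡ (4 * v) [MOD 3 ^ (k - 1)] := by
    unfold Nat.ModEq
    rw [← hu2, c8, ← c2, hv2]
  have hmod2 : 2 * u ≡ 2 * (2 * v + (3 ^ (k - 1) - 1) / 2) [MOD 3 ^ (k - 1)] := by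
    have h1 : 2 * u + 1 + (3 ^ (k - 1) - 1) ≡ 4 * v + (3 ^ (k - 1) - 1) [MOD 3 ^ (k - 1)] :=
      hmod.add_right _
    have hp : 1 ≤ 3 ^ (k - 1) := Nat.one_le_pow _ _ (by norm_num)
    have e1 : 2 * u + 1 + (3 ^ (k - 1) - 1) = 2 * u + 3 ^ (k - 1) := by omega
    have e2 : 4 * v + (3 ^ (k - 1) - 1) = 2 * (2 * v + (3 ^ (k - 1) - 1) / 2) := by omega
    rw [e1, e2] at h1
    have h3 : 2 * u + 3 ^ (k - 1) ≡ 2 * u [MOD 3 ^ (k - 1)] := by
      simp [Nat.ModEq]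
    exact h3.symm.trans h1
  have hmod3 : u ≡ 2 * v + (3 ^ (k - 1) - 1) / 2 [MOD 3 ^ (k - 1)] := by
    apply Nat.ModEq.cancel_left_of_coprime _ hmod2
    exact Nat.Coprime.pow_left _ (by norm_num)
  have := hmod3
  unfold Nat.ModEq at this
  rwa [Nat.mod_eq_of_lt hu] at this

lemma sum_split (n : ℕ) (f : ℕ → ℝ) :
    ∑ e ∈ Finset.Icc 1 (2 * n), f e
      = ∑ i ∈ Finset.range n, f (2 * i + 1) + ∑ i ∈ Finset.range n, f (2 * i + 2) := by
  induction n with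
  | zero => simp
  | succ n ih =>
    have e1 : 2 * (n + 1) = (2 * n + 1) + 1 := by ring
    rw [e1, Finset.sum_Icc_succ_top (by omega), Finset.sum_Icc_succ_top (by omega), ih,
      Finset.sum_range_succ, Finset.sum_range_succ]
    ring

lemma bw_odd {γ ga b1 be : ℝ} (hga : ga ≤ γ) (hB1 : (2 : ℝ) ^ (-ga) ≤ b1)
    (hB2 : (4 : ℝ) ^ (-ga) ≤ be) (n : ℕ) :
    (2 : ℝ) ^ (-(γ * ((2 * n + 1 : ℕ) : ℝ))) ≤ b1 * be ^ n := by
  have e : (2 : ℝ) ^ (-(γ * ((2 * n + 1 : ℕ) : ℝ))) = (2 : ℝ) ^ (-γ) * ((4 : ℝ) ^ (-γ)) ^ n := by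
    have h4 : (4 : ℝ) = 2 ^ (2 : ℝ) := by norm_num
    rw [h4, ← Real.rpow_mul (by norm_num), ← Real.rpow_natCast ((2 : ℝ) ^ (2 * -γ)) n,
      ← Real.rpow_mul (by norm_num), ← Real.rpow_add (by norm_num)]
    congr 1
    push_cast; ring
  rw [e]
  apply mul_le_mul _ _ (by positivity) (le_trans (by positivity) hB1)
  · exact (Real.rpow_le_rpow_of_exponent_le (by norm_num) (by linarith)).trans hB1
  · apply pow_le_pow_left₀ (by positivity)
    exact (Real.rpow_le_rpow_of_exponent_le (by norm_num) (by linarith)).trans hB2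

lemma bw_even {γ ga be : ℝ} (hga : ga ≤ γ)
    (hB2 : (4 : ℝ) ^ (-ga) ≤ be) (n : ℕ) :
    (2 : ℝ) ^ (-(γ * ((2 * n + 2 : ℕ) : ℝ))) ≤ be * be ^ n := by
  have e : (2 : ℝ) ^ (-(γ * ((2 * n + 2 : ℕ) : ℝ))) = (4 : ℝ) ^ (-γ) * ((4 : ℝ) ^ (-γ)) ^ n := by
    have h4 : (4 : ℝ) = 2 ^ (2 : ℝ) := by norm_num
    rw [h4, ← Real.rpow_mul (by norm_num), ← Real.rpow_natCast ((2 : ℝ) ^ (2 * -γ)) n,
      ← Real.rpow_mul (by norm_num), ← Real.rpow_add (by norm_num)]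
    congr 1
    push_cast; ring
  rw [e]
  have h1 : (4 : ℝ) ^ (-γ) ≤ be :=
    (Real.rpow_le_rpow_of_exponent_le (by norm_num) (by linarith)).trans hB2
  apply mul_le_mul h1 _ (by positivity) (le_trans (by positivity) hB2)
  · exact pow_le_pow_left₀ (by positivity) h1 _

end T4

open T4 in
/-- (T4) from the integer arrays to the certificate -/
theorem isCert_of_data {k σ S A8 A2 AL B1 B2 Θ : ℕ} {W G Q H : ℕ → ℕ} {ga gb : ℝ}
    (hk : 1 ≤ k) (hσ : 1 ≤ σ) (hS : 0 < S) (h0 : 0 < ga) (hab : ga ≤ gb) (hb : gb ≤ 1)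
    (hA8 : (A8 : ℝ) / S ≤ (3 / 2 : ℝ) ^ ga) (hA2 : (A2 : ℝ) / S ≤ (3 / 4 : ℝ) ^ gb)
    (hAL : (AL : ℝ) / S ≤ (4 : ℝ) ^ (-gb)) (hAL1 : AL < S)
    (hB1 : (2 : ℝ) ^ (-ga) ≤ (B1 : ℝ) / S) (hB2 : (4 : ℝ) ^ (-ga) ≤ (B2 : ℝ) / S)
    (hΘ : Θ < S) (hΘ0 : 0 < Θ)
    (h : DataOK k σ S A8 A2 AL B1 B2 Θ W G Q H) :
    ∃ (E : ℕ) (θ : ℝ), 0 < θ ∧ θ < 1 ∧
      ∀ γ ∈ Set.Icc ga gb, IsCert γ θ (σ - 1) k E (arr k W) (arr k G) := by
  have hS' : (0 : ℝ) < S := by exact_mod_cast hS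
  -- the maximum of Q
  obtain ⟨Qm, hQm⟩ : ∃ Qm : ℕ, ∀ t < 3 ^ k, Q t ≤ Qm :=
    ⟨(Finset.range (3 ^ k)).sup Q, fun t ht => Finset.le_sup (Finset.mem_range.2 ht)⟩
  set al : ℝ := (AL : ℝ) / S with hal
  have hal0 : 0 ≤ al := by positivity
  have hal1 : al < 1 := by
    rw [hal, div_lt_one hS']; exact_mod_cast hAL1
  set th : ℝ := (Θ : ℝ) / S with hth
  have hth0 : 0 < th := by
    have : (0 : ℝ) < Θ := by exact_mod_cast hΘ0
    positivity
  have hth1 : th < 1 := by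
    rw [hth, div_lt_one hS']; exact_mod_cast hΘ
  -- choose I
  have hlim : Filter.Tendsto (fun n : ℕ => th * ((1 - al ^ n * (Qm : ℝ))⁻¹) ^ σ) Filter.atTop
      (nhds (th * ((1 - 0 * (Qm : ℝ))⁻¹) ^ σ)) := by
    have h1 : Filter.Tendsto (fun n : ℕ => al ^ n) Filter.atTop (nhds 0) :=
      tendsto_pow_atTop_nhds_zero_of_lt_one hal0 hal1
    apply Filter.Tendsto.const_mul
    apply Filter.Tendsto.pow
    apply Filter.Tendsto.inv₀ _ (by simp)
    exact (h1.mul_const _).const_sub _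
  have hlim2 : Filter.Tendsto (fun n : ℕ => al ^ n * (Qm : ℝ)) Filter.atTop
      (nhds (0 * (Qm : ℝ))) :=
    (tendsto_pow_atTop_nhds_zero_of_lt_one hal0 hal1).mul_const _
  have ev1 : ∀ᶠ n : ℕ in Filter.atTop, th * ((1 - al ^ n * (Qm : ℝ))⁻¹) ^ σ < 1 :=
    hlim.eventually_lt_const (by simpa using hth1)
  have ev2 : ∀ᶠ n : ℕ in Filter.atTop, al ^ n * (Qm : ℝ) < 1 :=
    hlim2.eventually_lt_const (by simp)
  obtain ⟨I, hI1, hI2, hI3⟩ := (ev1.and (ev2.and (Filter.eventually_ge_atTop 3))).exists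
  set δ : ℝ := al ^ I * (Qm : ℝ) with hδ
  have hδ1 : 0 < 1 - δ := by linarith
  have hδ0 : 0 ≤ δ := by positivity
  refine ⟨2 * I, th * ((1 - δ)⁻¹) ^ σ, by positivity, hI1, ?_⟩
  rintro γ ⟨hγa, hγb⟩
  have hw0 : ∀ x, 0 ≤ arr k W x := fun x => by rw [arr_eq]; positivity
  have hwpos : ∀ x, 0 < arr k W x := fun x => by
    rw [arr_eq]; exact_mod_cast h.W_pos _ (ci_lt k x)
  have hgpos : ∀ x, 0 < arr k G x := fun x => by
    rw [arr_eq]; exact_mod_cast h.G_pos _ (ci_lt k x)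
  have hQpos : ∀ x, (0 : ℝ) < Q (fi k x) := fun x => by exact_mod_cast h.Q_pos _ (fi_lt k x)
  -- lower bound of L
  have hL : ∀ x : ℤ, x % 3 = 2 → (1 - δ) * Q (fi k x) ≤ L (2 * I) γ (arr k W) x := by
    intro x hx
    have h1 := Q_iter hk hS h hx I
    have h2 := sum_cc_le_L hγa hγb hal0 (show (0 : ℝ) ≤ (A8 : ℝ) / S by positivity)
      (show (0 : ℝ) ≤ (A2 : ℝ) / S by positivity) hA8 hA2 hAL hw0 x I
    have h3 : (Q (fi k (4 ^ I * x)) : ℝ) ≤ Qm := by exact_mod_cast hQm _ (fi_lt k _)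
    have h4 : (1 : ℝ) ≤ Q (fi k x) := by exact_mod_cast h.Q_pos _ (fi_lt k x)
    have h5 : al ^ I * (Q (fi k (4 ^ I * x)) : ℝ) ≤ δ := by
      rw [hδ]; exact mul_le_mul_of_nonneg_left h3 (by positivity)
    nlinarith
  refine ⟨by omega, fun a _ => hwpos a, fun a _ => hgpos a, ?_, ?_, ?_⟩
  · intro a
    rw [arr_eq, arr_eq, ci_congr hk (x := a + 3 ^ k) (y := a) (by simp)]
  · intro a
    rw [arr_eq, arr_eq, ci_congr hk (x := a + 3 ^ k) (y := a) (by simp)]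
  · intro b a hb3 ha
    have hσ1 : σ - 1 + 1 = σ := by omega
    rw [hσ1]
    -- each term
    have hterm : ∀ e ∈ Finset.Icc 1 (2 * I),
        (2 : ℝ) ^ (-(γ * (e : ℝ))) * (arr k W (a e) / L (2 * I) γ (arr k W) (a e)) ^ σ
          * arr k G (a e) ≤ (2 : ℝ) ^ (-(γ * (e : ℝ))) *
            (((1 - δ)⁻¹) ^ σ * uu k σ W G Q (a e)) := by
      intro e he
      have hd := ha e he
      have h3 : (a e) % 3 = 2 := by
        have h3d : (3 : ℤ) ∣ 2 ^ e * a e - (3 * b + eps e) :=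
          (dvd_pow_self 3 (by omega)).trans hd
        rcases Nat.even_or_odd' e with ⟨c, rfl | rfl⟩
        · have he' : eps (2 * c) = 2 := by unfold eps; rw [if_neg (by omega)]
          rw [he', pow_mul] at h3d
          have := four_pow_mul_mod' (a (2 * c)) c
          norm_num at h3d
          omega
        · have he' : eps (2 * c + 1) = 1 := by unfold eps; rw [if_pos (by omega)]
          have e2 : (2 : ℤ) ^ (2 * c + 1) * a (2 * c + 1) = 2 * (4 ^ c * a (2 * c + 1)) := by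
            rw [pow_succ, pow_mul]; ring
          rw [he', e2] at h3d
          have := four_pow_mul_mod' (a (2 * c + 1)) c
          omega
      have hLx := hL (a e) h3
      have hLpos : 0 < (1 - δ) * (Q (fi k (a e)) : ℝ) := mul_pos hδ1 (hQpos _)
      rw [mul_assoc]
      apply mul_le_mul_of_nonneg_left _ (by positivity)
      unfold uu
      have h1 : arr k W (a e) / L (2 * I) γ (arr k W) (a e)
          ≤ (1 - δ)⁻¹ * (arr k W (a e) / (Q (fi k (a e)) : ℝ)) := by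
        have e1 : (1 - δ)⁻¹ * (arr k W (a e) / (Q (fi k (a e)) : ℝ))
            = arr k W (a e) / ((1 - δ) * (Q (fi k (a e)) : ℝ)) := by
          field_simp
        rw [e1]
        exact div_le_div_of_nonneg_left (hw0 _) hLpos hLx
      have h2 : (arr k W (a e) / L (2 * I) γ (arr k W) (a e)) ^ σ
          ≤ ((1 - δ)⁻¹ * (arr k W (a e) / (Q (fi k (a e)) : ℝ))) ^ σ :=
        pow_le_pow_left₀ (div_nonneg (hw0 _) (hLpos.le.trans hLx)) h1 σ
      rw [mul_pow] at h2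
      calc (arr k W (a e) / L (2 * I) γ (arr k W) (a e)) ^ σ * arr k G (a e)
          ≤ (((1 - δ)⁻¹) ^ σ * (arr k W (a e) / (Q (fi k (a e)) : ℝ)) ^ σ) * arr k G (a e) :=
            mul_le_mul_of_nonneg_right h2 (hgpos _).le
        _ = _ := by ring
    refine (Finset.sum_le_sum hterm).trans ?_
    rw [sum_split]
    obtain ⟨x8, hx8⟩ := exists_inv2 (k + 1) (3 * b + 1)
    obtain ⟨x2, hx2⟩ := exists_inv4 (k + 1) (3 * b + 2)
    obtain ⟨m8, m2, v, hv, hf2, hf8, hcb⟩ := parents hk hb3 hx8 hx2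
    have s8 := H_iter hk hS h I x8 (fun i => a (2 * i + 1)) m8 (by
      intro i hi
      have hd := ha (2 * i + 1) (Finset.mem_Icc.2 ⟨by omega, by omega⟩)
      have he : eps (2 * i + 1) = 1 := by unfold eps; rw [if_pos (by omega)]
      rw [he] at hd
      have h2 := dvd_sub hd hx8
      have e : (2 : ℤ) ^ (2 * i + 1) * a (2 * i + 1) - (3 * b + 1) - (2 * x8 - (3 * b + 1))
          = 2 * (4 ^ i * a (2 * i + 1) - x8) := by
        rw [pow_succ, pow_mul]; ring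
      rw [e] at h2
      exact (cop2 (k + 1)).dvd_of_dvd_mul_left h2)
    have s2 := H_iter hk hS h I x2 (fun i => a (2 * i + 2)) m2 (by
      intro i hi
      have hd := ha (2 * i + 2) (Finset.mem_Icc.2 ⟨by omega, by omega⟩)
      have he : eps (2 * i + 2) = 2 := by unfold eps; rw [if_neg (by omega)]
      rw [he] at hd
      have h2 := dvd_sub hd hx2
      have e : (2 : ℤ) ^ (2 * i + 2) * a (2 * i + 2) - (3 * b + 2) - (4 * x2 - (3 * b + 2))
          = 4 * (4 ^ i * a (2 * i + 2) - x2) := by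
        rw [pow_add, pow_mul]; ring
      rw [e] at h2
      exact (cop4 (k + 1)).dvd_of_dvd_mul_left h2)
    set D : ℝ := ((1 - δ)⁻¹) ^ σ with hD
    have hD0 : 0 ≤ D := by positivity
    have t8 : ∑ i ∈ Finset.range I, (2 : ℝ) ^ (-(γ * ((2 * i + 1 : ℕ) : ℝ))) *
        (D * uu k σ W G Q (a (2 * i + 1))) ≤ D * ((B1 : ℝ) / S * H (fi k x8)) := by
      calc _ ≤ ∑ i ∈ Finset.range I, D * ((B1 : ℝ) / S *
              (((B2 : ℝ) / S) ^ i * uu k σ W G Q (a (2 * i + 1)))) := by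
            refine Finset.sum_le_sum fun i _ => ?_
            have h1 := bw_odd hγa hB1 hB2 i
            have h2 : 0 ≤ D * uu k σ W G Q (a (2 * i + 1)) := mul_nonneg hD0 (uu_nonneg _)
            calc _ ≤ ((B1 : ℝ) / S * ((B2 : ℝ) / S) ^ i) * (D * uu k σ W G Q (a (2 * i + 1))) :=
                  mul_le_mul_of_nonneg_right h1 h2
              _ = _ := by ring
        _ = D * ((B1 : ℝ) / S * ∑ i ∈ Finset.range I,
              (((B2 : ℝ) / S) ^ i * uu k σ W G Q (a (2 * i + 1)))) := by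
            rw [Finset.mul_sum, Finset.mul_sum]
        _ ≤ _ := by
            apply mul_le_mul_of_nonneg_left _ hD0
            exact mul_le_mul_of_nonneg_left s8 (by positivity)
    have t2 : ∑ i ∈ Finset.range I, (2 : ℝ) ^ (-(γ * ((2 * i + 2 : ℕ) : ℝ))) *
        (D * uu k σ W G Q (a (2 * i + 2))) ≤ D * ((B2 : ℝ) / S * H (fi k x2)) := by
      calc _ ≤ ∑ i ∈ Finset.range I, D * ((B2 : ℝ) / S *
              (((B2 : ℝ) / S) ^ i * uu k σ W G Q (a (2 * i + 2)))) := by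
            refine Finset.sum_le_sum fun i _ => ?_
            have h1 := bw_even hγa hB2 i
            have h2 : 0 ≤ D * uu k σ W G Q (a (2 * i + 2)) := mul_nonneg hD0 (uu_nonneg _)
            calc _ ≤ ((B2 : ℝ) / S * ((B2 : ℝ) / S) ^ i) * (D * uu k σ W G Q (a (2 * i + 2))) :=
                  mul_le_mul_of_nonneg_right h1 h2
              _ = _ := by ring
        _ = D * ((B2 : ℝ) / S * ∑ i ∈ Finset.range I,
              (((B2 : ℝ) / S) ^ i * uu k σ W G Q (a (2 * i + 2)))) := by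
            rw [Finset.mul_sum, Finset.mul_sum]
        _ ≤ _ := by
            apply mul_le_mul_of_nonneg_left _ hD0
            exact mul_le_mul_of_nonneg_left s2 (by positivity)
    have hGv := h.hG v hv
    rw [← hf8, ← hf2, ← hcb] at hGv
    have hGv' : (B1 : ℝ) * H (fi k x8) + B2 * H (fi k x2) ≤ Θ * G (ci k b) := by
      exact_mod_cast hGv
    refine (add_le_add t8 t2).trans ?_
    rw [arr_eq]
    have e1 : D * ((B1 : ℝ) / S * H (fi k x8)) + D * ((B2 : ℝ) / S * H (fi k x2))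
        = D * (((B1 : ℝ) * H (fi k x8) + B2 * H (fi k x2)) / S) := by
      field_simp
    have e2 : th * D * (G (ci k b) : ℝ) = D * (((Θ : ℝ) * G (ci k b)) / S) := by
      rw [hth]; field_simp
    rw [e1, e2]
    apply mul_le_mul_of_nonneg_left _ hD0
    exact div_le_div_of_nonneg_right hGv' hS'.le

end CollatzExp
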