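set_option autoImplicit false

/-!
Checker for the integer inequalities of `CollatzExp.DataOK`, written with a few operations on
big natural numbers that pack many fields, so that the kernel evaluates it fast.

The certificate is stored in two trees of numbers, each number packing `L` records of `wr` bits,
a record being `Q t + 2 ^ wq * H t` (fine classes) or `W t + 2 ^ wq * G t` (coarse classes).
The soundness proof is in `T5Sound`.
-/

namespace CollatzExp
namespace T5

/-- The parameters of a certificate: `n` coarse blocks and `3 n` fine blocks of `L ≤ 2 ^ J` records,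
records of `wr = wq + wh` bits, constants `kp`, `v0`, `cf` of the power loop, and the constants of
`DataOK`. -/
structure Par where
  n : Nat
  L : Nat
  J : Nat
  wr : Nat
  wq : Nat
  wh : Nat
  kp : Nat
  v0 : Nat
  cf : Nat
  A8 : Nat
  A2 : Nat
  AL : Nat
  B1 : Nat
  B2 : Nat
  Th : Nat

/-- Binary trees of numbers. -/
inductive Tree where
  | leaf (n : Nat) : Tree
  | node (l r : Tree) : Tree

/-- The leaf selected by the binary digits of `i`, lowest digit first. -/
noncomputable def Tree.get (t : Tree) : Nat → Nat :=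
  Tree.rec (motive := fun _ => Nat → Nat) (fun n _ => n)
    (fun _ _ fl fr i => Bool.rec (fl (Nat.div i 2)) (fr (Nat.div i 2)) (Nat.beq (Nat.mod i 2) 1)) t

/-- Block `i` (modulo `n`) of the array stored in `t`, the blocks having `b` bits. -/
noncomputable def blk (t : Tree) (n b i : Nat) : Nat :=
  Nat.mod (t.get (Nat.mod i n)) (Nat.pow 2 b)

/-- The blocks `c`, ..., `c + m - 1` side by side. -/
noncomputable def win (t : Tree) (n b c m : Nat) : Nat :=
  Nat.rec (motive := fun _ => Nat) 0
    (fun i ih => Nat.add ih (Nat.shiftLeft (blk t n b (Nat.add c i)) (Nat.mul b i))) m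

/-- The number `c` repeated in `n` fields of `a` bits. -/
noncomputable def rep (a n c : Nat) : Nat :=
  Nat.mul c (Nat.div (Nat.sub (Nat.pow 2 (Nat.mul a n)) 1) (Nat.sub (Nat.pow 2 a) 1))

/-- From fields at distance `a` to fields at distance `b`, by merging neighbours `J` times.
Needs `2 * b ≤ a`. -/
noncomputable def gathA (a b J x : Nat) : Nat :=
  Nat.rec (motive := fun _ => Nat) x
    (fun j ih => Nat.land
      (Nat.add ih (Nat.shiftRight ih (Nat.mul (Nat.sub a b) (Nat.pow 2 j))))
      (rep (Nat.mul (Nat.mul a (Nat.pow 2 j)) 2) (Nat.pow 2 (Nat.sub J (Nat.succ j)))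
        (Nat.sub (Nat.pow 2 (Nat.mul (Nat.mul b (Nat.pow 2 j)) 2)) 1))) J

/-- From fields at distance `a` to fields at distance `b`, by merging neighbours `J` times.
Needs `b ≤ a`. -/
noncomputable def gathB (a b J x : Nat) : Nat :=
  Nat.rec (motive := fun _ => Nat) x
    (fun j ih => (fun A => Nat.add (Nat.land ih A)
        (Nat.shiftLeft (Nat.land (Nat.shiftRight ih (Nat.mul a (Nat.pow 2 j))) A)
          (Nat.mul b (Nat.pow 2 j))))
      (rep (Nat.mul (Nat.mul a (Nat.pow 2 j)) 2) (Nat.pow 2 (Nat.sub J (Nat.succ j)))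
        (Nat.sub (Nat.pow 2 (Nat.mul b (Nat.pow 2 j))) 1))) J

/-- The records number `o`, `o + s`, `o + 2 s`, ... of `x`, in `L` fields at distance `wr * s`. -/
noncomputable def sel (P : Par) (s o x : Nat) : Nat :=
  Nat.land (Nat.shiftRight x (Nat.mul P.wr o))
    (rep (Nat.mul P.wr s) P.L (Nat.sub (Nat.pow 2 P.wr) 1))

/-- The same records in fields of 64 bits, for `s ≥ 4`. -/
noncomputable def getA (P : Par) (s o x : Nat) : Nat := gathA (Nat.mul P.wr s) 64 P.J (sel P s o x)

/-- The same records in fields of 64 bits, for `s ≥ 2`. -/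
noncomputable def getB (P : Par) (s o x : Nat) : Nat := gathB (Nat.mul P.wr s) 64 P.J (sel P s o x)

/-- The low `wq` bits of all fields. -/
noncomputable def lo (P : Par) (w x : Nat) : Nat :=
  Nat.land x (rep w P.L (Nat.sub (Nat.pow 2 P.wq) 1))

/-- The next `wh` bits of all fields. -/
noncomputable def hi (P : Par) (w x : Nat) : Nat :=
  Nat.land (Nat.shiftRight x P.wq) (rep w P.L (Nat.sub (Nat.pow 2 P.wh) 1))

/-- All fields of `x` are at most the corresponding fields of `y` (fields of `w` bits, the top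
bits being zero). -/
noncomputable def leAll (w L x y : Nat) : Bool :=
  (fun g => Nat.beq (Nat.land (Nat.sub (Nat.add y g) x) g) g)
    (rep w L (Nat.pow 2 (Nat.sub w 1)))

/-- One step of the power loop. `P` is multiplied by `1 + a / 2 ^ 24` and `V` by `1 + b / 2 ^ 24` in
those fields where this keeps `P` at most `wk`. -/
noncomputable def stepK (L wk a b : Nat) (k : Nat → Nat → Bool) (P V : Nat) : Bool :=
  (fun d =>
    (fun s =>
      (fun m => k (Nat.add P (Nat.land d m))
          (Nat.add (Nat.add V (Nat.land (Nat.shiftRight (Nat.mul b V) 24) m)) s))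
        (Nat.mul 1099511627775 s))
      (Nat.land
        (Nat.shiftRight
          (Nat.sub (Nat.add wk (rep 64 L 9223372036854775808)) (Nat.add P d)) 63)
        (rep 64 L 1)))
    (Nat.land (Nat.shiftRight (Nat.mul a P) 24) (rep 64 L 1099511627775))

/-- The last step of the power loop, applied to all fields. -/
noncomputable def stepZ (L a b : Nat) (k : Nat → Nat → Bool) (P V : Nat) : Bool :=
  k (Nat.add P (Nat.land (Nat.shiftRight (Nat.mul a P) 24) (rep 64 L 1099511627775)))
    (Nat.add (Nat.add V
      (Nat.land (Nat.shiftRight (Nat.mul b V) 24) (rep 64 L 1099511627775))) (rep 64 L 1))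

/-- The power loop. -/
noncomputable def loopK (L wk : Nat) (fin : Nat → Nat → Bool) (cs : List (Prod Nat Nat)) :
    Nat → Nat → Bool :=
  List.rec (motive := fun _ => Nat → Nat → Bool) fin
    (fun ab _ ih P V => stepK L wk ab.1 ab.2 ih P V) cs

/-- The constants of the power loop: `(2 ^ (1 / 2 ^ l) - 1) * 2 ^ 24` rounded up, and the
corresponding constant for the twelfth power. -/
def consts : List (Prod Nat Nat) :=
  [(6949351, 1056964931), (3174369, 117440542), (1518468, 30675924), (742791, 11438590),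
   (367374, 4980154), (182693, 2328502), (91100, 1126447), (45489, 554083),
   (22730, 274802), (11362, 136853), (5681, 68300), (2841, 34124),
   (1421, 17060), (711, 8534), (356, 4273), (178, 2137)]

/-- The check behind `hH`: `wg`, `qx`: the records of `x` (coarse and fine), `qt` that of `t`. -/
noncomputable def chkH (P : Par) (wg qx qt : Nat) : Bool :=
  (fun wk =>
    loopK P.L wk
      (stepZ P.L 190 2281 (fun Pf Vf =>
        Bool.rec false
          (leAll 64 P.L (Nat.add (Nat.mul P.cf Vf) (Nat.mul P.B2 (hi P 64 qt)))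
            (Nat.mul 1073741824 (hi P 64 qx)))
          (leAll 64 P.L wk Pf)))
      consts (Nat.mul P.kp (lo P 64 qx)) (Nat.mul P.v0 (hi P 64 wg)))
    (Nat.mul 16384 (lo P 64 wg))

/-- Conjunction. -/
noncomputable def band (x y : Bool) : Bool := Bool.rec false y x

/-- All checks on the records. -/
noncomputable def chkAll (P : Par) (q0 q1 q2 x0 x1 x2 w0 w1 w2 w4 v2 h6 g : Nat) : Bool :=
  band (leAll 64 P.L (Nat.mul 1073741824 (lo P 64 q0))
      (Nat.add (Nat.mul P.A2 (lo P 64 w4)) (Nat.mul P.AL (lo P 64 x0)))) <|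
  band (leAll 64 P.L (Nat.mul 1073741824 (lo P 64 q1)) (Nat.mul P.AL (lo P 64 x1))) <|
  band (leAll 64 P.L (Nat.mul 1073741824 (lo P 64 q2))
      (Nat.add (Nat.mul P.A8 (lo P 64 v2)) (Nat.mul P.AL (lo P 64 x2)))) <|
  band (leAll 64 P.L (Nat.add (Nat.mul P.B1 (hi P 64 h6)) (Nat.mul P.B2 (hi P 64 q0)))
      (Nat.mul P.Th (hi P 64 w4))) <|
  band (leAll 64 P.L (rep 64 P.L 1) (lo P 64 q0)) <|
  band (leAll 64 P.L (rep 64 P.L 1) (lo P 64 q1)) <|
  band (leAll 64 P.L (rep 64 P.L 1) (lo P 64 q2)) <|
  band (leAll P.wr P.L (rep P.wr P.L 1) (lo P P.wr g)) <|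
  band (leAll P.wr P.L (rep P.wr P.L 1) (hi P P.wr g)) <|
  band (chkH P w0 x0 q0) <|
  band (chkH P w1 x1 q1) (chkH P w2 x2 q2)

/-- The checks for the coarse block `c`. `TW` has `n` blocks and `TQ` has `3 n` blocks; all blocks
have `L ≤ 2 ^ J` records. -/
noncomputable def chkBlk (P : Par) (TW TQ : Tree) (c : Nat) : Bool :=
  (fun n3 b =>
    (fun X3 X12 W12 =>
      chkAll P
        (getB P 3 0 X3) (getB P 3 1 X3) (getB P 3 2 X3)
        (getA P 12 2 X12) (getA P 12 6 X12) (getA P 12 10 X12)
        (getA P 12 2 W12) (getA P 12 6 W12) (getA P 12 10 W12)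
        (getA P 4 0 (win TW P.n b (Nat.mul 4 c) 4))
        (getB P 2 1 (win TW P.n b (Nat.mul 2 c) 2))
        (getA P 6 (Nat.div (Nat.add P.L 1) 2)
          (win TQ n3 b (Nat.add (Nat.mul 6 c) (Nat.div (Nat.sub n3 1) 2)) 7))
        (blk TW P.n b c))
      (win TQ n3 b (Nat.mul 3 c) 3)
      (win TQ n3 b (Nat.mul 12 c) 12)
      (win TW P.n b (Nat.mul 12 c) 12))
    (Nat.mul 3 P.n) (Nat.mul P.wr P.L)

/-- The checks for the coarse blocks `c`, ..., `c + m - 1`. -/
noncomputable def chkRange (P : Par) (TW TQ : Tree) (c m : Nat) : Bool :=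
  Nat.rec (motive := fun _ => Bool) true
    (fun i ih => band ih (chkBlk P TW TQ (Nat.add c i))) m

end T5
end CollatzExp
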