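import Mathlib

set_option autoImplicit false

/-!
Numbers that pack many fields.
-/

namespace CollatzExp
namespace T5

/-- `n` fields of `a` bits, the field `i` holding `f i`. -/
def pack (a : ℕ) (f : ℕ → ℕ) : ℕ → ℕ
  | 0 => 0
  | n + 1 => pack a f n + 2 ^ (a * n) * f n

theorem pack_lt {a : ℕ} {f : ℕ → ℕ} {n : ℕ} (hf : ∀ i < n, f i < 2 ^ a) : pack a f n < 2 ^ (a * n) := by
  induction n with
  | zero => simp [pack]
  | succ n ih =>
    have h1 := ih (fun i hi => hf i (by omega))
    have h2 := hf n (by omega)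
    rw [pack, mul_add, mul_one, pow_add]
    have : 2 ^ (a * n) * f n + 2 ^ (a * n) ≤ 2 ^ (a * n) * 2 ^ a := by
      rw [← Nat.mul_succ]
      exact Nat.mul_le_mul_left _ h2
    omega

theorem pack_congr {a : ℕ} {f g : ℕ → ℕ} {n : ℕ} (h : ∀ i < n, f i = g i) : pack a f n = pack a g n := by
  induction n with
  | zero => rfl
  | succ n ih => rw [pack, pack, ih (fun i hi => h i (by omega)), h n (by omega)]

theorem testBit_pack {a : ℕ} {f : ℕ → ℕ} {n : ℕ} (ha : 0 < a) (hf : ∀ i < n, f i < 2 ^ a) (p : ℕ) :
    (pack a f n).testBit p = (decide (p / a < n) && (f (p / a)).testBit (p % a)) := by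
  induction n with
  | zero => simp [pack]
  | succ n ih =>
    have h1 := pack_lt (n := n) (fun i hi => hf i (by omega))
    have h2 := ih (fun i hi => hf i (by omega))
    rw [pack, add_comm, Nat.testBit_two_pow_mul_add _ h1, h2]
    by_cases hp : p < a * n
    · have h3 : p / a < n := (Nat.div_lt_iff_lt_mul ha).2 (by rw [mul_comm]; exact hp)
      have h4 : p / a < n + 1 := by omega
      simp [hp, h3, h4]
    · have h5 : n ≤ p / a := (Nat.le_div_iff_mul_le ha).2 (by rw [mul_comm]; omega)
      rw [if_neg hp]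
      by_cases h6 : p / a = n
      · have h7 : p - a * n = p % a := by
          have := Nat.div_add_mod p a
          rw [h6] at this
          omega
        rw [h7, h6]; simp
      · have h8 : ¬ (p / a < n + 1) := by omega
        have h9 : a * (n + 1) ≤ p := by
          have : n + 1 ≤ p / a := by omega
          have := (Nat.le_div_iff_mul_le ha).1 this
          rw [mul_comm]; exact this
        simp only [h8, decide_false, Bool.false_and]
        apply Nat.testBit_lt_two_pow
        calc f n < 2 ^ a := hf n (by omega)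
          _ ≤ 2 ^ (p - a * n) := Nat.pow_le_pow_right (by norm_num) (by
            rw [mul_add, mul_one] at h9; omega)

theorem pack_add (a : ℕ) (f g : ℕ → ℕ) (n : ℕ) :
    pack a f n + pack a g n = pack a (fun i => f i + g i) n := by
  induction n with
  | zero => rfl
  | succ n ih => rw [pack, pack, pack, ← ih]; ring

theorem mul_pack (a c : ℕ) (f : ℕ → ℕ) (n : ℕ) : c * pack a f n = pack a (fun i => c * f i) n := by
  induction n with
  | zero => rfl
  | succ n ih => rw [pack, pack, ← ih]; ring

theorem pack_sub (a : ℕ) (f g : ℕ → ℕ) (n : ℕ) (h : ∀ i < n, g i ≤ f i) :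
    pack a f n - pack a g n = pack a (fun i => f i - g i) n := by
  have : pack a f n = pack a g n + pack a (fun i => f i - g i) n := by
    rw [pack_add]
    exact pack_congr (fun i hi => by have := h i hi; omega)
  omega

theorem pack_land {a : ℕ} (ha : 0 < a) {f g : ℕ → ℕ} {n : ℕ} (hf : ∀ i < n, f i < 2 ^ a)
    (hg : ∀ i < n, g i < 2 ^ a) :
    Nat.land (pack a f n) (pack a g n) = pack a (fun i => Nat.land (f i) (g i)) n := by
  change (pack a f n) &&& (pack a g n) = pack a (fun i => (f i) &&& (g i)) n
  apply Nat.eq_of_testBit_eq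
  intro p
  rw [Nat.testBit_and, testBit_pack ha hf, testBit_pack ha hg, testBit_pack ha (fun i hi => by
    exact lt_of_le_of_lt Nat.and_le_left (hf i hi))]
  rw [Nat.testBit_and]
  by_cases h : p / a < n <;> simp [h]

theorem pack_shiftRight_land {a e : ℕ} (hea : e < a) {f g : ℕ → ℕ} {n : ℕ}
    (hf : ∀ i < n, f i < 2 ^ a) (hg : ∀ i < n, g i < 2 ^ (a - e)) :
    Nat.land (Nat.shiftRight (pack a f n) e) (pack a g n) =
      pack a (fun i => Nat.land (Nat.shiftRight (f i) e) (g i)) n := by
  change (pack a f n >>> e) &&& (pack a g n) = pack a (fun i => (f i >>> e) &&& (g i)) n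
  have ha : 0 < a := by omega
  have hga : ∀ i < n, g i < 2 ^ a := fun i hi =>
    lt_of_lt_of_le (hg i hi) (Nat.pow_le_pow_right (by norm_num) (by omega))
  apply Nat.eq_of_testBit_eq
  intro p
  rw [Nat.testBit_and, Nat.testBit_shiftRight, testBit_pack ha hf, testBit_pack ha hga,
    testBit_pack ha (fun i hi => lt_of_le_of_lt Nat.and_le_right (hga i hi)),
    Nat.testBit_and, Nat.testBit_shiftRight]
  by_cases h : p / a < n
  · by_cases h2 : p % a < a - e
    · have h3 : (e + p) / a = p / a := by
        have := Nat.div_add_mod p a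
        rw [show e + p = (e + p % a) + a * (p / a) by omega, Nat.add_mul_div_left _ _ ha,
          Nat.div_eq_of_lt (by omega)]
        omega
      have h4 : (e + p) % a = e + p % a := by
        have := Nat.div_add_mod p a
        have h5 := Nat.div_add_mod (e + p) a
        rw [h3] at h5
        omega
      rw [h3, h4]
      simp [h]
    · have h5 : (g (p / a)).testBit (p % a) = false := by
        apply Nat.testBit_lt_two_pow
        exact lt_of_lt_of_le (hg _ h) (Nat.pow_le_pow_right (by norm_num) (by omega))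
      rw [h5]; simp
  · simp [h]

/-- Keeping only the even fields. -/
theorem pack_land_even {a : ℕ} (ha : 0 < a) {f g : ℕ → ℕ} {n : ℕ} (hf : ∀ i < 2 * n, f i < 2 ^ a)
    (hg : ∀ i < n, g i < 2 ^ a) :
    Nat.land (pack a f (2 * n)) (pack (a * 2) g n) =
      pack (a * 2) (fun i => Nat.land (f (2 * i)) (g i)) n := by
  change (pack a f (2 * n)) &&& (pack (a * 2) g n) = pack (a * 2) (fun i => (f (2 * i)) &&& (g i)) n
  have h22 : 2 ^ a ≤ 2 ^ (a * 2) := Nat.pow_le_pow_right (by norm_num) (by omega)
  have hg2 : ∀ i < n, g i < 2 ^ (a * 2) := fun i hi => lt_of_lt_of_le (hg i hi) h22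
  apply Nat.eq_of_testBit_eq
  intro p
  rw [Nat.testBit_and, testBit_pack ha hf, testBit_pack (by omega) hg2, testBit_pack (by omega)
    (fun i hi => lt_of_le_of_lt Nat.and_le_right (hg2 i hi)), Nat.testBit_and]
  by_cases h : p / (a * 2) < n
  · by_cases h2 : p % (a * 2) < a
    · have h3 : p / a = 2 * (p / (a * 2)) := by
        have := Nat.div_add_mod p (a * 2)
        have e1 : a * 2 * (p / (a * 2)) = 2 * (p / (a * 2)) * a := by ring
        have e2 : (2 * (p / (a * 2)) + 1) * a = 2 * (p / (a * 2)) * a + a := by ring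
        apply Nat.div_eq_of_lt_le
        · omega
        · omega
      have h4 : p % a = p % (a * 2) := by
        have h5 := Nat.div_add_mod p (a * 2)
        have h6 := Nat.div_add_mod p a
        rw [h3] at h6
        have : a * (2 * (p / (a * 2))) = a * 2 * (p / (a * 2)) := by ring
        omega
      rw [h3, h4]
      have h5 : 2 * (p / (a * 2)) < 2 * n := by omega
      simp [h]
    · have h5 : (g (p / (a * 2))).testBit (p % (a * 2)) = false := by
        apply Nat.testBit_lt_two_pow
        exact lt_of_lt_of_le (hg _ h) (Nat.pow_le_pow_right (by norm_num) (by omega))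
      rw [h5]; simp
  · simp [h]

theorem pack_inj {a : ℕ} {f g : ℕ → ℕ} {n : ℕ} (hf : ∀ i < n, f i < 2 ^ a) (hg : ∀ i < n, g i < 2 ^ a)
    (h : pack a f n = pack a g n) : ∀ i < n, f i = g i := by
  induction n with
  | zero => intro i hi; omega
  | succ n ih =>
    have h1 := pack_lt (n := n) (fun i hi => hf i (by omega))
    have h2 := pack_lt (n := n) (fun i hi => hg i (by omega))
    rw [pack, pack] at h
    have h3 : pack a f n = pack a g n := by
      have := congrArg (· % 2 ^ (a * n)) h
      simpa [Nat.add_mul_mod_self_left, Nat.mod_eq_of_lt h1, Nat.mod_eq_of_lt h2] using this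
    have h4 : f n = g n := by
      rw [h3] at h
      have := Nat.add_left_cancel h
      exact Nat.eq_of_mul_eq_mul_left (by positivity) this
    intro i hi
    rcases Nat.lt_succ_iff_lt_or_eq.1 hi with h5 | h5
    · exact ih (fun i hi => hf i (by omega)) (fun i hi => hg i (by omega)) h3 i h5
    · rw [h5, h4]

/-- All the fields of a window. -/
theorem sel_eq {a b o L : ℕ} (x : ℕ) (hab : b ≤ a) (ha : 0 < a) :
    Nat.land (Nat.shiftRight x o) (pack a (fun _ => 2 ^ b - 1) L) =
      pack a (fun i => (x >>> (o + a * i)) % 2 ^ b) L := by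
  change (x >>> o) &&& (pack a (fun _ => 2 ^ b - 1) L) = _
  have h2b : 2 ^ b ≤ 2 ^ a := Nat.pow_le_pow_right (by norm_num) hab
  have hpos : 0 < 2 ^ b := by positivity
  apply Nat.eq_of_testBit_eq
  intro p
  rw [Nat.testBit_and, testBit_pack ha (fun i _ => by omega), testBit_pack ha (fun i _ =>
    lt_of_lt_of_le (Nat.mod_lt _ hpos) h2b), Nat.testBit_two_pow_sub_one, Nat.testBit_mod_two_pow,
    Nat.testBit_shiftRight, Nat.testBit_shiftRight]
  have h3 : o + a * (p / a) + p % a = o + p := by
    have := Nat.div_add_mod p a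
    omega
  rw [h3]
  by_cases h : p / a < L <;> by_cases h2 : p % a < b <;> simp [h, h2]

theorem pack_one (a : ℕ) (f : ℕ → ℕ) : pack a f 1 = f 0 := by simp [pack]

theorem pack_append (a : ℕ) (f : ℕ → ℕ) (m n : ℕ) :
    pack a f (m + n) = pack a f m + 2 ^ (a * m) * pack a (fun i => f (m + i)) n := by
  induction n with
  | zero => simp [pack]
  | succ n ih =>
    rw [← add_assoc, pack, pack, ih, mul_add, mul_add, pow_add]
    ring

theorem pack_extend (a : ℕ) (f : ℕ → ℕ) (m n : ℕ) (h : ∀ i, m ≤ i → f i = 0) :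
    pack a f (m + n) = pack a f m := by
  induction n with
  | zero => rfl
  | succ n ih => rw [← add_assoc, pack, ih, h _ (by omega)]; ring

theorem pack_succ' (a : ℕ) (f : ℕ → ℕ) (n : ℕ) :
    pack a f (n + 1) = f 0 + 2 ^ a * pack a (fun i => f (i + 1)) n := by
  rw [add_comm n 1, pack_append, pack_one, mul_one]
  congr 2
  exact pack_congr (fun i _ => by rw [add_comm])

theorem pack_const (a c n : ℕ) (ha : 0 < a) :
    pack a (fun _ => c) n = c * ((2 ^ (a * n) - 1) / (2 ^ a - 1)) := by
  have h1 : (2 ^ a - 1) * pack a (fun _ => 1) n = 2 ^ (a * n) - 1 := by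
    induction n with
    | zero => simp [pack]
    | succ n ih =>
      rw [pack, mul_add, ih, show a * (n + 1) = a * n + a by ring, pow_add, mul_one]
      have h2 : 0 < 2 ^ (a * n) := by positivity
      have h3 : 0 < 2 ^ a := by positivity
      have h4 : 2 ^ (a * n) ≤ 2 ^ (a * n) * 2 ^ a := Nat.le_mul_of_pos_right _ h3
      have h5 : (2 ^ a - 1) * 2 ^ (a * n) = 2 ^ (a * n) * 2 ^ a - 2 ^ (a * n) := by
        rw [Nat.sub_mul, one_mul, mul_comm]
      rw [h5]
      omega
  have h2 : 0 < 2 ^ a - 1 := by
    have : 2 ^ 1 ≤ 2 ^ a := Nat.pow_le_pow_right (by norm_num) ha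
    omega
  rw [← h1, Nat.mul_div_cancel_left _ h2, mul_pack]
  simp

theorem shiftRight_pack {a b : ℕ} (hab : b ≤ a) (g : ℕ → ℕ) (n : ℕ) (h0 : g 0 < 2 ^ (a - b)) :
    (pack a g (n + 1)) >>> (a - b) = 2 ^ b * pack a (fun i => g (i + 1)) n := by
  rw [pack_succ', Nat.shiftRight_eq_div_pow]
  have h1 : 2 ^ a = 2 ^ (a - b) * 2 ^ b := by rw [← pow_add]; congr 1; omega
  rw [h1, mul_assoc, Nat.add_mul_div_left _ _ (by positivity), Nat.div_eq_of_lt h0]
  omega

end T5
end CollatzExp
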