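import Mathlib
import Pool.Agent.CollatzExp.T5Core
import Pool.Agent.CollatzExp.T5Pack

set_option autoImplicit false

/-!
Soundness of the operations on packed numbers: masks, gathering, comparison, windows.
-/

namespace CollatzExp
namespace T5

theorem rep_eq {a : ℕ} (ha : 0 < a) (n c : ℕ) : rep a n c = pack a (fun _ => c) n := by
  rw [pack_const a c n ha]
  rfl

/-- One step of `gathA`. -/
theorem gathA_step {a b : ℕ} (hb : 0 < b) (hab : 2 * b ≤ a) (g : ℕ → ℕ) (hg : ∀ i, g i < 2 ^ b)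
    (n : ℕ) (hg0 : g (2 * n) = 0) :
    Nat.land (Nat.add (pack a g (2 * n)) (Nat.shiftRight (pack a g (2 * n)) (a - b)))
      (pack (a * 2) (fun _ => 2 ^ (b * 2) - 1) n) =
    pack (a * 2) (fun m => g (2 * m) + 2 ^ b * g (2 * m + 1)) n := by
  have h1 : Nat.shiftRight (pack a g (2 * n)) (a - b) = 2 ^ b * pack a (fun i => g (i + 1)) (2 * n) := by
    rcases n with _ | n
    · exact Nat.zero_shiftRight _
    · have h2 : pack a (fun i => g (i + 1)) (2 * (n + 1)) = pack a (fun i => g (i + 1)) (2 * n + 1) := by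
        rw [show 2 * (n + 1) = (2 * n + 1) + 1 by ring, pack]
        rw [show 2 * (n + 1) = 2 * n + 1 + 1 by ring] at hg0
        rw [hg0]
        ring
      rw [h2]
      exact shiftRight_pack (by omega) g (2 * n + 1)
        (lt_of_lt_of_le (hg 0) (Nat.pow_le_pow_right (by norm_num) (by omega)))
  have hb2 : ∀ i, g i + 2 ^ b * g (i + 1) < 2 ^ (b * 2) := by
    intro i
    have h3 := hg i
    have h4 := hg (i + 1)
    have h5 : 2 ^ (b * 2) = 2 ^ b * 2 ^ b := by rw [← pow_add]; congr 1; ring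
    rw [h5]
    have h6 : 2 ^ b * g (i + 1) + 2 ^ b ≤ 2 ^ b * 2 ^ b := by
      rw [← Nat.mul_succ]; exact Nat.mul_le_mul_left _ h4
    omega
  have hba : 2 ^ (b * 2) ≤ 2 ^ a := Nat.pow_le_pow_right (by norm_num) (by omega)
  rw [h1]
  change Nat.land (pack a g (2 * n) + 2 ^ b * pack a (fun i => g (i + 1)) (2 * n)) _ = _
  rw [mul_pack, pack_add, pack_land_even (by omega)
    (fun i _ => lt_of_lt_of_le (hb2 i) hba) (fun i _ => by
      have : 0 < 2 ^ (b * 2) := by positivity
      omega)]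
  apply pack_congr
  intro i _
  change (g (2 * i) + 2 ^ b * g (2 * i + 1)) &&& (2 ^ (b * 2) - 1) = _
  rw [Nat.and_two_pow_sub_one_eq_mod, Nat.mod_eq_of_lt (hb2 _)]

/-- One step of `gathB`. -/
theorem gathB_step {a b : ℕ} (hb : 0 < b) (hab : b ≤ a) (g : ℕ → ℕ) (hg : ∀ i, g i < 2 ^ b)
    (n : ℕ) (hg0 : g (2 * n) = 0) :
    Nat.add (Nat.land (pack a g (2 * n)) (pack (a * 2) (fun _ => 2 ^ b - 1) n))
      (Nat.shiftLeft (Nat.land (Nat.shiftRight (pack a g (2 * n)) a)
        (pack (a * 2) (fun _ => 2 ^ b - 1) n)) b) =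
    pack (a * 2) (fun m => g (2 * m) + 2 ^ b * g (2 * m + 1)) n := by
  have h1 : Nat.shiftRight (pack a g (2 * n)) a = pack a (fun i => g (i + 1)) (2 * n) := by
    rcases n with _ | n
    · exact Nat.zero_shiftRight _
    · have h2 : pack a (fun i => g (i + 1)) (2 * (n + 1)) = pack a (fun i => g (i + 1)) (2 * n + 1) := by
        rw [show 2 * (n + 1) = (2 * n + 1) + 1 by ring, pack]
        rw [show 2 * (n + 1) = 2 * n + 1 + 1 by ring] at hg0
        rw [hg0]
        ring
      rw [h2]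
      have h3 := shiftRight_pack (a := a) (b := 0) (Nat.zero_le _) g (2 * n + 1)
        (lt_of_lt_of_le (hg 0) (Nat.pow_le_pow_right (by norm_num) (by omega)))
      rw [Nat.sub_zero, pow_zero, one_mul] at h3
      exact h3
  have hba : 2 ^ b ≤ 2 ^ a := Nat.pow_le_pow_right (by norm_num) hab
  have hga : ∀ i, g i < 2 ^ a := fun i => lt_of_lt_of_le (hg i) hba
  have hm : ∀ i < n, (fun _ : ℕ => 2 ^ b - 1) i < 2 ^ a := fun i _ => by
    have : 0 < 2 ^ b := by positivity
    simp only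
    omega
  rw [h1, pack_land_even (by omega) (fun i _ => hga i) hm,
    pack_land_even (f := fun i => g (i + 1)) (by omega) (fun i _ => hga (i + 1)) hm]
  have h4 : ∀ x, x < 2 ^ b → Nat.land x (2 ^ b - 1) = x := by
    intro x hx
    change x &&& (2 ^ b - 1) = x
    rw [Nat.and_two_pow_sub_one_eq_mod, Nat.mod_eq_of_lt hx]
  simp only [h4 _ (hg _)]
  change pack (a * 2) (fun i => g (2 * i)) n + (pack (a * 2) (fun i => g (2 * i + 1)) n) <<< b = _
  rw [Nat.shiftLeft_eq, mul_comm _ (2 ^ b), mul_pack, pack_add]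

/-- The block contents during gathering. -/
def lvl (b : ℕ) (f : ℕ → ℕ) (j m : ℕ) : ℕ := pack b (fun r => f (2 ^ j * m + r)) (2 ^ j)

theorem lvl_lt {b : ℕ} {f : ℕ → ℕ} (hf : ∀ i, f i < 2 ^ b) (j m : ℕ) :
    lvl b f j m < 2 ^ (b * 2 ^ j) := pack_lt (fun _ _ => hf _)

theorem lvl_succ (b : ℕ) (f : ℕ → ℕ) (j m : ℕ) :
    lvl b f (j + 1) m = lvl b f j (2 * m) + 2 ^ (b * 2 ^ j) * lvl b f j (2 * m + 1) := by
  unfold lvl
  rw [pow_succ, mul_two, pack_append]
  congr 1
  · exact pack_congr (fun i _ => by congr 1; ring)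
  · congr 1
    exact pack_congr (fun i _ => by congr 1; ring)

theorem lvl_zero_of {b : ℕ} {f : ℕ → ℕ} {L : ℕ} (hf : ∀ i, L ≤ i → f i = 0) (j m : ℕ)
    (h : L ≤ 2 ^ j * m) : lvl b f j m = 0 := by
  unfold lvl
  have : pack b (fun r => f (2 ^ j * m + r)) (2 ^ j) = pack b (fun _ => 0) (2 ^ j) :=
    pack_congr (fun i _ => hf _ (by omega))
  rw [this]
  have h2 : pack b (fun _ => 0) (2 ^ j) = 0 * pack b (fun _ => 1) (2 ^ j) := by
    rw [mul_pack]
  rw [h2, zero_mul]

theorem gathA_aux {a b L J : ℕ} (hb : 0 < b) (hab : 2 * b ≤ a) (hL : L ≤ 2 ^ J) (f : ℕ → ℕ)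
    (hf : ∀ i, f i < 2 ^ b) (hf0 : ∀ i, L ≤ i → f i = 0) (J' : ℕ) (hJ : J' ≤ J) :
    (Nat.rec (motive := fun _ => Nat) (pack a f L)
    (fun j ih => Nat.land
      (Nat.add ih (Nat.shiftRight ih (Nat.mul (Nat.sub a b) (Nat.pow 2 j))))
      (rep (Nat.mul (Nat.mul a (Nat.pow 2 j)) 2) (Nat.pow 2 (Nat.sub J (Nat.succ j)))
        (Nat.sub (Nat.pow 2 (Nat.mul (Nat.mul b (Nat.pow 2 j)) 2)) 1))) J' : ℕ) =
    pack (a * 2 ^ J') (lvl b f J') (2 ^ (J - J')) := by
  induction J' with
  | zero =>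
    change pack a f L = _
    rw [pow_zero, mul_one, Nat.sub_zero]
    have h1 : pack a (lvl b f 0) (2 ^ J) = pack a f (L + (2 ^ J - L)) := by
      rw [Nat.add_sub_cancel' hL]
      apply pack_congr
      intro i _
      unfold lvl
      rw [pow_zero, pack_one]
      congr 1; ring
    rw [h1, pack_extend _ _ _ _ hf0]
  | succ j ih =>
    have ih := ih (by omega)
    simp only
    rw [ih]
    have h2 : 2 ^ (J - j) = 2 * 2 ^ (J - (j + 1)) := by
      rw [← pow_succ']; congr 1; omega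
    rw [h2]
    have hpos : 0 < 2 ^ j := by positivity
    have ha : 0 < a := by omega
    have h3 : Nat.mul (Nat.sub a b) (Nat.pow 2 j) = a * 2 ^ j - b * 2 ^ j := by
      change (a - b) * 2 ^ j = _
      rw [Nat.sub_mul]
    have h4 : rep (Nat.mul (Nat.mul a (Nat.pow 2 j)) 2) (Nat.pow 2 (Nat.sub J (Nat.succ j)))
        (Nat.sub (Nat.pow 2 (Nat.mul (Nat.mul b (Nat.pow 2 j)) 2)) 1) =
        pack (a * 2 ^ j * 2) (fun _ => 2 ^ (b * 2 ^ j * 2) - 1) (2 ^ (J - (j + 1))) := by
      have hap : 0 < a * 2 ^ j * 2 := by positivity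
      exact rep_eq hap _ _
    rw [h3, h4, gathA_step (a := a * 2 ^ j) (b := b * 2 ^ j) (by positivity) (by nlinarith)
      (lvl b f j) (lvl_lt hf j) (2 ^ (J - (j + 1))) (lvl_zero_of hf0 _ _ (by
        rw [← h2, ← pow_add, Nat.add_sub_cancel' (by omega)]; exact hL))]
    rw [pow_succ, mul_assoc]
    exact pack_congr (fun i _ => (lvl_succ b f j i).symm)

theorem gathA_eq {a b L J : ℕ} (hb : 0 < b) (hab : 2 * b ≤ a) (hL : L ≤ 2 ^ J) (f : ℕ → ℕ)
    (hf : ∀ i < L, f i < 2 ^ b) : gathA a b J (pack a f L) = pack b f L := by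
  have h0 : pack a f L = pack a (fun i => if i < L then f i else 0) L :=
    pack_congr (fun i hi => by simp [hi])
  rw [h0]
  unfold gathA
  rw [gathA_aux hb hab hL (fun i => if i < L then f i else 0) (fun i => by
    by_cases h : i < L
    · simp [h, hf i h]
    · simp [h]) (fun i hi => by simp [Nat.not_lt.2 hi]) J le_rfl]
  rw [Nat.sub_self, pow_zero, pack_one]
  unfold lvl
  have h1 : pack b (fun r => if 2 ^ J * 0 + r < L then f (2 ^ J * 0 + r) else 0) (2 ^ J)
      = pack b (fun i => if i < L then f i else 0) (L + (2 ^ J - L)) := by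
    rw [Nat.add_sub_cancel' hL]
    exact pack_congr (fun i _ => by simp)
  rw [h1, pack_extend _ _ _ _ (fun i hi => by simp [Nat.not_lt.2 hi])]
  exact pack_congr (fun i hi => by simp [hi])

theorem gathB_aux {a b L J : ℕ} (hb : 0 < b) (hab : b ≤ a) (hL : L ≤ 2 ^ J) (f : ℕ → ℕ)
    (hf : ∀ i, f i < 2 ^ b) (hf0 : ∀ i, L ≤ i → f i = 0) (J' : ℕ) (hJ : J' ≤ J) :
    (Nat.rec (motive := fun _ => Nat) (pack a f L)
    (fun j ih => (fun A => Nat.add (Nat.land ih A)
        (Nat.shiftLeft (Nat.land (Nat.shiftRight ih (Nat.mul a (Nat.pow 2 j))) A)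
          (Nat.mul b (Nat.pow 2 j))))
      (rep (Nat.mul (Nat.mul a (Nat.pow 2 j)) 2) (Nat.pow 2 (Nat.sub J (Nat.succ j)))
        (Nat.sub (Nat.pow 2 (Nat.mul b (Nat.pow 2 j))) 1))) J' : ℕ) =
    pack (a * 2 ^ J') (lvl b f J') (2 ^ (J - J')) := by
  induction J' with
  | zero =>
    change pack a f L = _
    rw [pow_zero, mul_one, Nat.sub_zero]
    have h1 : pack a (lvl b f 0) (2 ^ J) = pack a f (L + (2 ^ J - L)) := by
      rw [Nat.add_sub_cancel' hL]
      apply pack_congr
      intro i _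
      unfold lvl
      rw [pow_zero, pack_one]
      congr 1; ring
    rw [h1, pack_extend _ _ _ _ hf0]
  | succ j ih =>
    have ih := ih (by omega)
    simp only
    rw [ih]
    have h2 : 2 ^ (J - j) = 2 * 2 ^ (J - (j + 1)) := by
      rw [← pow_succ']; congr 1; omega
    rw [h2]
    have hpos : 0 < 2 ^ j := by positivity
    have ha : 0 < a := by omega
    have h4 : rep (Nat.mul (Nat.mul a (Nat.pow 2 j)) 2) (Nat.pow 2 (Nat.sub J (Nat.succ j)))
        (Nat.sub (Nat.pow 2 (Nat.mul b (Nat.pow 2 j))) 1) =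
        pack (a * 2 ^ j * 2) (fun _ => 2 ^ (b * 2 ^ j) - 1) (2 ^ (J - (j + 1))) := by
      have hap : 0 < a * 2 ^ j * 2 := by positivity
      exact rep_eq hap _ _
    rw [h4]
    have h5 := gathB_step (a := a * 2 ^ j) (b := b * 2 ^ j) (by positivity)
      (Nat.mul_le_mul_right _ hab)
      (lvl b f j) (lvl_lt hf j) (2 ^ (J - (j + 1))) (lvl_zero_of hf0 _ _ (by
        rw [← h2, ← pow_add, Nat.add_sub_cancel' (by omega)]; exact hL))
    refine Eq.trans h5 ?_
    rw [pow_succ, mul_assoc]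
    exact pack_congr (fun i _ => (lvl_succ b f j i).symm)

theorem gathB_eq {a b L J : ℕ} (hb : 0 < b) (hab : b ≤ a) (hL : L ≤ 2 ^ J) (f : ℕ → ℕ)
    (hf : ∀ i < L, f i < 2 ^ b) : gathB a b J (pack a f L) = pack b f L := by
  have h0 : pack a f L = pack a (fun i => if i < L then f i else 0) L :=
    pack_congr (fun i hi => by simp [hi])
  rw [h0]
  unfold gathB
  rw [gathB_aux hb hab hL (fun i => if i < L then f i else 0) (fun i => by
    by_cases h : i < L
    · simp [h, hf i h]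
    · simp [h]) (fun i hi => by simp [Nat.not_lt.2 hi]) J le_rfl]
  rw [Nat.sub_self, pow_zero, pack_one]
  unfold lvl
  have h1 : pack b (fun r => if 2 ^ J * 0 + r < L then f (2 ^ J * 0 + r) else 0) (2 ^ J)
      = pack b (fun i => if i < L then f i else 0) (L + (2 ^ J - L)) := by
    rw [Nat.add_sub_cancel' hL]
    exact pack_congr (fun i _ => by simp)
  rw [h1, pack_extend _ _ _ _ (fun i hi => by simp [Nat.not_lt.2 hi])]
  exact pack_congr (fun i hi => by simp [hi])

/-- Soundness of the comparison. -/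
theorem le_of_leAll {w L : ℕ} {f g : ℕ → ℕ} (hw : 0 < w) (hf : ∀ i < L, f i < 2 ^ (w - 1))
    (hg : ∀ i < L, g i < 2 ^ (w - 1)) (h : leAll w L (pack w f L) (pack w g L) = true) :
    ∀ i < L, f i ≤ g i := by
  have h1 : leAll w L (pack w f L) (pack w g L) =
      Nat.beq (Nat.land (Nat.sub (Nat.add (pack w g L) (rep w L (Nat.pow 2 (Nat.sub w 1))))
        (pack w f L)) (rep w L (Nat.pow 2 (Nat.sub w 1)))) (rep w L (Nat.pow 2 (Nat.sub w 1))) := rfl
  have h22 : 2 ^ w = 2 ^ (w - 1) + 2 ^ (w - 1) := by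
    rw [← two_mul, ← pow_succ']; congr 1; omega
  have hpos : 0 < 2 ^ (w - 1) := by positivity
  rw [h1, rep_eq hw] at h
  have h2 := Nat.eq_of_beq_eq_true h
  change Nat.land (pack w g L + pack w (fun _ => 2 ^ (w - 1)) L - pack w f L)
    (pack w (fun _ => 2 ^ (w - 1)) L) = pack w (fun _ => 2 ^ (w - 1)) L at h2
  rw [pack_add, pack_sub _ _ _ _ (fun i hi => by have := hf i hi; omega),
    pack_land hw (fun i hi => by have := hf i hi; have := hg i hi; omega)
      (fun i hi => by omega)] at h2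
  intro i hi
  have h3 := pack_inj (fun i hi => lt_of_le_of_lt
    (show Nat.land _ _ ≤ 2 ^ (w - 1) from Nat.and_le_right) (by omega)) (fun i _ => by omega) h2 i hi
  have h4 : Nat.land (g i + 2 ^ (w - 1) - f i) (2 ^ (w - 1)) ≤ g i + 2 ^ (w - 1) - f i :=
    Nat.and_le_left
  rw [h3] at h4
  omega

/-- The record `t` of the array stored in `T`. -/
noncomputable def recd (T : Tree) (n L wr t : ℕ) : ℕ :=
  (blk T n (wr * L) (t / L) >>> (wr * (t % L))) % 2 ^ wr

theorem blk_lt (T : Tree) (n b i : ℕ) : blk T n b i < 2 ^ b :=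
  Nat.mod_lt _ (Nat.two_pow_pos b)

theorem blk_mod (T : Tree) (n b i : ℕ) : blk T n b (i % n) = blk T n b i := by
  unfold blk
  change T.get (i % n % n) % 2 ^ b = T.get (i % n) % 2 ^ b
  rw [Nat.mod_mod]

theorem win_eq (T : Tree) (n b c m : ℕ) :
    win T n b c m = pack b (fun i => blk T n b (c + i)) m := by
  induction m with
  | zero => rfl
  | succ m ih =>
    rw [pack, ← ih]
    change win T n b c m + (blk T n b (c + m)) <<< (b * m) = _
    rw [Nat.shiftLeft_eq, mul_comm]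

/-- The fields of a window. -/
theorem win_field (T : Tree) {n L wr c m p : ℕ} (hL : 0 < L) (hwr : 0 < wr) (hp : p < L * m) :
    (win T n (wr * L) c m >>> (wr * p)) % 2 ^ wr = recd T n L wr (L * c + p) := by
  rw [win_eq]
  unfold recd
  have h1 : (L * c + p) / L = c + p / L := by
    rw [add_comm, Nat.add_mul_div_left _ _ hL, add_comm]
  have h2 : (L * c + p) % L = p % L := by
    rw [Nat.mul_add_mod]
  rw [h1, h2]
  have hb : 0 < wr * L := by positivity
  have hm : p / L < m := (Nat.div_lt_iff_lt_mul hL).2 (by rw [mul_comm]; exact hp)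
  apply Nat.eq_of_testBit_eq
  intro q
  rw [Nat.testBit_mod_two_pow, Nat.testBit_mod_two_pow, Nat.testBit_shiftRight,
    Nat.testBit_shiftRight, testBit_pack hb (fun i _ => blk_lt _ _ _ _)]
  by_cases hq : q < wr
  · have hpL := Nat.mod_lt p hL
    have h3 : wr * p + q = (wr * L) * (p / L) + (wr * (p % L) + q) := by
      have := Nat.div_add_mod p L
      calc wr * p + q = wr * (L * (p / L) + p % L) + q := by rw [this]
        _ = _ := by ring
    have h4 : wr * (p % L) + q < wr * L := by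
      have : wr * (p % L) + wr ≤ wr * L := by
        rw [← Nat.mul_succ]; exact Nat.mul_le_mul_left _ hpL
      omega
    have h5 : (wr * p + q) / (wr * L) = p / L := by
      rw [h3, add_comm, Nat.add_mul_div_left _ _ hb, Nat.div_eq_of_lt h4, zero_add]
    have h6 : (wr * p + q) % (wr * L) = wr * (p % L) + q := by
      rw [h3, Nat.mul_add_mod, Nat.mod_eq_of_lt h4]
    rw [h5, h6]
    simp [hm]
  · simp [hq]

theorem recd_lt (T : Tree) (n L wr t : ℕ) : recd T n L wr t < 2 ^ wr := Nat.mod_lt _ (by positivity)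

/-- Periodicity. -/
theorem recd_mod (T : Tree) {n L wr : ℕ} (t : ℕ) :
    recd T n L wr (t % (n * L)) = recd T n L wr t := by
  unfold recd
  have h1 : t % (n * L) % L = t % L := Nat.mod_mod_of_dvd _ (Dvd.intro_left _ rfl)
  have h2 : t % (n * L) / L = t / L % n := by
    rw [mul_comm, Nat.mod_mul_right_div_self]
  rw [h1, h2, blk_mod]

end T5
end CollatzExp
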