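import Mathlib
import Pool.Agent.CollatzExp.Defs
import Pool.Agent.CollatzExp.T5Gath

set_option autoImplicit false

/-!
Soundness of the checker: if all blocks pass, then `DataOK` holds.
-/

namespace CollatzExp
namespace T5

theorem land_bit {x s m : ℕ} (hx : x < 2 ^ m) (hs : s ≤ 1) : Nat.land x ((2 ^ m - 1) * s) = s * x := by
  change x &&& ((2 ^ m - 1) * s) = s * x
  have : s = 0 ∨ s = 1 := by omega
  rcases this with rfl | rfl
  · simp
  · rw [mul_one, one_mul, Nat.and_two_pow_sub_one_eq_mod, Nat.mod_eq_of_lt hx]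

theorem land_mask {x m : ℕ} (hx : x < 2 ^ m) : Nat.land x (2 ^ m - 1) = x := by
  change x &&& (2 ^ m - 1) = x
  rw [Nat.and_two_pow_sub_one_eq_mod, Nat.mod_eq_of_lt hx]

theorem sr24 (x : ℕ) : Nat.shiftRight x 24 = x / 2 ^ 24 := Nat.shiftRight_eq_div_pow x 24

theorem pack_scale {L a B : ℕ} {f : ℕ → ℕ} (hf : ∀ i < L, f i ≤ B) (hB : a * B < 2 ^ 64)
    {s : ℕ → ℕ} (hs : ∀ i < L, s i ≤ 1) :
    Nat.land (Nat.shiftRight (Nat.mul a (pack 64 f L)) 24)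
      (pack 64 (fun i => (2 ^ 40 - 1) * s i) L) = pack 64 (fun i => s i * (a * f i / 2 ^ 24)) L := by
  have h1 : ∀ i < L, a * f i < 2 ^ 64 := fun i hi =>
    lt_of_le_of_lt (Nat.mul_le_mul_left _ (hf i hi)) hB
  change Nat.land (Nat.shiftRight (a * pack 64 f L) 24) _ = _
  rw [mul_pack, pack_shiftRight_land (by norm_num) h1 (fun i hi => by
    have := hs i hi
    have h2 : (2 ^ 40 - 1) * s i ≤ (2 ^ 40 - 1) * 1 := Nat.mul_le_mul_left _ this
    norm_num at h2 ⊢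
    omega)]
  apply pack_congr
  intro i hi
  rw [sr24]
  exact land_bit (by have := h1 i hi; omega) (hs i hi)

theorem stepK_eq {L a b BP BV : ℕ} {Wk Pf Vf : ℕ → ℕ} (hWk : ∀ i < L, Wk i < 2 ^ 63)
    (hP : ∀ i < L, Pf i ≤ BP) (hV : ∀ i < L, Vf i ≤ BV) (haP : a * BP < 2 ^ 63)
    (hP2 : BP + a * BP / 2 ^ 24 < 2 ^ 63)
    (hbV : b * BV < 2 ^ 64) (k : ℕ → ℕ → Bool) :
    ∃ s : ℕ → ℕ, (∀ i < L, s i ≤ 1) ∧
      stepK L (pack 64 Wk L) a b k (pack 64 Pf L) (pack 64 Vf L) =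
        k (pack 64 (fun i => Pf i + s i * (a * Pf i / 2 ^ 24)) L)
          (pack 64 (fun i => Vf i + s i * (b * Vf i / 2 ^ 24) + s i) L) := by
  have hd : Nat.land (Nat.shiftRight (Nat.mul a (pack 64 Pf L)) 24) (rep 64 L 1099511627775) =
      pack 64 (fun i => a * Pf i / 2 ^ 24) L := by
    rw [rep_eq (by norm_num)]
    have h1 := pack_scale (a := a) (s := fun _ => 1) hP (by omega) (fun i _ => le_rfl)
    simp only [mul_one, one_mul] at h1
    norm_num at h1 ⊢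
    exact h1
  have hds : ∀ i < L, a * Pf i / 2 ^ 24 ≤ a * BP / 2 ^ 24 := fun i hi =>
    Nat.div_le_div_right (Nat.mul_le_mul_left _ (hP i hi))
  let s : ℕ → ℕ := fun i => Nat.land
    (Nat.shiftRight (Wk i + 2 ^ 63 - (Pf i + a * Pf i / 2 ^ 24)) 63) 1
  have hs1 : ∀ i, s i ≤ 1 := fun i => Nat.and_le_right
  have hs : Nat.land
        (Nat.shiftRight
          (Nat.sub (Nat.add (pack 64 Wk L) (rep 64 L 9223372036854775808))
            (Nat.add (pack 64 Pf L) (pack 64 (fun i => a * Pf i / 2 ^ 24) L))) 63)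
        (rep 64 L 1) = pack 64 s L := by
    rw [rep_eq (by norm_num), rep_eq (by norm_num)]
    change Nat.land (Nat.shiftRight ((pack 64 Wk L + pack 64 (fun _ => 9223372036854775808) L) -
      (pack 64 Pf L + pack 64 (fun i => a * Pf i / 2 ^ 24) L)) 63) (pack 64 (fun _ => 1) L) = _
    have h63 : (9223372036854775808 : ℕ) = 2 ^ 63 := by norm_num
    rw [h63, pack_add, pack_add, pack_sub _ _ _ _ (fun i hi => by
      have h1 := hP i hi; have h2 := hds i hi; omega), pack_shiftRight_land (by norm_num)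
        (fun i hi => by have h1 := hWk i hi; omega) (fun i _ => by norm_num)]
  refine ⟨s, fun i _ => hs1 i, ?_⟩
  unfold stepK
  rw [hd]
  simp only
  rw [hs]
  have hm : Nat.mul 1099511627775 (pack 64 s L) = pack 64 (fun i => (2 ^ 40 - 1) * s i) L := by
    change 1099511627775 * pack 64 s L = _
    rw [mul_pack]
    norm_num
  rw [hm, pack_scale hV hbV (fun i _ => hs1 i)]
  have hdm : Nat.land (pack 64 (fun i => a * Pf i / 2 ^ 24) L)
      (pack 64 (fun i => (2 ^ 40 - 1) * s i) L) = pack 64 (fun i => s i * (a * Pf i / 2 ^ 24)) L := by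
    have h40 : ∀ i < L, a * Pf i / 2 ^ 24 < 2 ^ 40 := fun i hi => by
      have h1 := Nat.mul_le_mul_left a (hP i hi)
      omega
    rw [pack_land (by norm_num) (fun i hi => by have := h40 i hi; omega) (fun i _ => by
      have h2 : (2 ^ 40 - 1) * s i ≤ (2 ^ 40 - 1) * 1 := Nat.mul_le_mul_left _ (hs1 i)
      omega)]
    exact pack_congr (fun i hi => land_bit (h40 i hi) (hs1 i))
  rw [hdm]
  change k (pack 64 Pf L + pack 64 (fun i => s i * (a * Pf i / 2 ^ 24)) L)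
    (pack 64 Vf L + pack 64 (fun i => s i * (b * Vf i / 2 ^ 24)) L + pack 64 s L) = _
  rw [pack_add, pack_add, pack_add]

theorem stepZ_eq {L a b BP BV : ℕ} {Pf Vf : ℕ → ℕ}
    (hP : ∀ i < L, Pf i ≤ BP) (hV : ∀ i < L, Vf i ≤ BV) (haP : a * BP < 2 ^ 64)
    (hbV : b * BV < 2 ^ 64) (k : ℕ → ℕ → Bool) :
      stepZ L a b k (pack 64 Pf L) (pack 64 Vf L) =
        k (pack 64 (fun i => Pf i + a * Pf i / 2 ^ 24) L)
          (pack 64 (fun i => Vf i + b * Vf i / 2 ^ 24 + 1) L) := by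
  unfold stepZ
  rw [rep_eq (by norm_num), rep_eq (by norm_num)]
  have h1 := pack_scale (s := fun _ => 1) hP haP (fun i _ => le_rfl)
  have h2 := pack_scale (s := fun _ => 1) hV hbV (fun i _ => le_rfl)
  simp only [mul_one, one_mul] at h1 h2
  have h3 : (1099511627775 : ℕ) = 2 ^ 40 - 1 := by norm_num
  rw [h3, h1, h2]
  change k (pack 64 Pf L + pack 64 (fun i => (a * Pf i / 2 ^ 24)) L)
    (pack 64 Vf L + pack 64 (fun i => (b * Vf i / 2 ^ 24)) L + pack 64 (fun _ => 1) L) = _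
  rw [pack_add, pack_add, pack_add]

theorem step_ineq {P V a b D E : ℕ} (hab : (2 ^ 24 + a) ^ 12 ≤ (2 ^ 24 + b) * (2 ^ 24) ^ 11)
    (h : P ^ 12 * E ≤ V * D) :
    (P + a * P / 2 ^ 24) ^ 12 * E ≤ (V + b * V / 2 ^ 24 + 1) * D := by
  have h1 : 2 ^ 24 * (P + a * P / 2 ^ 24) ≤ (2 ^ 24 + a) * P := by
    have := Nat.div_mul_le_self (a * P) (2 ^ 24)
    rw [mul_add, add_mul]
    nlinarith
  have h2 : (2 ^ 24 + b) * V ≤ 2 ^ 24 * (V + b * V / 2 ^ 24 + 1) := by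
    have := Nat.lt_div_mul_add (a := b * V) (b := 2 ^ 24) (by norm_num)
    rw [mul_add, mul_add, add_mul]
    nlinarith
  have h3 : (2 ^ 24) ^ 12 * ((P + a * P / 2 ^ 24) ^ 12 * E) ≤
      (2 ^ 24) ^ 12 * ((V + b * V / 2 ^ 24 + 1) * D) := by
    calc (2 ^ 24) ^ 12 * ((P + a * P / 2 ^ 24) ^ 12 * E)
        = (2 ^ 24 * (P + a * P / 2 ^ 24)) ^ 12 * E := by rw [mul_pow]; ring
      _ ≤ ((2 ^ 24 + a) * P) ^ 12 * E := Nat.mul_le_mul_right _ (Nat.pow_le_pow_left h1 12)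
      _ = (2 ^ 24 + a) ^ 12 * (P ^ 12 * E) := by rw [mul_pow]; ring
      _ ≤ ((2 ^ 24 + b) * (2 ^ 24) ^ 11) * (V * D) := Nat.mul_le_mul hab h
      _ = (2 ^ 24) ^ 11 * (((2 ^ 24 + b) * V) * D) := by ring
      _ ≤ (2 ^ 24) ^ 11 * ((2 ^ 24 * (V + b * V / 2 ^ 24 + 1)) * D) :=
          Nat.mul_le_mul_left _ (Nat.mul_le_mul_right _ h2)
      _ = (2 ^ 24) ^ 12 * ((V + b * V / 2 ^ 24 + 1) * D) := by ring
  exact Nat.le_of_mul_le_mul_left h3 (by positivity)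

/-- The bounds during the power loop. -/
def okC : List (ℕ × ℕ) → ℕ → ℕ → (ℕ → ℕ → Bool) → Bool
  | [], BP, BV, K => K BP BV
  | (a, b) :: cs, BP, BV, K =>
    decide (a * BP < 2 ^ 63) && (decide (BP + a * BP / 2 ^ 24 < 2 ^ 63) &&
      (decide (b * BV < 2 ^ 64) && (decide ((2 ^ 24 + a) ^ 12 ≤ (2 ^ 24 + b) * (2 ^ 24) ^ 11) &&
        okC cs (BP + a * BP / 2 ^ 24) (BV + b * BV / 2 ^ 24 + 1) K)))

theorem loopK_sound {L : ℕ} {Wk : ℕ → ℕ} (hWk : ∀ i < L, Wk i < 2 ^ 63) {fin : ℕ → ℕ → Bool}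
    {R : Prop} (D E : ℕ → ℕ) (K : ℕ → ℕ → Bool)
    (hfin : ∀ BP BV, K BP BV = true → ∀ Pf Vf : ℕ → ℕ, (∀ i < L, Pf i ≤ BP) →
      (∀ i < L, Vf i ≤ BV) → (∀ i < L, Pf i ^ 12 * E i ≤ Vf i * D i) →
      fin (pack 64 Pf L) (pack 64 Vf L) = true → R) (cs : List (ℕ × ℕ)) :
    ∀ BP BV, okC cs BP BV K = true → ∀ Pf Vf : ℕ → ℕ, (∀ i < L, Pf i ≤ BP) →
      (∀ i < L, Vf i ≤ BV) → (∀ i < L, Pf i ^ 12 * E i ≤ Vf i * D i) →
      loopK L (pack 64 Wk L) fin cs (pack 64 Pf L) (pack 64 Vf L) = true → R := by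
  induction cs with
  | nil => exact hfin
  | cons ab cs ih =>
    obtain ⟨a, b⟩ := ab
    intro BP BV hok Pf Vf hP hV hI h
    simp only [okC, Bool.and_eq_true, decide_eq_true_eq] at hok
    obtain ⟨h1, h2, h3, h4, h5⟩ := hok
    change stepK L (pack 64 Wk L) a b (loopK L (pack 64 Wk L) fin cs) (pack 64 Pf L)
      (pack 64 Vf L) = true at h
    obtain ⟨s, hs, he⟩ := stepK_eq hWk hP hV h1 h2 h3 (loopK L (pack 64 Wk L) fin cs)
    rw [he] at h
    refine ih _ _ h5 _ _ (fun i hi => ?_) (fun i hi => ?_) (fun i hi => ?_) h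
    · have h6 : a * Pf i / 2 ^ 24 ≤ a * BP / 2 ^ 24 :=
        Nat.div_le_div_right (Nat.mul_le_mul_left _ (hP i hi))
      have h7 : s i * (a * Pf i / 2 ^ 24) ≤ 1 * (a * Pf i / 2 ^ 24) :=
        Nat.mul_le_mul_right _ (hs i hi)
      have := hP i hi
      omega
    · have h6 : b * Vf i / 2 ^ 24 ≤ b * BV / 2 ^ 24 :=
        Nat.div_le_div_right (Nat.mul_le_mul_left _ (hV i hi))
      have h7 : s i * (b * Vf i / 2 ^ 24) ≤ 1 * (b * Vf i / 2 ^ 24) :=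
        Nat.mul_le_mul_right _ (hs i hi)
      have := hV i hi
      have := hs i hi
      omega
    · have h8 : s i = 0 ∨ s i = 1 := by have := hs i hi; omega
      rcases h8 with h8 | h8
      · rw [h8]; simpa using hI i hi
      · rw [h8]; simpa using step_ineq h4 (hI i hi)

/-- The final bounds of the power loop. -/
def okK (P : Par) (BP BV : ℕ) : Bool :=
  decide (190 * BP < 2 ^ 64) && (decide (2281 * BV < 2 ^ 64) &&
    (decide (BP + 190 * BP / 2 ^ 24 < 2 ^ 63) &&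
      decide (P.cf * (BV + 2281 * BV / 2 ^ 24 + 1) + P.B2 * 2 ^ P.wh < 2 ^ 63)))

/-- The conditions on the parameters. -/
def Par.ok (P : Par) : Bool :=
  decide (P.n % 2 = 1) && (decide (P.L % 2 = 1) && (decide (P.L ≤ 2 ^ P.J) &&
  (decide (P.wr = P.wq + P.wh) && (decide (32 ≤ P.wr) && (decide (P.wr ≤ 63) &&
  (decide (0 < P.wq) && (decide (0 < P.wh) && (decide (P.wq ≤ 30) && (decide (P.wh ≤ 30) &&
  (decide (P.A8 < 2 ^ 31) && (decide (P.A2 < 2 ^ 31) && (decide (P.AL < 2 ^ 31) &&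
  (decide (P.B1 < 2 ^ 31) && (decide (P.B2 < 2 ^ 31) && (decide (P.Th < 2 ^ 31) &&
  (decide (P.kp ^ 12 * 2 ^ 30 ≤ P.v0 * P.cf * 16384 ^ 12) &&
  okC consts (P.kp * 2 ^ P.wq) (P.v0 * 2 ^ P.wh) (okK P)))))))))))))))))

theorem lo_eq (P : Par) {w : ℕ} (hw : 0 < w) (hqw : P.wq ≤ w) {f : ℕ → ℕ}
    (hf : ∀ i < P.L, f i < 2 ^ w) :
    lo P w (pack w f P.L) = pack w (fun i => f i % 2 ^ P.wq) P.L := by
  unfold lo
  have h2 : 2 ^ P.wq ≤ 2 ^ w := Nat.pow_le_pow_right (by norm_num) hqw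
  have hpos : 0 < 2 ^ P.wq := by positivity
  rw [rep_eq hw]
  change Nat.land (pack w f P.L) (pack w (fun _ => 2 ^ P.wq - 1) P.L) = _
  rw [pack_land hw hf (fun i _ => by omega)]
  apply pack_congr
  intro i _
  exact Nat.and_two_pow_sub_one_eq_mod _ _

theorem hi_eq (P : Par) {w : ℕ} (hqw : P.wq < w) (hhw : P.wq + P.wh ≤ w) {f : ℕ → ℕ}
    (hf : ∀ i < P.L, f i < 2 ^ w) :
    hi P w (pack w f P.L) = pack w (fun i => f i / 2 ^ P.wq % 2 ^ P.wh) P.L := by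
  unfold hi
  have h2 : 2 ^ P.wh ≤ 2 ^ (w - P.wq) := Nat.pow_le_pow_right (by norm_num) (by omega)
  have hpos : 0 < 2 ^ P.wh := by positivity
  rw [rep_eq (by omega)]
  change Nat.land (Nat.shiftRight (pack w f P.L) P.wq) (pack w (fun _ => 2 ^ P.wh - 1) P.L) = _
  rw [pack_shiftRight_land hqw hf (fun i _ => by omega)]
  apply pack_congr
  intro i _
  change (f i >>> P.wq) &&& (2 ^ P.wh - 1) = _
  rw [Nat.and_two_pow_sub_one_eq_mod, Nat.shiftRight_eq_div_pow]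

end T5
end CollatzExp
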