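import Mathlib
import Pool.Agent.CollatzExp.Defs
import Pool.Agent.CollatzExp.T5Sound

set_option autoImplicit false

/-!
Soundness of the checker: if all blocks pass, then `DataOK` holds.
-/

namespace CollatzExp
namespace T5

/-- The conditions on the parameters. -/
structure POK (P : Par) : Prop where
  hn : P.n % 2 = 1
  hL : P.L % 2 = 1
  hJ : P.L ≤ 2 ^ P.J
  hwr : P.wr = P.wq + P.wh
  h32 : 32 ≤ P.wr
  h63 : P.wr ≤ 63
  hq0 : 0 < P.wq
  hh0 : 0 < P.wh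
  hq : P.wq ≤ 30
  hh : P.wh ≤ 30
  hA8 : P.A8 < 2 ^ 31
  hA2 : P.A2 < 2 ^ 31
  hAL : P.AL < 2 ^ 31
  hB1 : P.B1 < 2 ^ 31
  hB2 : P.B2 < 2 ^ 31
  hTh : P.Th < 2 ^ 31
  hv : P.kp ^ 12 * 2 ^ 30 ≤ P.v0 * P.cf * 16384 ^ 12
  hc : okC consts (P.kp * 2 ^ P.wq) (P.v0 * 2 ^ P.wh) (okK P) = true

theorem pok_of_ok {P : Par} (h : P.ok = true) : POK P := by
  simp only [Par.ok, Bool.and_eq_true, decide_eq_true_eq] at h
  obtain ⟨h1, h2, h3, h4, h5, h6, h7, h8, h9, h10, h11, h12, h13, h14, h15, h16, h17, h18⟩ := h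
  exact ⟨h1, h2, h3, h4, h5, h6, h7, h8, h9, h10, h11, h12, h13, h14, h15, h16, h17, h18⟩

/-- The low part of a record. -/
def qf (P : Par) (x : ℕ) : ℕ := x % 2 ^ P.wq

/-- The high part of a record. -/
def hf (P : Par) (x : ℕ) : ℕ := x / 2 ^ P.wq % 2 ^ P.wh

theorem band_eq (x y : Bool) : band x y = (x && y) := by cases x <;> rfl

/-- The last part of the check `chkH`. -/
theorem fin_sound {P : Par} (hP : POK P) {wg qx qt : ℕ → ℕ} {BP BV : ℕ} (hK : okK P BP BV = true)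
    {Pf Vf : ℕ → ℕ} (hPf : ∀ i < P.L, Pf i ≤ BP) (hVf : ∀ i < P.L, Vf i ≤ BV)
    (hI : ∀ i < P.L, Pf i ^ 12 * (2 ^ 30 * hf P (wg i)) ≤
      Vf i * (qf P (qx i) ^ 12 * P.cf * 16384 ^ 12))
    (hf1 : leAll 64 P.L (pack 64 (fun i => 16384 * qf P (wg i)) P.L)
        (pack 64 (fun i => Pf i + 190 * Pf i / 2 ^ 24) P.L) = true)
    (hf2 : leAll 64 P.L (pack 64 (fun i => P.cf * (Vf i + 2281 * Vf i / 2 ^ 24 + 1) +
          P.B2 * hf P (qt i)) P.L) (pack 64 (fun i => 1073741824 * hf P (qx i)) P.L) = true) :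
    ∀ i < P.L, 2 ^ 30 * hf P (wg i) * qf P (wg i) ^ 12 + P.B2 * hf P (qt i) * qf P (qx i) ^ 12 ≤
      2 ^ 30 * hf P (qx i) * qf P (qx i) ^ 12 := by
  have hq63 := hP.hq
  have hh63 := hP.hh
  have hqlt : ∀ x, qf P x < 2 ^ P.wq := fun x => Nat.mod_lt _ (by positivity)
  have hhlt : ∀ x, hf P x < 2 ^ P.wh := fun x => Nat.mod_lt _ (by positivity)
  have hqle : 2 ^ P.wq ≤ 2 ^ 30 := Nat.pow_le_pow_right (by norm_num) hq63
  have hhle : 2 ^ P.wh ≤ 2 ^ 30 := Nat.pow_le_pow_right (by norm_num) hh63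
  simp only [okK, Bool.and_eq_true, decide_eq_true_eq] at hK
  obtain ⟨hK1, hK2, hK3, hK4⟩ := hK
  have hPn : ∀ i < P.L, Pf i + 190 * Pf i / 2 ^ 24 < 2 ^ 63 := fun i hi => by
    have h6 : 190 * Pf i / 2 ^ 24 ≤ 190 * BP / 2 ^ 24 :=
      Nat.div_le_div_right (Nat.mul_le_mul_left _ (hPf i hi))
    have := hPf i hi
    omega
  have hVn : ∀ i < P.L, Vf i + 2281 * Vf i / 2 ^ 24 + 1 ≤ BV + 2281 * BV / 2 ^ 24 + 1 :=
    fun i hi => by
    have h6 : 2281 * Vf i / 2 ^ 24 ≤ 2281 * BV / 2 ^ 24 :=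
      Nat.div_le_div_right (Nat.mul_le_mul_left _ (hVf i hi))
    have := hVf i hi
    omega
  have h4 : (2 : ℕ) ^ (64 - 1) = 2 ^ 63 := by norm_num
  have hL1 := le_of_leAll (by norm_num) (fun i _ => by
    have := hqlt (wg i)
    rw [h4]
    omega) (fun i hi => by
    rw [h4]
    exact hPn i hi) hf1
  have hL2 := le_of_leAll (by norm_num) (fun i hi => by
    have h1 := hVn i hi
    have h2 : P.cf * (Vf i + 2281 * Vf i / 2 ^ 24 + 1) ≤ P.cf * (BV + 2281 * BV / 2 ^ 24 + 1) :=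
      Nat.mul_le_mul_left _ h1
    have h3 : P.B2 * hf P (qt i) ≤ P.B2 * 2 ^ P.wh := Nat.mul_le_mul_left _ (hhlt _).le
    rw [h4]
    omega) (fun i hi => by
    have := hhlt (qx i)
    rw [h4]
    omega) hf2
  intro i hi
  have h1 := hL1 i hi
  have h2 := hL2 i hi
  have h3 := step_ineq (P := Pf i) (V := Vf i) (a := 190) (b := 2281) (by norm_num) (hI i hi)
  have h4 : (16384 * qf P (wg i)) ^ 12 * (2 ^ 30 * hf P (wg i)) ≤
      (Pf i + 190 * Pf i / 2 ^ 24) ^ 12 * (2 ^ 30 * hf P (wg i)) :=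
    Nat.mul_le_mul_right _ (Nat.pow_le_pow_left h1 12)
  have h5 : 16384 ^ 12 * (2 ^ 30 * hf P (wg i) * qf P (wg i) ^ 12) ≤
      16384 ^ 12 * (P.cf * (Vf i + 2281 * Vf i / 2 ^ 24 + 1) * qf P (qx i) ^ 12) := by
    calc 16384 ^ 12 * (2 ^ 30 * hf P (wg i) * qf P (wg i) ^ 12)
        = (16384 * qf P (wg i)) ^ 12 * (2 ^ 30 * hf P (wg i)) := by rw [mul_pow]; ring
      _ ≤ _ := h4
      _ ≤ _ := h3
      _ = _ := by ring
  have h6 := Nat.le_of_mul_le_mul_left h5 (by positivity)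
  calc 2 ^ 30 * hf P (wg i) * qf P (wg i) ^ 12 + P.B2 * hf P (qt i) * qf P (qx i) ^ 12
      ≤ P.cf * (Vf i + 2281 * Vf i / 2 ^ 24 + 1) * qf P (qx i) ^ 12 +
        P.B2 * hf P (qt i) * qf P (qx i) ^ 12 := Nat.add_le_add_right h6 _
    _ = (P.cf * (Vf i + 2281 * Vf i / 2 ^ 24 + 1) + P.B2 * hf P (qt i)) * qf P (qx i) ^ 12 := by
      ring
    _ ≤ (1073741824 * hf P (qx i)) * qf P (qx i) ^ 12 := Nat.mul_le_mul_right _ h2
    _ = 2 ^ 30 * hf P (qx i) * qf P (qx i) ^ 12 := by norm_num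

/-- The final test in `chkH`. -/
noncomputable def finT (L cf c b wk hx : ℕ) (Pf Vf : ℕ) : Bool :=
  Bool.rec false (leAll 64 L (Nat.add (Nat.mul cf Vf) c) (Nat.mul b hx)) (leAll 64 L wk Pf)

theorem finT_iff {L cf c b wk hx Pf Vf : ℕ} (h : finT L cf c b wk hx Pf Vf = true) :
    leAll 64 L wk Pf = true ∧ leAll 64 L (cf * Vf + c) (b * hx) = true := by
  unfold finT at h
  change leAll 64 L wk Pf = true ∧ leAll 64 L (Nat.add (Nat.mul cf Vf) c) (Nat.mul b hx) = true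
  revert h
  generalize leAll 64 L wk Pf = b1
  generalize leAll 64 L (Nat.add (Nat.mul cf Vf) c) (Nat.mul b hx) = b2
  intro h
  cases b1
  · exact absurd h (by simp)
  · exact ⟨rfl, h⟩

theorem chkH_unfold (P : Par) (wg qx qt : ℕ) :
    chkH P wg qx qt = loopK P.L (Nat.mul 16384 (lo P 64 wg))
      (stepZ P.L 190 2281 (finT P.L P.cf (Nat.mul P.B2 (hi P 64 qt)) 1073741824
        (Nat.mul 16384 (lo P 64 wg)) (hi P 64 qx)))
      consts (Nat.mul P.kp (lo P 64 qx)) (Nat.mul P.v0 (hi P 64 wg)) := rfl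

theorem chkH_sound {P : Par} (hP : POK P) {wg qx qt : ℕ → ℕ} (hwg : ∀ i < P.L, wg i < 2 ^ 64)
    (hqx : ∀ i < P.L, qx i < 2 ^ 64) (hqt : ∀ i < P.L, qt i < 2 ^ 64)
    (h : chkH P (pack 64 wg P.L) (pack 64 qx P.L) (pack 64 qt P.L) = true) :
    ∀ i < P.L, 2 ^ 30 * hf P (wg i) * qf P (wg i) ^ 12 + P.B2 * hf P (qt i) * qf P (qx i) ^ 12 ≤
      2 ^ 30 * hf P (qx i) * qf P (qx i) ^ 12 := by
  have hq63 := hP.hq
  have hh63 := hP.hh
  have hqlt : ∀ x, qf P x < 2 ^ P.wq := fun x => Nat.mod_lt _ (by positivity)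
  have hhlt : ∀ x, hf P x < 2 ^ P.wh := fun x => Nat.mod_lt _ (by positivity)
  have hqle : 2 ^ P.wq ≤ 2 ^ 30 := Nat.pow_le_pow_right (by norm_num) hq63
  have e1 : Nat.mul 16384 (lo P 64 (pack 64 wg P.L)) =
      pack 64 (fun i => 16384 * qf P (wg i)) P.L := by
    rw [lo_eq P (by norm_num) (by omega) hwg]
    exact mul_pack _ _ _ _
  have e2 : Nat.mul P.kp (lo P 64 (pack 64 qx P.L)) =
      pack 64 (fun i => P.kp * qf P (qx i)) P.L := by
    rw [lo_eq P (by norm_num) (by omega) hqx]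
    exact mul_pack _ _ _ _
  have e3 : Nat.mul P.v0 (hi P 64 (pack 64 wg P.L)) =
      pack 64 (fun i => P.v0 * hf P (wg i)) P.L := by
    rw [hi_eq P (by omega) (by omega) hwg]
    exact mul_pack _ _ _ _
  have e4 : Nat.mul P.B2 (hi P 64 (pack 64 qt P.L)) =
      pack 64 (fun i => P.B2 * hf P (qt i)) P.L := by
    rw [hi_eq P (by omega) (by omega) hqt]
    exact mul_pack _ _ _ _
  have e5 : hi P 64 (pack 64 qx P.L) = pack 64 (fun i => hf P (qx i)) P.L := by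
    rw [hi_eq P (by omega) (by omega) hqx]
    rfl
  rw [chkH_unfold, e1, e2, e3, e4, e5] at h
  refine loopK_sound (fun i _ => ?_) (fun i => qf P (qx i) ^ 12 * P.cf * 16384 ^ 12)
    (fun i => 2 ^ 30 * hf P (wg i)) (okK P) ?_ consts _ _ hP.hc _ _ (fun i _ => ?_) (fun i _ => ?_)
    (fun i _ => ?_) h
  · have := hqlt (wg i)
    omega
  · intro BP BV hK Pf Vf hPf hVf hI hfin
    have hK' := hK
    simp only [okK, Bool.and_eq_true, decide_eq_true_eq] at hK'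
    obtain ⟨hK1, hK2, hK3, hK4⟩ := hK'
    rw [stepZ_eq hPf hVf hK1 hK2] at hfin
    obtain ⟨hf1, hf2⟩ := finT_iff hfin
    rw [mul_pack, pack_add, mul_pack] at hf2
    exact fin_sound hP hK hPf hVf hI hf1 hf2
  · exact Nat.mul_le_mul_left _ (hqlt _).le
  · exact Nat.mul_le_mul_left _ (hhlt _).le
  · have h1 := hP.hv
    calc (P.kp * qf P (qx i)) ^ 12 * (2 ^ 30 * hf P (wg i))
        = (P.kp ^ 12 * 2 ^ 30) * (qf P (qx i) ^ 12 * hf P (wg i)) := by rw [mul_pow]; ring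
      _ ≤ (P.v0 * P.cf * 16384 ^ 12) * (qf P (qx i) ^ 12 * hf P (wg i)) :=
          Nat.mul_le_mul_right _ h1
      _ = _ := by ring

/-- The comparison of two linear combinations. -/
theorem lin_le {P : Par} {f g : ℕ → ℕ} (hf : ∀ i < P.L, f i < 2 ^ 63)
    (hg : ∀ i < P.L, g i < 2 ^ 63) (h : leAll 64 P.L (pack 64 f P.L) (pack 64 g P.L) = true) :
    ∀ i < P.L, f i ≤ g i :=
  le_of_leAll (by norm_num) (by simpa using hf) (by simpa using hg) h

theorem sel_pack {P : Par} (hP : POK P) {s : ℕ} (hs : 0 < s) (o x : ℕ) :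
    sel P s o x = pack (P.wr * s) (fun i => (x >>> (P.wr * (o + s * i))) % 2 ^ P.wr) P.L := by
  unfold sel
  have h1 : 0 < P.wr := by have := hP.h32; omega
  have h2 : 0 < P.wr * s := by positivity
  have h3 : rep (Nat.mul P.wr s) P.L (Nat.sub (Nat.pow 2 P.wr) 1) =
    pack (P.wr * s) (fun _ => 2 ^ P.wr - 1) P.L := rep_eq h2 _ _
  rw [h3, sel_eq x (Nat.le_mul_of_pos_right _ hs) h2]
  apply pack_congr
  intro i _
  have h4 : Nat.mul P.wr o + P.wr * s * i = P.wr * (o + s * i) := by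
    change P.wr * o + P.wr * s * i = _
    ring
  rw [h4]

theorem getA_eq {P : Par} (hP : POK P) {s : ℕ} (hs : 4 ≤ s) (o x : ℕ) :
    getA P s o x = pack 64 (fun i => (x >>> (P.wr * (o + s * i))) % 2 ^ P.wr) P.L := by
  unfold getA
  rw [sel_pack hP (by omega)]
  have h1 := hP.h32
  have h2 := hP.h63
  have h3 : 2 ^ P.wr ≤ 2 ^ 64 := Nat.pow_le_pow_right (by norm_num) (by omega)
  have h4 : 32 * 4 ≤ P.wr * s := Nat.mul_le_mul h1 hs
  exact gathA_eq (a := P.wr * s) (by norm_num) (by omega) hP.hJ _ (fun i _ =>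
    lt_of_lt_of_le (Nat.mod_lt _ (by positivity)) h3)

theorem getB_eq {P : Par} (hP : POK P) {s : ℕ} (hs : 2 ≤ s) (o x : ℕ) :
    getB P s o x = pack 64 (fun i => (x >>> (P.wr * (o + s * i))) % 2 ^ P.wr) P.L := by
  unfold getB
  rw [sel_pack hP (by omega)]
  have h1 := hP.h32
  have h2 := hP.h63
  have h3 : 2 ^ P.wr ≤ 2 ^ 64 := Nat.pow_le_pow_right (by norm_num) (by omega)
  have h4 : 32 * 2 ≤ P.wr * s := Nat.mul_le_mul h1 hs
  exact gathB_eq (a := P.wr * s) (by norm_num) (by omega) hP.hJ _ (fun i _ =>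
    lt_of_lt_of_le (Nat.mod_lt _ (by positivity)) h3)

/-- The records selected from a window. -/
theorem win_sel {P : Par} (hP : POK P) (T : Tree) {n c m s o : ℕ} (hm : o + s * P.L ≤ P.L * m + (s - 1))
    (hs : 0 < s) : ∀ i < P.L,
    (win T n (P.wr * P.L) c m >>> (P.wr * (o + s * i))) % 2 ^ P.wr =
      recd T n P.L P.wr (P.L * c + (o + s * i)) := by
  intro i hi
  have h1 : 0 < P.L := by omega
  have h2 : 0 < P.wr := by have := hP.h32; omega
  refine win_field T h1 h2 ?_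
  have h3 : s * i + s ≤ s * P.L := by
    rw [← Nat.mul_succ]; exact Nat.mul_le_mul_left _ hi
  omega

end T5
end CollatzExp
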