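import Mathlib
import Pool.Agent.CollatzExp.Defs
import Pool.Agent.CollatzExp.T5Main

set_option autoImplicit false

/-!
Soundness of the checker: if all blocks pass, then `DataOK` holds.
-/

namespace CollatzExp
namespace T5

theorem pack_fields {x a L : ℕ} (ha : 0 < a) (hx : x < 2 ^ (a * L)) :
    x = pack a (fun i => (x >>> (a * i)) % 2 ^ a) L := by
  apply Nat.eq_of_testBit_eq
  intro p
  rw [testBit_pack ha (fun i _ => Nat.mod_lt _ (by positivity)), Nat.testBit_mod_two_pow,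
    Nat.testBit_shiftRight, Nat.div_add_mod]
  have h1 := Nat.mod_lt p ha
  by_cases h : p / a < L
  · simp [h, h1]
  · have h2 : a * L ≤ p := by
      have := (Nat.le_div_iff_mul_le ha).1 (Nat.not_lt.1 h)
      rw [mul_comm]; exact this
    have h3 : x.testBit p = false := by
      apply Nat.testBit_lt_two_pow
      exact lt_of_lt_of_le hx (Nat.pow_le_pow_right (by norm_num) h2)
    rw [h3]; simp [h]

theorem blk_fields {P : Par} (hwr : 0 < P.wr) (T : Tree) {n c : ℕ} :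
    blk T n (P.wr * P.L) c = pack P.wr (fun i => recd T n P.L P.wr (P.L * c + i)) P.L := by
  rw [pack_fields (x := blk T n (P.wr * P.L) c) hwr (blk_lt _ _ _ _)]
  apply pack_congr
  intro i hi
  unfold recd
  have hL : 0 < P.L := by omega
  have h1 : (P.L * c + i) / P.L = c := by
    rw [add_comm, Nat.add_mul_div_left _ _ hL, Nat.div_eq_of_lt hi, zero_add]
  have h2 : (P.L * c + i) % P.L = i := by
    rw [Nat.mul_add_mod, Nat.mod_eq_of_lt hi]
  rw [h1, h2]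

theorem qf_lt (P : Par) (x : ℕ) : qf P x < 2 ^ P.wq := Nat.mod_lt _ (by positivity)

theorem hf_lt (P : Par) (x : ℕ) : hf P x < 2 ^ P.wh := Nat.mod_lt _ (by positivity)

theorem lo_pack {P : Par} (hP : POK P) {f : ℕ → ℕ} (hf : ∀ i < P.L, f i < 2 ^ P.wr) :
    lo P 64 (pack 64 f P.L) = pack 64 (fun i => qf P (f i)) P.L := by
  have h1 := hP.h63
  have h3 := hP.hq
  have h2 : 2 ^ P.wr ≤ 2 ^ 64 := Nat.pow_le_pow_right (by norm_num) (by omega)
  exact lo_eq P (by norm_num) (by omega) (fun i hi => lt_of_lt_of_le (hf i hi) h2)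

theorem hi_pack {P : Par} (hP : POK P) {f : ℕ → ℕ} (hf' : ∀ i < P.L, f i < 2 ^ P.wr) :
    hi P 64 (pack 64 f P.L) = pack 64 (fun i => hf P (f i)) P.L := by
  have h1 := hP.h63
  have h3 := hP.hq
  have h4 := hP.hwr
  have h2 : 2 ^ P.wr ≤ 2 ^ 64 := Nat.pow_le_pow_right (by norm_num) (by omega)
  exact hi_eq P (by omega) (by omega) (fun i hi => lt_of_lt_of_le (hf' i hi) h2)

theorem mul_lt63 {a b m : ℕ} (ha : a < 2 ^ 31) (hb : b < 2 ^ m) (hm : m ≤ 30) : a * b < 2 ^ 61 := by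
  have h1 : 2 ^ m ≤ 2 ^ 30 := Nat.pow_le_pow_right (by norm_num) hm
  calc a * b < 2 ^ 31 * 2 ^ 30 := Nat.mul_lt_mul'' ha (lt_of_lt_of_le hb h1)
    _ = 2 ^ 61 := by norm_num

theorem chkAll_sound {P : Par} (hP : POK P)
    {q0 q1 q2 x0 x1 x2 w0 w1 w2 w4 v2 h6 g : ℕ → ℕ}
    (bq0 : ∀ i < P.L, q0 i < 2 ^ P.wr) (bq1 : ∀ i < P.L, q1 i < 2 ^ P.wr)
    (bq2 : ∀ i < P.L, q2 i < 2 ^ P.wr) (bx0 : ∀ i < P.L, x0 i < 2 ^ P.wr)
    (bx1 : ∀ i < P.L, x1 i < 2 ^ P.wr) (bx2 : ∀ i < P.L, x2 i < 2 ^ P.wr)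
    (bw0 : ∀ i < P.L, w0 i < 2 ^ P.wr) (bw1 : ∀ i < P.L, w1 i < 2 ^ P.wr)
    (bw2 : ∀ i < P.L, w2 i < 2 ^ P.wr) (bw4 : ∀ i < P.L, w4 i < 2 ^ P.wr)
    (bv2 : ∀ i < P.L, v2 i < 2 ^ P.wr) (bh6 : ∀ i < P.L, h6 i < 2 ^ P.wr)
    (bg : ∀ i < P.L, g i < 2 ^ P.wr)
    (h : chkAll P (pack 64 q0 P.L) (pack 64 q1 P.L) (pack 64 q2 P.L) (pack 64 x0 P.L)
      (pack 64 x1 P.L) (pack 64 x2 P.L) (pack 64 w0 P.L) (pack 64 w1 P.L) (pack 64 w2 P.L)
      (pack 64 w4 P.L) (pack 64 v2 P.L) (pack 64 h6 P.L) (pack P.wr g P.L) = true) :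
    ∀ i < P.L,
      2 ^ 30 * qf P (q0 i) ≤ P.A2 * qf P (w4 i) + P.AL * qf P (x0 i) ∧
      2 ^ 30 * qf P (q1 i) ≤ P.AL * qf P (x1 i) ∧
      2 ^ 30 * qf P (q2 i) ≤ P.A8 * qf P (v2 i) + P.AL * qf P (x2 i) ∧
      P.B1 * hf P (h6 i) + P.B2 * hf P (q0 i) ≤ P.Th * hf P (w4 i) ∧
      1 ≤ qf P (q0 i) ∧ 1 ≤ qf P (q1 i) ∧ 1 ≤ qf P (q2 i) ∧ 1 ≤ qf P (g i) ∧ 1 ≤ hf P (g i) ∧
      2 ^ 30 * hf P (w0 i) * qf P (w0 i) ^ 12 + P.B2 * hf P (q0 i) * qf P (x0 i) ^ 12 ≤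
        2 ^ 30 * hf P (x0 i) * qf P (x0 i) ^ 12 ∧
      2 ^ 30 * hf P (w1 i) * qf P (w1 i) ^ 12 + P.B2 * hf P (q1 i) * qf P (x1 i) ^ 12 ≤
        2 ^ 30 * hf P (x1 i) * qf P (x1 i) ^ 12 ∧
      2 ^ 30 * hf P (w2 i) * qf P (w2 i) ^ 12 + P.B2 * hf P (q2 i) * qf P (x2 i) ^ 12 ≤
        2 ^ 30 * hf P (x2 i) * qf P (x2 i) ^ 12 := by
  simp only [chkAll, band_eq, Bool.and_eq_true] at h
  obtain ⟨c1, c2, c3, c4, c5, c6, c7, c8, c9, c10, c11, c12⟩ := h
  have e64 : ∀ {f : ℕ → ℕ}, (∀ i < P.L, f i < 2 ^ P.wr) → ∀ i < P.L, f i < 2 ^ 64 := by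
    intro f hf i hi
    have h1 := hP.h63
    exact lt_of_lt_of_le (hf i hi) (Nat.pow_le_pow_right (by norm_num) (by omega))
  have hq := hP.hq
  have hh := hP.hh
  have hq30 : ∀ x, qf P x < 2 ^ 30 := fun x =>
    lt_of_lt_of_le (qf_lt P x) (Nat.pow_le_pow_right (by norm_num) hq)
  have hh30 : ∀ x, hf P x < 2 ^ 30 := fun x =>
    lt_of_lt_of_le (hf_lt P x) (Nat.pow_le_pow_right (by norm_num) hh)
  have m1 : ∀ {a : ℕ}, a < 2 ^ 31 → ∀ x, a * qf P x < 2 ^ 61 := fun ha x =>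
    mul_lt63 ha (qf_lt P x) hq
  have m2 : ∀ {a : ℕ}, a < 2 ^ 31 → ∀ x, a * hf P x < 2 ^ 61 := fun ha x =>
    mul_lt63 ha (hf_lt P x) hh
  have r1 : rep 64 P.L 1 = pack 64 (fun _ => 1) P.L := rep_eq (by norm_num) _ _
  rw [lo_pack hP bq0, lo_pack hP bw4, lo_pack hP bx0] at c1
  change leAll 64 P.L (1073741824 * pack 64 (fun i => qf P (q0 i)) P.L)
    (P.A2 * pack 64 (fun i => qf P (w4 i)) P.L + P.AL * pack 64 (fun i => qf P (x0 i)) P.L) = true
    at c1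
  rw [mul_pack, mul_pack, mul_pack, pack_add] at c1
  have d1 := lin_le (P := P) (fun i _ => by have := hq30 (q0 i); omega) (fun i _ => by
    have a1 := m1 hP.hA2 (w4 i); have a2 := m1 hP.hAL (x0 i); omega) c1
  rw [lo_pack hP bq1, lo_pack hP bx1] at c2
  change leAll 64 P.L (1073741824 * pack 64 (fun i => qf P (q1 i)) P.L)
    (P.AL * pack 64 (fun i => qf P (x1 i)) P.L) = true at c2
  rw [mul_pack, mul_pack] at c2
  have d2 := lin_le (P := P) (fun i _ => by have := hq30 (q1 i); omega) (fun i _ => by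
    have a2 := m1 hP.hAL (x1 i); omega) c2
  rw [lo_pack hP bq2, lo_pack hP bv2, lo_pack hP bx2] at c3
  change leAll 64 P.L (1073741824 * pack 64 (fun i => qf P (q2 i)) P.L)
    (P.A8 * pack 64 (fun i => qf P (v2 i)) P.L + P.AL * pack 64 (fun i => qf P (x2 i)) P.L) = true
    at c3
  rw [mul_pack, mul_pack, mul_pack, pack_add] at c3
  have d3 := lin_le (P := P) (fun i _ => by have := hq30 (q2 i); omega) (fun i _ => by
    have a1 := m1 hP.hA8 (v2 i); have a2 := m1 hP.hAL (x2 i); omega) c3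
  rw [hi_pack hP bh6, hi_pack hP bq0, hi_pack hP bw4] at c4
  change leAll 64 P.L (P.B1 * pack 64 (fun i => hf P (h6 i)) P.L +
    P.B2 * pack 64 (fun i => hf P (q0 i)) P.L) (P.Th * pack 64 (fun i => hf P (w4 i)) P.L) = true
    at c4
  rw [mul_pack, mul_pack, mul_pack, pack_add] at c4
  have d4 := lin_le (P := P) (fun i _ => by
    have a1 := m2 hP.hB1 (h6 i); have a2 := m2 hP.hB2 (q0 i); omega) (fun i _ => by
    have a1 := m2 hP.hTh (w4 i); omega) c4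
  rw [r1, lo_pack hP bq0] at c5
  have d5 := lin_le (P := P) (fun i _ => by norm_num) (fun i _ => by have := hq30 (q0 i); omega) c5
  rw [r1, lo_pack hP bq1] at c6
  have d6 := lin_le (P := P) (fun i _ => by norm_num) (fun i _ => by have := hq30 (q1 i); omega) c6
  rw [r1, lo_pack hP bq2] at c7
  have d7 := lin_le (P := P) (fun i _ => by norm_num) (fun i _ => by have := hq30 (q2 i); omega) c7
  have hwr0 : 0 < P.wr := by have := hP.h32; omega
  have hwr := hP.hwr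
  have hq0 := hP.hq0
  have hh0 := hP.hh0
  have r2 : rep P.wr P.L 1 = pack P.wr (fun _ => 1) P.L := rep_eq hwr0 _ _
  have one_lt : 1 < 2 ^ (P.wr - 1) := by
    have h1 : 2 ^ 1 ≤ 2 ^ (P.wr - 1) := Nat.pow_le_pow_right (by norm_num) (by have := hP.h32; omega)
    omega
  rw [r2, lo_eq P hwr0 (by omega) bg] at c8
  have d8 := le_of_leAll hwr0 (fun i _ => one_lt) (fun i _ => lt_of_lt_of_le (qf_lt P (g i))
    (Nat.pow_le_pow_right (by norm_num) (by omega))) c8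
  rw [r2, hi_eq P (by omega) (by omega) bg] at c9
  have d9 := le_of_leAll hwr0 (fun i _ => one_lt) (fun i _ => lt_of_lt_of_le (hf_lt P (g i))
    (Nat.pow_le_pow_right (by norm_num) (by omega))) c9
  have d10 := chkH_sound hP (e64 bw0) (e64 bx0) (e64 bq0) c10
  have d11 := chkH_sound hP (e64 bw1) (e64 bx1) (e64 bq1) c11
  have d12 := chkH_sound hP (e64 bw2) (e64 bx2) (e64 bq2) c12
  intro i hi
  exact ⟨d1 i hi, d2 i hi, d3 i hi, d4 i hi, d5 i hi, d6 i hi, d7 i hi, d8 i hi, d9 i hi,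
    d10 i hi, d11 i hi, d12 i hi⟩

/-- The array `W`. -/
noncomputable def WA (P : Par) (T : Tree) (t : ℕ) : ℕ := qf P (recd T P.n P.L P.wr t)

/-- The array `G`. -/
noncomputable def GA (P : Par) (T : Tree) (t : ℕ) : ℕ := hf P (recd T P.n P.L P.wr t)

/-- The array `Q`. -/
noncomputable def QA (P : Par) (T : Tree) (t : ℕ) : ℕ := qf P (recd T (3 * P.n) P.L P.wr t)

/-- The array `H`. -/
noncomputable def HA (P : Par) (T : Tree) (t : ℕ) : ℕ := hf P (recd T (3 * P.n) P.L P.wr t)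

theorem chkBlk_sound {P : Par} (hP : POK P) {TW TQ : Tree} {c : ℕ} (h : chkBlk P TW TQ c = true) :
    ∀ i < P.L, ∀ u, u = P.L * c + i →
      2 ^ 30 * QA P TQ (3 * u) ≤ P.A2 * WA P TW (4 * u) + P.AL * QA P TQ (4 * (3 * u) + 2) ∧
      2 ^ 30 * QA P TQ (3 * u + 1) ≤ P.AL * QA P TQ (4 * (3 * u + 1) + 2) ∧
      2 ^ 30 * QA P TQ (3 * u + 2) ≤ P.A8 * WA P TW (2 * u + 1) +
        P.AL * QA P TQ (4 * (3 * u + 2) + 2) ∧
      P.B1 * HA P TQ (3 * (2 * u + (P.n * P.L - 1) / 2) + 2) + P.B2 * HA P TQ (3 * u) ≤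
        P.Th * GA P TW (4 * u) ∧
      1 ≤ QA P TQ (3 * u) ∧ 1 ≤ QA P TQ (3 * u + 1) ∧ 1 ≤ QA P TQ (3 * u + 2) ∧
      1 ≤ WA P TW u ∧ 1 ≤ GA P TW u ∧
      ∀ r < 3, 2 ^ 30 * GA P TW (4 * (3 * u + r) + 2) * WA P TW (4 * (3 * u + r) + 2) ^ 12 +
        P.B2 * HA P TQ (3 * u + r) * QA P TQ (4 * (3 * u + r) + 2) ^ 12 ≤
        2 ^ 30 * HA P TQ (4 * (3 * u + r) + 2) * QA P TQ (4 * (3 * u + r) + 2) ^ 12 := by
  have hwr0 : 0 < P.wr := by have := hP.h32; omega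
  change chkAll P
        (getB P 3 0 (win TQ (3 * P.n) (P.wr * P.L) (3 * c) 3))
        (getB P 3 1 (win TQ (3 * P.n) (P.wr * P.L) (3 * c) 3))
        (getB P 3 2 (win TQ (3 * P.n) (P.wr * P.L) (3 * c) 3))
        (getA P 12 2 (win TQ (3 * P.n) (P.wr * P.L) (12 * c) 12))
        (getA P 12 6 (win TQ (3 * P.n) (P.wr * P.L) (12 * c) 12))
        (getA P 12 10 (win TQ (3 * P.n) (P.wr * P.L) (12 * c) 12))
        (getA P 12 2 (win TW P.n (P.wr * P.L) (12 * c) 12))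
        (getA P 12 6 (win TW P.n (P.wr * P.L) (12 * c) 12))
        (getA P 12 10 (win TW P.n (P.wr * P.L) (12 * c) 12))
        (getA P 4 0 (win TW P.n (P.wr * P.L) (4 * c) 4))
        (getB P 2 1 (win TW P.n (P.wr * P.L) (2 * c) 2))
        (getA P 6 ((P.L + 1) / 2)
          (win TQ (3 * P.n) (P.wr * P.L) (6 * c + (3 * P.n - 1) / 2) 7))
        (blk TW P.n (P.wr * P.L) c) = true at h
  have key : ∀ (T : Tree) (n cc m s o : ℕ), 0 < s → o + s * P.L ≤ P.L * m + (s - 1) →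
      pack 64 (fun i => (win T n (P.wr * P.L) cc m >>> (P.wr * (o + s * i))) % 2 ^ P.wr) P.L =
      pack 64 (fun i => recd T n P.L P.wr (P.L * cc + (o + s * i))) P.L := by
    intro T n cc m s o hs hm
    exact pack_congr (win_sel hP T hm hs)
  rw [getB_eq hP (by norm_num), getB_eq hP (by norm_num), getB_eq hP (by norm_num),
    getA_eq hP (by norm_num), getA_eq hP (by norm_num), getA_eq hP (by norm_num),
    getA_eq hP (by norm_num), getA_eq hP (by norm_num), getA_eq hP (by norm_num),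
    getA_eq hP (by norm_num), getB_eq hP (by norm_num), getA_eq hP (by norm_num),
    key _ _ _ _ _ _ (by norm_num) (by omega), key _ _ _ _ _ _ (by norm_num) (by omega),
    key _ _ _ _ _ _ (by norm_num) (by omega), key _ _ _ _ _ _ (by norm_num) (by omega),
    key _ _ _ _ _ _ (by norm_num) (by omega), key _ _ _ _ _ _ (by norm_num) (by omega),
    key _ _ _ _ _ _ (by norm_num) (by omega), key _ _ _ _ _ _ (by norm_num) (by omega),
    key _ _ _ _ _ _ (by norm_num) (by omega), key _ _ _ _ _ _ (by norm_num) (by omega),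
    key _ _ _ _ _ _ (by norm_num) (by omega), key _ _ _ _ _ _ (by norm_num) (by omega),
    blk_fields hwr0] at h
  have hr : ∀ (T : Tree) (n : ℕ) (f : ℕ → ℕ), ∀ i < P.L, recd T n P.L P.wr (f i) < 2 ^ P.wr :=
    fun T n f i _ => recd_lt _ _ _ _ _
  have hs := chkAll_sound hP (hr _ _ _) (hr _ _ _) (hr _ _ _) (hr _ _ _) (hr _ _ _) (hr _ _ _)
    (hr _ _ _) (hr _ _ _) (hr _ _ _) (hr _ _ _) (hr _ _ _) (hr _ _ _) (hr _ _ _) h
  intro i hi u hu
  obtain ⟨s1, s2, s3, s4, s5, s6, s7, s8, s9, s10, s11, s12⟩ := hs i hi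
  have i0 : P.L * (3 * c) + (0 + 3 * i) = 3 * u := by rw [hu]; ring
  have i1 : P.L * (3 * c) + (1 + 3 * i) = 3 * u + 1 := by rw [hu]; ring
  have i2 : P.L * (3 * c) + (2 + 3 * i) = 3 * u + 2 := by rw [hu]; ring
  have j0 : P.L * (12 * c) + (2 + 12 * i) = 4 * (3 * u) + 2 := by rw [hu]; ring
  have j1 : P.L * (12 * c) + (6 + 12 * i) = 4 * (3 * u + 1) + 2 := by rw [hu]; ring
  have j2 : P.L * (12 * c) + (10 + 12 * i) = 4 * (3 * u + 2) + 2 := by rw [hu]; ring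
  have k4 : P.L * (4 * c) + (0 + 4 * i) = 4 * u := by rw [hu]; ring
  have k2 : P.L * (2 * c) + (1 + 2 * i) = 2 * u + 1 := by rw [hu]; ring
  have k6 : P.L * (6 * c + (3 * P.n - 1) / 2) + ((P.L + 1) / 2 + 6 * i) =
      3 * (2 * u + (P.n * P.L - 1) / 2) + 2 := by
    have hn := hP.hn
    have hL := hP.hL
    obtain ⟨n', hn'⟩ : ∃ n', P.n = 2 * n' + 1 := ⟨P.n / 2, by omega⟩
    obtain ⟨L', hL'⟩ : ∃ L', P.L = 2 * L' + 1 := ⟨P.L / 2, by omega⟩
    rw [hu, hn', hL']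
    have a1 : (3 * (2 * n' + 1) - 1) / 2 = 3 * n' + 1 := by omega
    have a2 : (2 * L' + 1 + 1) / 2 = L' + 1 := by omega
    have a3 : ((2 * n' + 1) * (2 * L' + 1) - 1) / 2 = 2 * (n' * L') + n' + L' := by
      have : (2 * n' + 1) * (2 * L' + 1) = 2 * (2 * (n' * L') + n' + L') + 1 := by ring
      omega
    rw [a1, a2, a3]
    ring
  rw [i0] at s1 s4 s5 s10
  rw [i1] at s2 s6 s11
  rw [i2] at s3 s7 s12
  rw [j0] at s1 s10
  rw [j1] at s2 s11
  rw [j2] at s3 s12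
  rw [k4] at s1 s4
  rw [k2] at s3
  rw [k6] at s4
  rw [← hu] at s8 s9
  refine ⟨s1, s2, s3, s4, s5, s6, s7, s8, s9, ?_⟩
  intro r hr3
  have : r = 0 ∨ r = 1 ∨ r = 2 := by omega
  rcases this with rfl | rfl | rfl
  · exact s10
  · exact s11
  · exact s12

theorem WA_mod (P : Par) (T : Tree) (t : ℕ) : WA P T (t % (P.n * P.L)) = WA P T t := by
  unfold WA; rw [recd_mod]

theorem GA_mod (P : Par) (T : Tree) (t : ℕ) : GA P T (t % (P.n * P.L)) = GA P T t := by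
  unfold GA; rw [recd_mod]

theorem QA_mod (P : Par) (T : Tree) (t : ℕ) : QA P T (t % (3 * P.n * P.L)) = QA P T t := by
  unfold QA; rw [recd_mod]

theorem HA_mod (P : Par) (T : Tree) (t : ℕ) : HA P T (t % (3 * P.n * P.L)) = HA P T t := by
  unfold HA; rw [recd_mod]

/-- Soundness of the checker. -/
theorem dataOK_of_chk {k : ℕ} (hk : 1 ≤ k) {P : Par} (hok : P.ok = true)
    (hN : 3 ^ (k - 1) = P.n * P.L) {TW TQ : Tree}
    (h : ∀ c < P.n, chkBlk P TW TQ c = true) :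
    DataOK k 12 (2 ^ 30) P.A8 P.A2 P.AL P.B1 P.B2 P.Th (WA P TW) (GA P TW) (QA P TQ) (HA P TQ) := by
  have hP := pok_of_ok hok
  have hM : 3 ^ k = 3 * P.n * P.L := by
    rw [mul_assoc, ← hN, ← pow_succ']; congr 1; omega
  have hM' : 3 ^ k = 3 * 3 ^ (k - 1) := by
    rw [← pow_succ']; congr 1; omega
  have hL : 0 < P.L := by have := hP.hL; omega
  have key : ∀ u < 3 ^ (k - 1), _ := fun u hu =>
    chkBlk_sound hP (h (u / P.L) ((Nat.div_lt_iff_lt_mul hL).2 (by rw [← hN]; exact hu)))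
      (u % P.L) (Nat.mod_lt _ hL) u (Nat.div_add_mod u P.L).symm
  have hH : ∀ t < 3 ^ k, 2 ^ 30 * GA P TW (4 * t + 2) * WA P TW (4 * t + 2) ^ 12 +
        P.B2 * HA P TQ t * QA P TQ (4 * t + 2) ^ 12 ≤
        2 ^ 30 * HA P TQ (4 * t + 2) * QA P TQ (4 * t + 2) ^ 12 := by
    intro t ht
    have h1 := (key (t / 3) (by omega)).2.2.2.2.2.2.2.2.2 (t % 3) (Nat.mod_lt _ (by norm_num))
    have h2 : 3 * (t / 3) + t % 3 = t := Nat.div_add_mod t 3
    rw [h2] at h1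
    exact h1
  refine ⟨?_, ?_, ?_, ?_, ?_, ?_, ?_, ?_⟩
  · intro t ht
    exact (key t ht).2.2.2.2.2.2.2.1
  · intro t ht
    exact (key t ht).2.2.2.2.2.2.2.2.1
  · intro t ht
    have h1 := key (t / 3) (by omega)
    have h2 : t = 3 * (t / 3) ∨ t = 3 * (t / 3) + 1 ∨ t = 3 * (t / 3) + 2 := by omega
    rcases h2 with h2 | h2 | h2
    · rw [h2]; exact h1.2.2.2.2.1
    · rw [h2]; exact h1.2.2.2.2.2.1
    · rw [h2]; exact h1.2.2.2.2.2.2.1
  · intro u hu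
    rw [hN, hM, WA_mod, QA_mod]
    exact (key u hu).1
  · intro u hu
    rw [hM, QA_mod]
    exact (key u hu).2.1
  · intro u hu
    rw [hN, hM, WA_mod, QA_mod]
    exact (key u hu).2.2.1
  · intro t ht t4 ht4
    have h1 := hH t ht
    have h2 : t4 % 3 ^ (k - 1) = (4 * t + 2) % (P.n * P.L) := by
      rw [ht4, hM', Nat.mod_mod_of_dvd _ (Dvd.intro_left _ rfl), hN]
    rw [h2, GA_mod, WA_mod, ht4, hM, HA_mod, QA_mod]
    exact h1
  · intro v hv
    have h1 := (key v hv).2.2.2.1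
    have h2 : 3 * ((2 * v + (3 ^ (k - 1) - 1) / 2) % 3 ^ (k - 1)) + 2 =
        (3 * (2 * v + (3 ^ (k - 1) - 1) / 2) + 2) % (3 * P.n * P.L) := by
      rw [← hM, hM']
      generalize 2 * v + (3 ^ (k - 1) - 1) / 2 = y
      have hpos : 0 < 3 ^ (k - 1) := by positivity
      generalize 3 ^ (k - 1) = N at hpos
      have h3 := Nat.div_add_mod y N
      have h4 := Nat.mod_lt y hpos
      have h5 : 3 * y + 2 = (3 * (y % N) + 2) + 3 * N * (y / N) := by
        have : 3 * N * (y / N) = 3 * (N * (y / N)) := by ring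
        omega
      have h6 : 3 * (y % N) + 2 < 3 * N := by omega
      rw [h5, Nat.add_mul_mod_self_left, Nat.mod_eq_of_lt h6]
    rw [h2, HA_mod, hN, GA_mod]
    exact h1

theorem chkRange_sound {P : Par} {TW TQ : Tree} {c m : ℕ} (h : chkRange P TW TQ c m = true) :
    ∀ i < m, chkBlk P TW TQ (c + i) = true := by
  induction m with
  | zero => intro i hi; omega
  | succ m ih =>
    change band (chkRange P TW TQ c m) (chkBlk P TW TQ (c + m)) = true at h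
    rw [band_eq, Bool.and_eq_true] at h
    intro i hi
    rcases Nat.lt_succ_iff_lt_or_eq.1 hi with h1 | h1
    · exact ih h.1 i h1
    · rw [h1]; exact h.2

/-- Joining ranges of the same length. -/
theorem chk_join {P : Par} {TW TQ : Tree} {m r : ℕ} (hm : 0 < m)
    (h : ∀ j < r, chkRange P TW TQ (m * j) m = true) (hn : P.n = m * r) :
    ∀ c < P.n, chkBlk P TW TQ c = true := by
  intro c hc
  have h1 := chkRange_sound (h (c / m) ((Nat.div_lt_iff_lt_mul hm).2 (by rw [mul_comm, ← hn]; exact hc)))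
    (c % m) (Nat.mod_lt _ hm)
  rw [Nat.div_add_mod] at h1
  exact h1

end T5
end CollatzExp
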